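import Pool.Agent.MP_39eeea_nt.H96.Spec
import Pool.Agent.MP_ca0a54_nt.SC.TAll

/-! The expansion estimate for all subfamilies of the shifts. -/

open Filter Finset

namespace Pool.Agent.MP_39eeea_nt.H96

open Pool.Agent.MP_ca0a54_nt Pool.Agent.MP_ca0a54_nt.SC Pool.Agent.MP_ca0a54_nt.SC.CT

namespace CORES

/-- The data with fewer primes. -/
def sub (d : Dat) (P : ℕ → Finset ℕ) : Dat :=
  { d with Pe := fun E => (d.Pe E).filter (· ∈ P (pd E)) }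

theorem sub_Pe (d : Dat) (P : ℕ → Finset ℕ) (E : Finset ℕ) : (sub d P).Pe E ⊆ d.Pe E :=
  filter_subset _ _

theorem base_sub {d : Dat} {r : ℕ} (h : d.Base r) (P : ℕ → Finset ℕ) : (sub d P).Base r :=
  ⟨h.1, h.2.1, h.2.2.1, fun E => (sub_Pe d P E).trans (h.2.2.2.1 E), h.2.2.2.2⟩

theorem mass_sub {d : Dat} (ha : 0 ≤ d.a) (P : ℕ → Finset ℕ) : massS (sub d P) ≤ massS d :=
  sum_le_sum fun E _ => sum_le_sum_of_subset_of_nonneg (sub_Pe d P E) fun p _ _ => by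
    show 0 ≤ d.a ^ E.card / ((pd E : ℝ) * p)
    positivity

theorem oi_sub {d : Dat} (ha : 0 ≤ d.a) (P : ℕ → Finset ℕ) (T E : Finset ℕ) (p : ℕ) :
    oi d T E p ≤ oi (sub d P) T E p := by
  have h : ok d T E p → ok (sub d P) T E p := fun h => ⟨le_trans (sum_le_sum fun F _ => by
    by_cases h1 : p ∈ (sub d P).Pe F
    · rw [if_pos h1, if_pos (sub_Pe d P F h1)]
      exact le_rfl
    · rw [if_neg h1]
      split_ifs
      · exact w_nonneg ha _ _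
      · exact le_rfl) h.1, h.2⟩
  by_cases h1 : ok d T E p
  · rw [oi, oi, if_pos h1, if_pos (h h1)]
  · rw [oi, if_neg h1]
    exact oi_nonneg _ _ _ _

theorem bad_sub {d : Dat} (ha : 0 ≤ d.a) (P : ℕ → Finset ℕ) : Bad (sub d P) ≤ Bad d := by
  refine sum_le_sum fun E _ => le_trans (sum_le_sum fun p _ => ?_)
    (sum_le_sum_of_subset_of_nonneg (sub_Pe d P E) fun p _ _ => ?_)
  · refine mul_le_mul_of_nonneg_left (Ex_mono fun T _ => ?_)
      (show 0 ≤ d.a ^ E.card / (p : ℝ) by positivity)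
    split_ifs
    · linarith [oi_sub ha P T E p]
    · exact le_rfl
  · refine mul_nonneg (by positivity) (Ex_nonneg fun T _ => ?_)
    split_ifs
    · linarith [oi_le_one d T E p]
    · exact le_rfl

theorem est (hs : SldStmt) (hr : RemStmt) (hh : HypStmt) (hb : BadEstStmt) :
    ∃ C : ℝ, ∀ (r : ℕ) (η C1 Λ δ : ℝ), 1 ≤ r → 0 < η → η ≤ 1 → 1 ≤ C1 → 2 ≤ Λ → 0 < δ →
    ∀ᶠ k : ℕ in atTop, ∀ P : ℕ → Finset ℕ, ∀ᶠ N : ℕ in atTop, ∀ f : ℕ → ℝ, (∀ x, |f x| ≤ 1) →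
    |cenS r (sub (dat η C1 Λ k) P) N f| ≤
      N * ((32 * C1 * √(Real.log Λ + 1) + C * (Real.log Λ + 1) / C1 + δ) * ZV k +
        δ * massS (dat η C1 Λ k)) := by
  obtain ⟨C, -, hb⟩ := hb
  refine ⟨4 * C, fun r η C1 Λ δ h1 hη hη1 hC1 hΛ hδ => ?_⟩
  filter_upwards [hh r η C1 Λ h1 hη hη1 hC1 hΛ, hb η C1 Λ (δ / 8) hη hη1 hC1 hΛ (by positivity),
    Hyp.ev_len r (half_pos hδ)] with k ⟨a1, a2, _, _, a5, a6⟩ a7 a8 P
  have t0 : 0 < tk k := by unfold tk; positivity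
  have z0 : 0 < ZV k := by unfold ZV; positivity
  have m0 := Hyp.massS_nonneg _ (base_sub a1 P).2.2.1
  have m1 := mass_sub a1.2.2.1 P
  have m2 := bad_sub a1.2.2.1 P
  filter_upwards [hs r _ _ _ _ (r * (2 * Real.exp (tk k ^ 4))) (base_sub a1 P) a2
    (fun E hE p hp => by
      rw [mul_assoc]
      exact mul_le_mul_of_nonneg_left (a5 E hE p (sub_Pe _ P E hp)).2.1 (by positivity))
    (by positivity) (δ * ZV k / 4) (by positivity),
    hr r _ (base_sub a1 P) (δ * ZV k / 4) (by positivity)] with N b1 b2 f hf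
  have c1 := b1 f hf
  have c2 := b2 f hf
  have c3 : 32 * (sub (dat η C1 Λ k) P).κ * √(Real.log Λ + 1) *
      Zm (sub (dat η C1 Λ k) P).A (sub (dat η C1 Λ k) P).a ≤
      32 * C1 * √(Real.log Λ + 1) * ZV k := by
    refine (mul_le_mul_of_nonneg_left a6
      (by have := (base_sub a1 P).2.2.2.2.2.1; positivity)).trans (le_of_eq ?_)
    show 32 * (C1 / tk k ^ 4) * _ * _ = _
    field_simp
  have c4 := (mul_le_mul_of_nonneg_right a8 m0).trans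
    (mul_le_mul_of_nonneg_left m1 (half_pos hδ).le)
  have c5 := abs_add_le (cenS r (sub (dat η C1 Λ k) P) N f - cenK r (sub (dat η C1 Λ k) P) N f)
    (cenK r (sub (dat η C1 Λ k) P) N f)
  rw [sub_add_cancel] at c5
  refine (c5.trans (add_le_add c2 c1)).trans ?_
  rw [← mul_add]
  refine mul_le_mul_of_nonneg_left ?_ (Nat.cast_nonneg N)
  rw [mul_assoc 4 C, mul_div_assoc 4]
  linarith

theorem good (hW : WinStmt) {η : ℝ} (h0 : 0 < η) (h1 : η ≤ 1) (z : ℕ) : ∃ y0 : ℝ,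
    ∀ (d : Dat) (Q P0 top : ℝ), d.Pe = PeC η Q P0 top → y0 ≤ P0 → 0 ≤ d.a →
    (∀ q ∈ d.A, q.Prime ∧ top < q) →
    ∃ (E : Finset ℕ) (Pe : ℕ → Finset ℕ) (wt : ℕ → ℝ), Good η (η / 4) z E Pe wt Q ∧
      (∀ e ∈ E, ∀ p : ℕ, p.Prime → p ∣ e → z < p) ∧ mass E Pe wt = massS d ∧
      ∀ P : ℕ → Finset ℕ, (∀ e, P e ⊆ Pe e) → ∀ r N f,
        cen r E P wt N f = cenS r (sub d P) N f := by
  classical
  obtain ⟨y1, hy1⟩ := eventually_atTop.1 (hW η h0 h1)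
  refine ⟨max y1 (max z 3), ?_⟩
  intro d Q P0 top hPe hP ha hA
  have hA' : ∀ q ∈ d.A, q.Prime := fun q hq => (hA q hq).1
  have key : ∀ e ∈ (d.A.powerset.filter fun E => P0 < Q / pd E ∧ 2 * (Q / pd E) ≤ top).image pd,
      1 ≤ e ∧ y1 ≤ Q / e ∧ z ≤ Q / e ∧ 3 ≤ Q / e ∧
      ∀ p : ℕ, p.Prime → p ∣ e → 2 * (Q / e) < p := fun e he => by
    obtain ⟨E, hE, rfl⟩ := mem_image.1 he
    obtain ⟨hE, k1, k2⟩ := mem_filter.1 hE
    rw [mem_powerset] at hE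
    have k3 := hP.trans k1.le
    simp only [max_le_iff] at k3
    refine ⟨pd_pos fun q hq => (hA' q (hE hq)).one_le, k3.1, k3.2.1, k3.2.2, fun p p1 hd => ?_⟩
    obtain ⟨q, hq, hpq⟩ := (Prime.dvd_finsetProd_iff p1.prime _).1 hd
    obtain rfl := (Nat.prime_dvd_prime_iff_eq p1 (hA' q (hE hq))).1 hpq
    exact k2.trans_lt (hA p (hE hq)).2
  refine ⟨(d.A.powerset.filter fun E => P0 < Q / pd E ∧ 2 * (Q / pd E) ≤ top).image pd,
    fun e => win η (Q / e), fun e => d.a ^ e.primeFactors.card, fun e he => ?_,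
    fun e he p p1 p2 => ?_, ?_, fun P hP r N f => ?_⟩
  · obtain ⟨e1, k3, k4, k5, k7⟩ := key e he
    have e0 : (0 : ℝ) < e := by exact_mod_cast e1
    have k6 : ∀ p ∈ win η (Q / e), (p : ℝ) ≤ 2 * (Q / e) := fun p hp =>
      (mem_win.1 hp).2.2.trans (by gcongr; linarith)
    refine ⟨by positivity, e1, ⟨⌊Q / e⌋₊, Nat.le_floor k4, fun p hp => ?_,
      (GoodA.rich h0 k5).trans (hy1 _ k3)⟩, fun p hp => ?_⟩
    · obtain ⟨p1, p2, -⟩ := mem_win.1 hp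
      have a1 := Nat.lt_floor_add_one (Q / e)
      have a2 : 3 ≤ ⌊Q / e⌋₊ := Nat.le_floor (by simpa using k5)
      have a3 : (p : ℝ) < 2 * (⌊Q / e⌋₊ + 1) := by linarith [k6 p hp]
      have a4 : p < 2 * (⌊Q / e⌋₊ + 1) := by exact_mod_cast a3
      exact ⟨p1, (Nat.floor_lt (by linarith)).2 p2, by omega⟩
    · obtain ⟨p1, p2, p3⟩ := mem_win.1 hp
      refine ⟨fun hd => by linarith [k7 p p1 hd, k6 p hp], ?_, ?_⟩
      · rw [div_lt_iff₀ e0] at p2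
        linarith
      · rw [← mul_div_assoc, le_div_iff₀ e0] at p3
        linarith
  · obtain ⟨-, -, k4, k5, k7⟩ := key e he
    have : (z : ℝ) < p := by linarith [k7 p p1 p2]
    exact_mod_cast this
  · rw [massS, hPe]
    exact GoodA.reindex hA' η Q P0 top fun m e p => d.a ^ m / ((e : ℝ) * p)
  · have h := GoodA.reindex hA' η Q P0 top fun m e p => if p ∈ P e then d.a ^ m *
      ∑ n ∈ range N, (if e ∣ n then f n * f (n + r * e * p) * cp p n else 0) else 0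
    rw [cenS]
    simp only [sub, hPe, sum_filter]
    refine Eq.trans (sum_congr rfl fun e _ => ?_) h
    rw [← sum_filter, filter_mem_eq_inter, inter_eq_right.2 (hP e)]
    rfl

end CORES

theorem coreS : CoreS := by
  have hH := hyp cond bm
  obtain ⟨C, hE⟩ := CORES.est (sld (ker (tr pow ind)) (modl ind) per) (rem ind (modl ind) per) hH
    (best (bad cond col) pinTwo pinThree del (sec (expd cond) (tri loc)) nice hH)
  intro r η hr hη hη1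
  obtain ⟨c', hc', hM⟩ := massl (low wn) nice bm η hη hη1
  refine ⟨η / 4, by positivity, fun ε z hε => ?_⟩
  obtain ⟨y0, hG⟩ := CORES.good wn hη hη1 z
  obtain ⟨C1, h1, h2⟩ : ∃ C1 : ℝ, 1 ≤ C1 ∧ 8 * C / (c' * ε) ≤ C1 :=
    ⟨_, le_max_left _ _, le_max_right _ _⟩
  obtain ⟨s, h3, h4⟩ : ∃ s : ℝ, 2 ≤ s ∧ 256 * C1 / (c' * ε) ≤ s :=
    ⟨_, le_max_left _ _, le_max_right _ _⟩
  obtain ⟨δ, h5, h6, h7⟩ : ∃ δ : ℝ, 0 < δ ∧ δ ≤ ε / 4 ∧ δ ≤ c' * ε / 4 :=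
    ⟨_, lt_min (by positivity) (by positivity), min_le_left _ _, min_le_right _ _⟩
  obtain ⟨Λ, hΛ, hl⟩ : ∃ Λ : ℝ, 2 ≤ Λ ∧ Real.log Λ = s ^ 2 - 1 := by
    refine ⟨Real.exp (s ^ 2 - 1), ?_, Real.log_exp _⟩
    have := Real.add_one_le_exp (s ^ 2 - 1)
    nlinarith
  obtain ⟨k, ⟨hk1, hk2⟩, hk3, hk4⟩ := (((hE r η C1 Λ δ hr hη hη1 h1 hΛ h5).and
    (hM C1 Λ hΛ)).and ((hH r η C1 Λ hr hη hη1 h1 hΛ).and (Core.ev_le y0))).exists
  obtain ⟨hB, -, -, hA, -, -⟩ := hk3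
  obtain ⟨E, Pe, wt, g1, g0, g2, g3⟩ := hG (dat η C1 Λ k) _ _ _ rfl hk4 hB.2.2.1
    fun q hq => ⟨hB.1 q hq, hA q hq⟩
  rw [hl] at hk1 hk2
  rw [sub_add_cancel, Real.sqrt_sq (by linarith)] at hk1
  obtain ⟨a1, a2⟩ := Core.arith hc' hε (Core.ZV_pos k) h1 h2 h3 h4 h6 h7 hk2
  refine ⟨E, Pe, wt, _, Real.one_le_exp (by unfold tk; positivity), g1, g0, g2 ▸ a1,
    fun P hP => ?_⟩
  filter_upwards [hk1 P] with N hN f hf
  rw [g2, g3 P hP, mul_comm]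
  exact (hN f hf).trans (mul_le_mul_of_nonneg_left a2 (Nat.cast_nonneg N))

end Pool.Agent.MP_39eeea_nt.H96
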