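import Pool.Agent.MP_39eeea_nt.H96.Spec
import Pool.Agent.MP_ca0a54_nt.SC.IRR

/-! Short sums of a stable family with an irrational additive twist. -/

open Complex Filter Finset

namespace Pool.Agent.MP_39eeea_nt.H96

open Pool.Agent.MP_ca0a54_nt Pool.Agent.MP_ca0a54_nt.SC
open Pool.Agent.MP_ca0a54_nt.BH (ei rcp om om_eq norm_ei)
open Pool.Agent.MP_ca0a54_nt.SC.IRR (ell tkL cut LS_abs LS_sq A A_nonneg bil)

namespace IRRF

/-- The twisted function. -/
noncomputable def tv (g : ℕ → ℝ) (α : ℝ) (n : ℕ) : ℂ := g n * ei (2 * Real.pi * α * n)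

lemma norm_tv {g : ℕ → ℝ} (hg : ∀ n, |g n| ≤ 1) (α : ℝ) (n : ℕ) : ‖tv g α n‖ ≤ 1 := by
  rw [tv, norm_mul, norm_ei, mul_one, norm_real, Real.norm_eq_abs]
  exact hg n

/-- A large set of primes with one sign. -/
lemma sign {g : ℕ → ℕ → ℝ} (hs : Stab g) (R : ℝ) : ∃ (B : Finset ℕ) (s : ℝ),
    (∀ p ∈ B, p.Prime) ∧ R ≤ rcp B ∧ |s| = 1 ∧
    ∀ᶠ X : ℕ in atTop, ∀ p ∈ B, ∀ m, g X (p * m) = s * g X m := by
  classical
  obtain ⟨B, hB, hR⟩ := SC.IRR.big (2 * R)
  set P : ℕ → Prop := fun p => ∀ᶠ X : ℕ in atTop, ∀ m, g X (p * m) = 1 * g X m with hP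
  have e : rcp (B.filter P) + rcp (B.filter fun p => ¬ P p) = rcp B :=
    sum_filter_add_sum_filter_not _ _ _
  rcases le_or_gt R (rcp (B.filter P)) with h | h
  · exact ⟨B.filter P, 1, fun p hp => hB p (mem_filter.1 hp).1, h, abs_one,
      (eventually_all_finset _).2 fun p hp => (mem_filter.1 hp).2⟩
  · refine ⟨B.filter fun p => ¬ P p, -1, fun p hp => hB p (mem_filter.1 hp).1, by linarith,
      by simp, (eventually_all_finset _).2 fun p hp => ?_⟩
    obtain ⟨h1, h2⟩ := mem_filter.1 hp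
    obtain ⟨s, rfl | rfl, h3⟩ := hs p (hB p h1).one_le
    · exact absurd h3 h2
    · exact h3

/-- The criterion of Katai with a slowly varying weight. -/
lemma kat {α : ℝ} (hα : Irrational α) {η : ℝ} (hη : 0 < η) {B : Finset ℕ}
    (hB : ∀ p ∈ B, p.Prime) (hR : 1 + 5 * η⁻¹ ^ 2 ≤ rcp B) : ∃ D C : ℝ, 0 < D ∧
    ∀ g g' : ℕ → ℝ, (∀ n, |g n| ≤ 1) → (∀ n, |g' n| ≤ 1) → (∀ p ∈ B, ∀ m, g (p * m) = g' m) →
    ∀ θ : ℕ → ℂ, (∀ n, ‖θ n‖ ≤ 1) → (∀ n, ‖θ (n + 1) - θ n‖ ≤ D) → ∀ N : ℕ,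
      ‖LC N fun n => tv g α n * θ n‖ ≤ 5 * η * (1 + lg N) + C := by
  have L1 : 1 ≤ rcp B := le_trans (le_add_of_nonneg_right (by positivity)) hR
  have L0 : 0 < rcp B := by linarith
  have A0 := A_nonneg α B
  set L := rcp B with hL
  have k1 : η⁻¹ * (5 / L) ≤ η := by
    rw [← mul_div_assoc, div_le_iff₀ L0]
    have := mul_le_mul_of_nonneg_left hR hη.le
    rw [show η * (1 + 5 * η⁻¹ ^ 2) = η + η⁻¹ * 5 by field_simp] at this
    linarith
  refine ⟨(A α B + 1)⁻¹, η⁻¹ * (2 * B.card / L) +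
    η⁻¹ * (3 * A α B), by positivity, fun g g' hg hg' hs θ h1 h2 N => ?_⟩
  have hl := ell N
  have f1 : ∀ n, ‖tv g α n * θ n‖ ≤ 1 := fun n => by
    rw [norm_mul]
    exact mul_le_one₀ (norm_tv hg α n) (norm_nonneg _) (h1 n)
  set Y : ℕ → ℂ := fun m => ∑ p ∈ B, if m ≤ N / p then
    ei (2 * Real.pi * α * (p * m : ℕ)) * θ (p * m) else 0 with hY
  have e : (LC N fun n => tv g α n * θ n) = (L : ℂ)⁻¹ * (LC N fun m => g' m * Y m) -
      LC N fun n => (om B n / L - 1 : ℝ) * (tv g α n * θ n) := by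
    have e1 : (LC N fun m => g' m * Y m) =
        ∑ p ∈ B, LC N fun n => if p ∣ n then tv g α n * θ n else 0 := by
      simp only [hY, mul_sum, LC_sum]
      refine sum_congr rfl fun p hp => ?_
      simp only [mul_ite, mul_zero]
      rw [cut _ (Nat.div_le_self _ _), LC, LC, sum_dvd _ _ (hB p hp).one_le]
      refine sum_congr rfl fun m _ => ?_
      rw [tv, hs p hp, ← mul_assoc]
    rw [e1, ← LC_sum, ← LC_mul, ← LC_sub]
    congr 1
    funext n
    rw [om_eq]
    push_cast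
    rw [div_eq_inv_mul, sub_mul, mul_assoc, sum_mul, one_mul, eq_comm, sub_sub_eq_add_sub,
      sub_eq_iff_eq_add, add_comm, add_right_inj]
    congr 1
    exact sum_congr rfl fun p _ => by split_ifs <;> simp
  have t1 : ‖LC N fun n => (om B n / L - 1 : ℝ) * (tv g α n * θ n)‖ ≤ 2 * η * (1 + lg N) +
      η⁻¹ * (2 * B.card / L) := by
    have a1 := (norm_LC_le N fun n => (om B n / L - 1 : ℝ) * (tv g α n * θ n)).trans
      (LS_mono (g := fun n => |om B n / L - 1|) fun n _ _ => by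
        rw [norm_mul, norm_real, Real.norm_eq_abs]
        exact mul_le_of_le_one_right (abs_nonneg _) (f1 n))
    have a2 := LS_abs hη N fun n => |om B n / L - 1|
    simp only [sq_abs] at a2
    have a3 := mul_le_mul_of_nonneg_left (tkL hB L0 N) (inv_pos.2 hη).le
    have a4 := mul_le_mul_of_nonneg_right k1 hl
    rw [mul_add, ← hL, mul_div_right_comm 5, ← mul_assoc] at a3
    linarith
  have t3 : ‖LC N fun m => g' m * Y m‖ ≤
      L * (2 * η * (1 + lg N) + η⁻¹ * (3 * A α B)) := by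
    have a1 := (norm_LC_le N fun m => g' m * Y m).trans
      (LS_mono (g := fun n => ‖Y n‖) fun n _ _ => by
        rw [norm_mul, norm_real, Real.norm_eq_abs]
        exact mul_le_of_le_one_left (norm_nonneg _) (hg' n))
    have a2 := LS_abs (mul_pos hη L0) N fun n => ‖Y n‖
    have a3 := bil hα hB h1 h2 N
    have a4 : A α B * (A α B + 1)⁻¹ ≤ L :=
      le_trans ((mul_inv_le_iff₀ (by positivity)).2 (by linarith)) L1
    have a5 : LS N (fun n => ‖Y n‖ ^ 2) ≤ 2 * L * (1 + lg N) + 3 * A α B := by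
      have := mul_le_mul_of_nonneg_right a4 hl
      rw [← hL] at a3
      linarith
    have a6 := mul_le_mul_of_nonneg_left a5 (inv_pos.2 (mul_pos hη L0)).le
    have a7 : (η * L)⁻¹ * (2 * L) ≤ η * L := by
      have := mul_le_mul_of_nonneg_right k1 L0.le
      rw [show η⁻¹ * (5 / L) * L = η⁻¹ * 5 by field_simp] at this
      rw [show (η * L)⁻¹ * (2 * L) = η⁻¹ * 2 by field_simp]
      linarith [inv_pos.2 hη]
    have a8 : (η * L)⁻¹ ≤ L * η⁻¹ := by
      rw [mul_inv, mul_comm]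
      exact mul_le_mul_of_nonneg_right ((inv_le_one_of_one_le₀ L1).trans L1) (inv_pos.2 hη).le
    have a9 := mul_le_mul_of_nonneg_right a7 hl
    have a10 := mul_le_mul_of_nonneg_right a8 A0
    nlinarith
  rw [e]
  refine (norm_sub_le _ _).trans ?_
  rw [norm_mul, norm_inv, norm_real, Real.norm_of_nonneg L0.le]
  have t4 : L⁻¹ * _ ≤ 2 * η * (1 + lg N) + η⁻¹ * (3 * A α B) := (inv_mul_le_iff₀ L0).2 t3
  nlinarith

end IRRF

open IRRF in
theorem irrF : IrrStmt := by
  intro g hg hs α hα ε hε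
  obtain ⟨B, s, hB, hR, s1, hsB⟩ := sign hs (1 + 5 * (ε / 6)⁻¹ ^ 2)
  obtain ⟨D, C, hD, h⟩ := kat hα (η := ε / 6) (by positivity) hB hR
  filter_upwards [eventually_ge_atTop 1, (tendsto_natCast_atTop_atTop (R := ℝ)).eventually_ge_atTop
    (2 / D)] with K K1 K2
  filter_upwards [(tendsto_lg.comp tendsto_snd_Lf).eventually_ge_atTop
    (5 + 6 / ε * (C + 3 * K)), tendsto_fst_Lf.eventually hsB] with ⟨X, N⟩ hN hX
  change 5 + 6 / ε * (C + 3 * K) ≤ lg N at hN
  change LS N (fun n => ‖∑ j ∈ range K, tv (g X) α (n + j)‖ ^ 2) ≤ ε * K ^ 2 * lg N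
  have K0 : (0 : ℝ) < K := by exact_mod_cast K1
  set S : ℕ → ℂ := fun n => ∑ j ∈ range K, tv (g X) α (n + j) with hS
  have S1 : ∀ n, ‖S n‖ ≤ K := fun n =>
    (norm_sum_le _ _).trans
      ((sum_le_card_nsmul _ _ 1 fun j _ => norm_tv (hg X) α _).trans_eq (by simp))
  have S2 : ∀ n, ‖S (n + 1) - S n‖ ≤ 2 := fun n => by
    have e : S (n + 1) - S n = tv (g X) α (n + K) - tv (g X) α (n + 0) := by
      rw [← sum_range_sub fun j => tv (g X) α (n + j), ← sum_sub_distrib]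
      exact sum_congr rfl fun j _ => by rw [add_right_comm, add_assoc]
    rw [e]
    exact (norm_sub_le _ _).trans
      (by linarith [norm_tv (hg X) α (n + K), norm_tv (hg X) α (n + 0)])
  have nK : ‖((K : ℂ) ^ 2)⁻¹‖ = ((K : ℝ) ^ 2)⁻¹ := by simp
  have h1 := h (g X) (fun m => s * g X m) (hg X)
    (fun m => by rw [abs_mul, s1, one_mul]; exact hg X m) hX
    (fun n => ((K : ℂ) ^ 2)⁻¹ * ∑ j ∈ range K, (starRingEnd ℂ) (S (n - j)))
    (fun n => by
      rw [norm_mul, nK, inv_mul_le_iff₀ (by positivity)]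
      exact (norm_sum_le _ _).trans ((sum_le_card_nsmul _ _ (K : ℝ) fun j _ =>
        (norm_conj _).trans_le (S1 _)).trans_eq (by simp [sq])))
    (fun n => by
      rw [← mul_sub, norm_mul, nK, inv_mul_le_iff₀ (by positivity), ← sum_sub_distrib]
      refine (norm_sum_le _ _).trans ((sum_le_card_nsmul _ _ 2 fun j _ => ?_).trans ?_)
      · rw [← map_sub, norm_conj]
        by_cases hj : j ≤ n
        · rw [Nat.sub_add_comm hj]
          exact S2 _
        · rw [show n + 1 - j = n - j by omega]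
          simp
      · rw [div_le_iff₀ hD] at K2
        rw [card_range, nsmul_eq_mul]
        nlinarith) N
  simp only [mul_left_comm (tv (g X) α _), LC_mul, mul_sum, LC_sum] at h1
  rw [← mul_sum, norm_mul, nK, inv_mul_le_iff₀ (by positivity)] at h1
  have h2 : ‖(LC N fun n => S n * (starRingEnd ℂ) (S n)) -
      ∑ j ∈ range K, LC N fun n => tv (g X) α n * (starRingEnd ℂ) (S (n - j))‖ ≤
      K * (3 * K * K) := by
    conv_lhs => enter [1, 1, 2, n]; rw [hS, sum_mul, ← hS]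
    rw [LC_sum, ← sum_sub_distrib]
    refine (norm_sum_le _ _).trans ((sum_le_card_nsmul _ _ (3 * K * K : ℝ) fun j hj => ?_).trans_eq
      (by simp))
    have a1 := LC_shift (f := fun n => tv (g X) α n * (starRingEnd ℂ) (S (n - j))) (B := K) (fun n => by
      rw [norm_mul, norm_conj]
      exact (mul_le_of_le_one_left (norm_nonneg _) (norm_tv (hg X) α n)).trans (S1 _)) N j
    simp only [Nat.add_sub_cancel] at a1
    refine a1.trans ?_
    have : (j : ℝ) ≤ K := by exact_mod_cast (mem_range.1 hj).le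
    gcongr
  refine (LS_sq N S).trans (((norm_le_insert' _ _).trans (add_le_add h1 h2)).trans ?_)
  have h3 : C + 3 * K ≤ ε / 6 * (lg N - 5) := by
    rw [← div_le_iff₀' (by positivity), div_eq_inv_mul, inv_div]
    exact le_sub_iff_add_le'.2 hN
  nlinarith [mul_le_mul_of_nonneg_left h3 (sq_nonneg (K : ℝ))]

end Pool.Agent.MP_39eeea_nt.H96
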