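import Pool.Agent.MP_39eeea_nt.H96.Spec

/-! The last step: from the correlations to the counting statements. -/

open Filter Finset

namespace Pool.Agent.MP_39eeea_nt.H96

open Pool.Agent.MP_ca0a54_nt Pool.Agent.MP_ca0a54_nt.SC
open Pool.Agent.MP_ca0a54_nt.BH (lam)

namespace LAST

/-- The mean of `F X` over a residue class tends to `c`. -/
def Av (q a : ℕ) (F : ℕ → ℕ → ℝ) (c : ℝ) : Prop :=
  Tendsto (fun X : ℕ => LS X (fun n => if n ≡ a [MOD q] then F X n else 0) / X) atTop (nhds c)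

variable {q a : ℕ} {F G : ℕ → ℕ → ℝ} {c d : ℝ}

theorem Av.add (h : Av q a F c) (h' : Av q a G d) :
    Av q a (fun X n => F X n + G X n) (c + d) := by
  refine (Tendsto.add h h').congr fun X => ?_
  rw [← add_div, ← LS_add]
  congr 2
  funext n
  split_ifs <;> simp

theorem Av.mul (t : ℝ) (h : Av q a F c) : Av q a (fun X n => t * F X n) (t * c) := by
  refine (Tendsto.const_mul t h).congr fun X => ?_
  rw [← mul_div_assoc, ← LS_mul]
  congr 2
  funext n
  split_ifs <;> simp

theorem Av.one (hq : 0 < q) (a : ℕ) : Av q a (fun _ _ => 1) (1 / q) := by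
  have hq' : (0 : ℝ) < q := Nat.cast_pos.2 hq
  have key : ∀ X : ℕ, |LS X (fun n => if n ≡ a [MOD q] then 1 else 0) - X / q| ≤ 1 := by
    intro X
    have h1 := Nat.Ioc_filter_modEq_card 0 X hq a
    have hq2 : (0 : ℚ) < q := Nat.cast_pos.2 hq
    rw [max_eq_left (sub_nonneg.2 (by gcongr; exact Nat.zero_le X))] at h1
    have h2 : (#{x ∈ Ioc 0 X | x ≡ a [MOD q]} : ℚ) =
        (⌊((X : ℚ) - a) / q⌋ : ℚ) - ⌊(((0 : ℕ) : ℚ) - a) / q⌋ := by exact_mod_cast h1
    have h3 : |(#{x ∈ Ioc 0 X | x ≡ a [MOD q]} : ℚ) - X / q| ≤ 1 := by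
      have a1 := Int.floor_le (((X : ℚ) - a) / q)
      have a2 := Int.lt_floor_add_one (((X : ℚ) - a) / q)
      have a3 := Int.floor_le ((((0 : ℕ) : ℚ) - a) / q)
      have a4 := Int.lt_floor_add_one ((((0 : ℕ) : ℚ) - a) / q)
      have a5 : ((X : ℚ) - a) / q = X / q + (((0 : ℕ) : ℚ) - a) / q := by
        push_cast
        ring
      rw [h2, abs_le]
      constructor <;> linarith
    rw [LS, sum_boole]
    have h4 := (Rat.cast_le (K := ℝ)).2 h3
    push_cast at h4
    exact h4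
  refine tendsto_sub_nhds_zero_iff.1 (squeeze_zero_norm' ?_ tendsto_one_div_atTop_nhds_zero_nat)
  filter_upwards [eventually_gt_atTop 0] with X hX
  have hX' : (0 : ℝ) < X := Nat.cast_pos.2 hX
  have e : ∀ y : ℝ, y / X - 1 / q = (y - X / q) / X := fun y => by field_simp
  rw [e, Real.norm_eq_abs, abs_div, abs_of_pos hX']
  exact div_le_div_of_nonneg_right (key X) hX'.le

theorem Av.of (h : ∀ ε : ℝ, 0 < ε → ∀ᶠ i in Lf,
    |LS i.2 fun m => if m ≡ 2 * a [MOD 2 * q] then G i.1 m else 0| ≤ ε * lg i.2) :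
    Av q a (fun X n => G X (2 * n)) 0 := by
  have key : ∀ X, LS (2 * X) (fun m => if m ≡ 2 * a [MOD 2 * q] then G X m else 0) =
      LS X fun n => if n ≡ a [MOD q] then G X (2 * n) else 0 := by
    intro X
    have h1 := sum_dvd (fun m => if m ≡ 2 * a [MOD 2 * q] then G X m else 0) (2 * X) one_le_two
    rw [Nat.mul_div_cancel_left X two_pos] at h1
    refine Eq.trans (sum_congr rfl fun m _ => ?_) (h1.trans (sum_congr rfl fun n _ => ?_))
    · by_cases e : 2 ∣ m
      · rw [if_pos e]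
      · rw [if_neg e]
        exact if_neg fun e' => e ((Nat.ModEq.dvd_iff e' (dvd_mul_right 2 q)).2 (dvd_mul_right 2 a))
    · simp only [Nat.ModEq.mul_left_cancel_iff' two_ne_zero]
  refine Metric.tendsto_nhds.2 fun ε hε => ?_
  filter_upwards [(tendsto_diag 2 one_le_two).eventually (h (ε / 4) (by positivity)),
    eventually_gt_atTop 0] with X h1 hX
  have hX' : (0 : ℝ) < X := Nat.cast_pos.2 hX
  simp only [key, lg, Nat.cast_mul, Nat.cast_ofNat] at h1
  rw [Real.dist_0_eq_abs, abs_div, abs_of_pos hX', div_lt_iff₀ hX']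
  nlinarith

theorem one {g : ℕ → ℕ → ℝ} (h : OneF g) (hq : 0 < q) (a r : ℕ) :
    Av q a (fun X n => g X (2 * n + r)) 0 :=
  Av.of (G := fun X m => g X (m + r)) fun ε hε => h _ _ r ε (by positivity) hε

theorem two {f g : ℕ → ℕ → ℝ} (h : TwoF f g) (hq : 0 < q) (a : ℕ) :
    Av q a (fun X n => f X (2 * n) * g X (2 * n + 1)) 0 :=
  Av.of (G := fun X m => f X m * g X (m + 1)) fun ε hε => h _ _ 1 ε (by positivity) le_rfl hε

theorem Av.fin {P : ℕ → ℕ → Prop} [∀ X n, Decidable (n ≡ a [MOD q] ∧ P X n)] (h : Av q a F c)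
    (e : ∀ᶠ X in atTop, ∀ n, 1 ≤ n → (P X n → F X n = 1) ∧ (¬ P X n → F X n = 0)) :
    Tendsto (fun X : ℕ => (((Icc 1 X).filter fun n => n ≡ a [MOD q] ∧ P X n).card : ℝ) / X) atTop
      (nhds c) := by
  refine Tendsto.congr' (e.mono fun X hX => ?_) h
  congr 1
  rw [← sum_boole, LS]
  refine sum_congr rfl fun n hn => ?_
  have h1 := hX n (mem_Icc.1 hn).1
  by_cases e1 : n ≡ a [MOD q]
  · by_cases e2 : P X n
    · rw [if_pos e1, if_pos ⟨e1, e2⟩, h1.1 e2]
    · rw [if_pos e1, if_neg fun e => e2 e.2, h1.2 e2]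
  · rw [if_neg e1, if_neg fun e => e1 e.1]

theorem par {n : ℕ} (hn : 1 ≤ n) (u : ℕ) :
    (ArithmeticFunction.cardFactors n ≡ u [MOD 2] → (-1) ^ u * lam n = 1) ∧
    (¬ ArithmeticFunction.cardFactors n ≡ u [MOD 2] → (-1) ^ u * lam n = -1) := by
  have e : (-1) ^ u * lam n = (-1) ^ (u + ArithmeticFunction.cardFactors n) := by
    rw [lam, ArithmeticFunction.liouville_apply (by omega), pow_add]
    push_cast
    rfl
  rw [e, Nat.ModEq]
  exact ⟨fun h => Even.neg_one_pow (Nat.even_iff.2 (by omega)),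
    fun h => Odd.neg_one_pow (Nat.odd_iff.2 (by omega))⟩

theorem lam_two (n : ℕ) : lam (2 * n) = -lam n := by
  rw [BH.lam_mul, lam, ArithmeticFunction.liouville_apply two_ne_zero,
    ArithmeticFunction.cardFactors_apply_prime Nat.prime_two]
  simp

end LAST

open LAST in
theorem last : LastStmt := by
  intro hl hL hC q a u v α β hq a1 a2 b1 b2
  constructor
  · have h := (((Av.one hq a).add ((one hl.1 hq a 0).mul (-(-1) ^ u))).add
      (((one hl.1 hq a 1).mul ((-1) ^ v)).add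
        ((two (hl.2 _ bd_lam stab_lam) hq a).mul (-(-1) ^ u * (-1) ^ v)))).mul (1 / 4)
    convert h.fin (Eventually.of_forall fun X n hn => ?_) using 2
    · field_simp
      ring
    have p1 := par hn u
    have p2 := par (n := 2 * n + 1) (by omega) v
    simp only [add_zero, lam_two]
    have e : ∀ s t x y : ℝ, 1 / 4 * (1 + -s * -x + (t * y + -s * t * (-x * y))) =
        (1 + s * x) * (1 + t * y) / 4 := fun s t x y => by ring
    rw [e]
    refine ⟨fun h => by rw [p1.1 h.1, p2.1 h.2]; norm_num, fun h => ?_⟩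
    rcases not_and_or.1 h with h | h
    · rw [p1.2 h]
      ring
    · rw [p2.2 h]
      ring
  · have a0 : 0 < α := by linarith
    have h1 := ((two ((hC β b1 b2).2 _ (bd_Bf α) (stab_Bf a0)) hq a).add
      ((one (hC α a1 a2).1 hq a 0).mul (Real.log (1 / β)))).add
      ((Av.one hq a).mul (Real.log (1 / α) * Real.log (1 / β)))
    have h2 := (two ((hC β b1 b2).2 _ (bd_Bl α) (stab_Bl a0)) hq a).add
      ((one (hL α a1 a2).1 hq a 0).mul (Real.log (1 / β)))
    have h3 := two ((hL β b1 b2).2 _ (bd_Bf α) (stab_Bf a0)) hq a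
    have h4 := two ((hL β b1 b2).2 _ (bd_Bl α) (stab_Bl a0)) hq a
    have h := ((h1.add (h2.mul (-(-1) ^ u))).add
      ((h3.mul ((-1) ^ v)).add (h4.mul (-(-1) ^ u * (-1) ^ v)))).mul (1 / 4)
    convert h.fin ((ev_pow a0 (2 : ℕ)).mono fun X hX n hn => ?_) using 2
    · field_simp
      ring
    have p1 := par hn u
    have p2 := par (n := 2 * n + 1) (by omega) v
    simp only [add_zero, Bc, Bl, Bf, lam_two, big_mul one_le_two hX]
    have e : ∀ s t x y A B a' b' : ℝ,
        1 / 4 * (A * (B - b') + b' * (A - a') + a' * b' * 1 +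
          -s * (-x * A * (B - b') + b' * (-x * A)) +
          (t * (A * (y * B)) + -s * t * (-x * A * (y * B)))) =
        (1 + s * x) * (1 + t * y) * A * B / 4 := fun s t x y A B a' b' => by ring
    rw [e]
    refine ⟨fun h => by
      rw [p1.1 h.1, p2.1 h.2.1, big, big, if_pos h.2.2.1, if_pos h.2.2.2]; norm_num, fun h => ?_⟩
    rcases not_and_or.1 h with h | h
    · rw [p1.2 h]
      ring
    rcases not_and_or.1 h with h | h
    · rw [p2.2 h]
      ring
    rcases not_and_or.1 h with h | h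
    · rw [big, if_neg h]
      ring
    · rw [big.eq_1 _ (2 * n + 1), if_neg h]
      ring

end Pool.Agent.MP_39eeea_nt.H96
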