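import Pool.Agent.MP_39eeea_nt.H96.Spec

/-! The mean of the centred family over a residue class. -/

open Filter Finset

namespace Pool.Agent.MP_39eeea_nt.H96

open Pool.Agent.MP_ca0a54_nt Pool.Agent.MP_ca0a54_nt.SC
open Pool.Agent.MP_ca0a54_nt.H78M (pr)

namespace MEAN

theorem cnt (z v : ℕ) {d : ℕ} (hd : 0 < d) :
    |(∑ m ∈ Ioc 0 z, if m ≡ v [MOD d] then (1 : ℝ) else 0) - z / d| ≤ 1 := by
  rw [sum_boole]
  have h := Nat.Ioc_filter_modEq_card 0 z hd v
  have hd' : (0 : ℚ) < d := by exact_mod_cast hd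
  have a1 := Int.floor_le (((z : ℚ) - v) / d)
  have a2 := Int.lt_floor_add_one (((z : ℚ) - v) / d)
  have a3 := Int.floor_le ((((0 : ℕ) : ℚ) - v) / d)
  have a4 := Int.lt_floor_add_one ((((0 : ℕ) : ℚ) - v) / d)
  have e : ((z : ℚ) - v) / d = (((0 : ℕ) : ℚ) - v) / d + z / d := by push_cast; ring
  have hz : (0 : ℚ) ≤ z / d := by positivity
  rw [max_eq_left (sub_nonneg.2 (Int.floor_mono (by linarith)))] at h
  have h2 : ((#({x ∈ Ioc 0 z | x ≡ v [MOD d]}) : ℕ) : ℚ) =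
      (⌊((z : ℚ) - v) / d⌋ : ℚ) - (⌊(((0 : ℕ) : ℚ) - v) / d⌋ : ℚ) := by exact_mod_cast h
  have h3 : |((#({x ∈ Ioc 0 z | x ≡ v [MOD d]}) : ℕ) : ℚ) - z / d| ≤ 1 := by
    rw [h2, abs_le]
    constructor <;> linarith
  have h4 := (Rat.cast_le (K := ℝ)).2 h3
  push_cast at h4
  exact h4

theorem cnt2 (z u : ℕ) {q p : ℕ} (hq : 0 < q) (hp : p.Prime) (hqp : q < p) :
    |(∑ m ∈ Ioc 0 z, if m ≡ u [MOD q] then (if p ∣ m then (1 : ℝ) else 0) else 0) -
      z / q * (p : ℝ)⁻¹| ≤ 1 := by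
  have co : Nat.Coprime q p := (Nat.coprime_of_lt_prime hq.ne' hqp hp).symm
  obtain ⟨v, h1, h2⟩ := Nat.chineseRemainder co u 0
  have := cnt z v (Nat.mul_pos hq hp.pos)
  convert this using 3
  · refine sum_congr rfl fun m _ => ?_
    simp only [← ite_and, ← Nat.modEq_and_modEq_iff_modEq_mul co, ← Nat.modEq_zero_iff_dvd]
    exact if_congr ⟨fun h => ⟨h.1.trans h1.symm, h.2.trans h2.symm⟩,
      fun h => ⟨h.1.trans h1, h.2.trans h2⟩⟩ rfl rfl
  · push_cast
    rw [div_mul_eq_div_div, div_eq_mul_inv (_ / _)]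

theorem mem_pr {y : ℝ} (hy : 0 < y) {z p : ℕ} (hz : 0 < z) :
    p ∈ pr (Real.log y) (Real.log z) ↔ p.Prime ∧ y < p ∧ p ≤ z := by
  rw [pr, Real.exp_log (by exact_mod_cast hz), Nat.floor_natCast, mem_filter, mem_Icc]
  constructor
  · rintro ⟨⟨-, h1⟩, h2, h3⟩
    exact ⟨h2, (Real.log_lt_log_iff hy (by exact_mod_cast h2.pos)).1 h3, h1⟩
  · rintro ⟨h1, h2, h3⟩
    exact ⟨⟨h1.pos, h3⟩, h1, Real.log_lt_log hy h2⟩

theorem big_eq {y : ℝ} (hy : 0 < y) {z m : ℕ} (hz : (z : ℝ) ≤ y ^ 2) (hm : m ∈ Ioc 0 z) :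
    big y m = ∑ p ∈ pr (Real.log y) (Real.log z), if p ∣ m then (1 : ℝ) else 0 := by
  obtain ⟨m0, m1⟩ := mem_Ioc.1 hm
  have z0 : 0 < z := m0.trans_le m1
  unfold big
  split_ifs with h
  · obtain ⟨p, h1, h2, h3⟩ := h
    rw [sum_eq_single_of_mem p ((mem_pr hy z0).2 ⟨h1, h3, (Nat.le_of_dvd m0 h2).trans m1⟩),
      if_pos h2]
    intro p' hp' hne
    obtain ⟨g1, g2, -⟩ := (mem_pr hy z0).1 hp'
    refine if_neg fun g3 => ?_
    have g4 := (Nat.le_of_dvd m0 (((Nat.coprime_primes g1 h1).2 hne).mul_dvd_of_dvd_of_dvd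
      g3 h2)).trans m1
    have g5 : (p' : ℝ) * p ≤ z := by exact_mod_cast g4
    nlinarith
  · refine (sum_eq_zero fun p hp => if_neg fun g => h ?_).symm
    obtain ⟨g1, g2, -⟩ := (mem_pr hy z0).1 hp
    exact ⟨p, g1, g, g2⟩

theorem card_le {y w : ℝ} (hy : 0 < y) (hw : 0 < w) {z : ℕ} (hz : 0 < z) :
    (#(pr (Real.log y) (Real.log z)) : ℝ) ≤
      w + z * ∑ p ∈ pr (Real.log w) (Real.log z), (p : ℝ)⁻¹ := by
  have h1 : pr (Real.log y) (Real.log z) ⊆ Ioc 0 ⌊w⌋₊ ∪ pr (Real.log w) (Real.log z) := by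
    intro p hp
    obtain ⟨g1, -, g3⟩ := (mem_pr hy hz).1 hp
    rw [mem_union, mem_pr hw hz, mem_Ioc]
    rcases lt_or_ge w p with g | g
    · exact Or.inr ⟨g1, g, g3⟩
    · exact Or.inl ⟨g1.pos, Nat.le_floor g⟩
  have h2 := (card_le_card h1).trans (card_union_le _ _)
  rw [Nat.card_Ioc, Nat.sub_zero] at h2
  have h3 : (#(pr (Real.log w) (Real.log z)) : ℝ) ≤
      z * ∑ p ∈ pr (Real.log w) (Real.log z), (p : ℝ)⁻¹ := by
    rw [mul_sum, card_eq_sum_ones, Nat.cast_sum]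
    refine sum_le_sum fun p hp => ?_
    obtain ⟨g1, -, g3⟩ := (mem_pr hw hz).1 hp
    rw [Nat.cast_one, ← div_eq_mul_inv, one_le_div (by exact_mod_cast g1.pos)]
    exact_mod_cast g3
  have h4 : (#(pr (Real.log y) (Real.log z)) : ℝ) ≤
    (⌊w⌋₊ : ℝ) + (#(pr (Real.log w) (Real.log z)) : ℝ) := by exact_mod_cast h2
  linarith [Nat.floor_le hw.le]

theorem ev_log {δ η : ℝ} (K : ℝ) (hδ : 0 < δ) (hη : 0 < η) : ∀ᶠ X : ℕ in atTop, ∀ w : ℝ,
    δ * X ≤ w → w ≤ K * X → |Real.log (Real.log w / Real.log X)| ≤ η := by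
  obtain ⟨ρ, hρ, h⟩ := Metric.continuousAt_iff.1 (Real.continuousAt_log one_ne_zero) η hη
  filter_upwards [(Real.tendsto_log_atTop.comp tendsto_natCast_atTop_atTop).eventually_gt_atTop
    ((|Real.log δ| + |Real.log K|) / ρ), eventually_gt_atTop 1] with X h1 h2 w w1 w2
  have x1 : (1 : ℝ) < X := by exact_mod_cast h2
  have l0 := Real.log_pos x1
  have w0 : 0 < δ * X := by positivity
  have K0 : 0 < K := (pos_iff_pos_of_mul_pos ((w0.trans_le w1).trans_le w2)).2 (by linarith)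
  have a1 := Real.log_le_log w0 w1
  have a2 := Real.log_le_log (w0.trans_le w1) w2
  rw [Real.log_mul hδ.ne' (by positivity)] at a1
  rw [Real.log_mul K0.ne' (by positivity)] at a2
  rw [Function.comp, div_lt_iff₀ hρ] at h1
  have := h (x := Real.log w / Real.log X) (by
    rw [Real.dist_eq, div_sub_one l0.ne', abs_div, abs_of_pos l0, div_lt_iff₀ l0, abs_lt]
    constructor <;> linarith [abs_nonneg (Real.log δ), abs_nonneg (Real.log K),
      neg_abs_le (Real.log δ), le_abs_self (Real.log K)])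
  simpa [Real.dist_eq] using this.le

end MEAN

open MEAN in
theorem mean (mer : H78M.MerStmt) : MeanStmt := by
  intro β b1 b2 q u K ε hq hε
  obtain ⟨C, C0, mer, -⟩ := mer
  have β0 : 0 < β := by linarith
  obtain ⟨δ, hδ⟩ : ∃ δ, δ = ε / 4 := ⟨_, rfl⟩
  obtain ⟨η, hη⟩ : ∃ η, η = ε / (10 * (K + 1)) := ⟨_, rfl⟩
  have δ0 : 0 < δ := by rw [hδ]; positivity
  have η0 : 0 < η := by rw [hη]; positivity
  have ηK : K * η ≤ ε / 10 := by
    rw [hη, mul_div_assoc', div_le_div_iff₀ (by positivity) (by positivity)]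
    nlinarith
  have tX : Tendsto (fun X : ℕ => (X : ℝ)) atTop atTop := tendsto_natCast_atTop_atTop
  have t1 := Real.tendsto_log_atTop.comp ((tendsto_rpow_atTop β0).comp tX)
  have t2 := Real.tendsto_log_atTop.comp (tX.const_mul_atTop δ0)
  filter_upwards [ev_log K δ0 η0, t1.eventually_ge_atTop (C / η + 1),
    t2.eventually_ge_atTop (C / η + 1), ev_pow β0 q, ev_pow (show 0 < 2 * β - 1 by linarith) K,
    ev_pow (show 0 < 1 - β by linarith) δ⁻¹, eventually_gt_atTop 1,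
    (tX.const_mul_atTop δ0).eventually_ge_atTop 1] with X h1 h2 h3 h4 h5 h6 h7 h8 z hz
  have x1 : (1 : ℝ) < X := by exact_mod_cast h7
  have x0 : (0 : ℝ) < X := by linarith
  have zK : (z : ℝ) ≤ K * X := by exact_mod_cast hz
  rcases le_or_gt (z : ℝ) (δ * X) with hs | hs
  · refine (abs_sum_le_sum_abs _ _).trans ((sum_le_card_nsmul _ _ 1 fun m _ => ?_).trans ?_)
    · split_ifs
      · exact bd_Bc b1 b2 X m
      · simp
    · simp only [Nat.card_Ioc, Nat.sub_zero, nsmul_eq_mul, mul_one]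
      nlinarith
  obtain ⟨y, hy⟩ : ∃ y, y = (X : ℝ) ^ β := ⟨_, rfl⟩
  simp only [Function.comp, ← hy] at h2 h3 h4
  have y0 : 0 < y := by rw [hy]; positivity
  have w0 : 0 < δ * X := by positivity
  have z0' : (0 : ℝ) < z := w0.trans hs
  have z0 : 0 < z := by exact_mod_cast z0'
  have Cη : 0 ≤ C / η := by positivity
  have zy : (z : ℝ) ≤ y ^ 2 := by
    have : y ^ 2 = (X : ℝ) ^ (2 * β - 1) * X := by
      rw [hy, sq, ← Real.rpow_add x0, ← Real.rpow_add_one x0.ne']; congr 1; ring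
    rw [this]
    exact zK.trans (mul_le_mul_of_nonneg_right h5 x0.le)
  have yz : y ≤ z := by
    have e : (X : ℝ) = y * (X : ℝ) ^ (1 - β) := by
      rw [hy, ← Real.rpow_add x0]; simp
    have := mul_le_mul_of_nonneg_left h6 (mul_pos δ0 y0).le
    rw [mul_right_comm, mul_inv_cancel₀ δ0.ne', one_mul, mul_assoc, ← e] at this
    linarith
  have cd : ∀ A, C / η + 1 ≤ A → C / A ≤ η := fun A hA => by
    rw [div_le_iff₀ (by linarith)]
    have := mul_div_cancel₀ C η0.ne'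
    nlinarith
  have l0 := Real.log_pos x1
  have lz : 0 < Real.log z := by linarith [Real.log_le_log y0 yz]
  have m1 := (mer _ _ (by linarith) (Real.log_le_log y0 yz)).trans (cd _ h2)
  have m2 := (mer _ _ (by linarith) (Real.log_le_log w0 hs.le)).trans (cd _ h3)
  have r1 := h1 z hs.le zK
  have r2 := h1 (δ * X) le_rfl (hs.le.trans zK)
  have e1 : Real.log (Real.log z / Real.log y) =
      Real.log (Real.log z / Real.log X) + Real.log (1 / β) := by
    rw [← Real.log_mul (by positivity) (by positivity), hy, Real.log_rpow x0]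
    congr 1; field_simp
  have e2 : Real.log (Real.log z / Real.log (δ * X)) =
      Real.log (Real.log z / Real.log X) - Real.log (Real.log (δ * X) / Real.log X) := by
    have : 0 < Real.log (δ * X) := by linarith
    rw [← Real.log_div (by positivity) (by positivity)]
    congr 1; field_simp
  have c1 := card_le y0 w0 z0
  obtain ⟨P, hP⟩ : ∃ P, P = pr (Real.log y) (Real.log z) := ⟨_, rfl⟩
  have key : (LS z fun m => if m ≡ u [MOD q] then Bc β X m else 0) =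
      (∑ p ∈ P, ((∑ m ∈ Ioc 0 z, if m ≡ u [MOD q] then (if p ∣ m then (1 : ℝ) else 0) else 0) -
        z / q * (p : ℝ)⁻¹)) + z / q * (∑ p ∈ P, (p : ℝ)⁻¹ - Real.log (1 / β)) -
      Real.log (1 / β) * ((∑ m ∈ Ioc 0 z, if m ≡ u [MOD q] then (1 : ℝ) else 0) - z / q) := by
    rw [sum_sub_distrib, ← mul_sum, sum_comm, mul_sub (Real.log _), mul_sum _ _ (Real.log _)]
    have : (LS z fun m => if m ≡ u [MOD q] then Bc β X m else 0) = ∑ m ∈ Ioc 0 z,
        ((∑ p ∈ P, if m ≡ u [MOD q] then (if p ∣ m then (1 : ℝ) else 0) else 0) -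
          Real.log (1 / β) * if m ≡ u [MOD q] then (1 : ℝ) else 0) :=
      sum_congr rfl fun m hm => by
        by_cases hu : m ≡ u [MOD q]
        · simp only [if_pos hu]
          rw [Bc, Bf, ← hy, big_eq y0 zy hm, hP, mul_one]
        · simp [hu]
    rw [this, sum_sub_distrib]
    ring
  have k1 : |∑ p ∈ P, ((∑ m ∈ Ioc 0 z, if m ≡ u [MOD q] then (if p ∣ m then (1 : ℝ) else 0)
      else 0) - z / q * (p : ℝ)⁻¹)| ≤ #P := by
    refine (abs_sum_le_sum_abs _ _).trans ((sum_le_card_nsmul _ _ 1 fun p hp => ?_).trans (by simp))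
    obtain ⟨g1, g2, -⟩ := (mem_pr y0 z0).1 (hP ▸ hp)
    exact cnt2 z u hq g1 (by exact_mod_cast h4.trans_lt g2)
  have k2 : |z / q * (∑ p ∈ P, (p : ℝ)⁻¹ - Real.log (1 / β))| ≤ z * (2 * η) := by
    rw [abs_mul, abs_of_nonneg (by positivity)]
    refine mul_le_mul (div_le_self z0'.le (by exact_mod_cast hq)) ?_ (abs_nonneg _) z0'.le
    rw [e1, ← hP, abs_le] at m1
    rw [abs_le] at r1 ⊢
    constructor <;> linarith [m1.1, m1.2, r1.1, r1.2]
  have k3 : |Real.log (1 / β) *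
      ((∑ m ∈ Ioc 0 z, if m ≡ u [MOD q] then (1 : ℝ) else 0) - z / q)| ≤ 1 := by
    obtain ⟨a1, a2⟩ := log_mem b1 b2
    rw [abs_mul, abs_of_nonneg a1]
    exact mul_le_one₀ a2 (abs_nonneg _) (cnt z u hq)
  have k4 : (#P : ℝ) ≤ δ * X + z * (3 * η) := by
    rw [hP]
    refine c1.trans (add_le_add le_rfl (mul_le_mul_of_nonneg_left ?_ z0'.le))
    rw [e2, abs_le] at m2
    rw [abs_le] at r1 r2
    linarith [m2.2, r1.2, r2.1]
  have k5 : (z : ℝ) * η ≤ ε / 10 * X :=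
    (mul_le_mul_of_nonneg_right zK η0.le).trans (by nlinarith)
  rw [key, abs_le]
  rw [abs_le] at k1 k2 k3
  rw [hδ] at k4 h8
  constructor <;> linarith [k1.1, k1.2, k2.1, k2.2, k3.1, k3.2]

end Pool.Agent.MP_39eeea_nt.H96
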