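import Pool.Agent.MP_39eeea_nt.H96.MRL

/-! Short averages of the centred indicator of a large prime factor. -/

open Filter Finset MeasureTheory

namespace Pool.Agent.MP_39eeea_nt.H96

open Pool.Agent.MP_ca0a54_nt Pool.Agent.MP_ca0a54_nt.SC
open Pool.Agent.MP_ca0a54_nt.H78M (CM Dq Phi sh)

namespace MRB

theorem cm_chi {q : ℕ} (χ : DirichletCharacter ℂ q) : CM fun n => χ n :=
  ⟨fun _ => χ.norm_le_one _, by simp, fun m n => by simp⟩

theorem classes {q : ℕ} (hq : 0 < q) (χ : DirichletCharacter ℂ q) (g : ℕ → ℝ) (z : ℕ) :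
    ‖LC z fun n => (g n : ℂ) * χ n‖ ≤
      ∑ u ∈ range q, |LS z fun m => if m ≡ u [MOD q] then g m else 0| := by
  have e : (fun n => (g n : ℂ) * χ n) = fun n => ∑ u ∈ range q,
      χ u * ((if n ≡ u [MOD q] then g n else 0 : ℝ) : ℂ) := by
    funext n
    rw [sum_eq_single (n % q)]
    · rw [if_pos (Nat.mod_modEq n q).symm, ZMod.natCast_mod, mul_comm]
    · intro u hu h
      rw [if_neg fun c => h (by rw [c, Nat.mod_eq_of_lt (mem_range.1 hu)])]
      simp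
    · exact fun h => absurd (mem_range.2 (Nat.mod_lt n hq)) h
  rw [e, LC_sum]
  refine (norm_sum_le _ _).trans (sum_le_sum fun u _ => ?_)
  rw [LC_mul, LC_ofReal, norm_mul, Complex.norm_real]
  exact mul_le_of_le_one_left (norm_nonneg _) (χ.norm_le_one _)

theorem mean_chi (mean : MeanStmt) {β : ℝ} (h1 : 1 / 2 < β) (h2 : β < 1) {q : ℕ} (hq : 0 < q)
    (χ : DirichletCharacter ℂ q) (K : ℕ) {ε : ℝ} (hε : 0 < ε) : ∀ᶠ i in Lf, ∀ z : ℕ,
    z ≤ K * i.2 → ‖LC z fun n => (Bc β i.1 n : ℂ) * χ n‖ ≤ ε * i.2 := by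
  refine ev_Lf.2 fun L => ?_
  have hq' : (0 : ℝ) < q := by exact_mod_cast hq
  filter_upwards [(eventually_all_finset (range q)).2 fun u _ =>
    mean β h1 h2 q u (K * L) (ε / (q * (L + 1))) hq (by positivity)] with X hX Y b1 b2 z hz
  have c1 : z ≤ K * L * X := by
    rw [mul_assoc]
    exact hz.trans (Nat.mul_le_mul_left K b2)
  have c2 : (X : ℝ) ≤ (L + 1) * Y := by exact_mod_cast b1.trans (by nlinarith)
  refine (classes hq χ _ z).trans ((sum_le_sum fun u hu => hX u hu z c1).trans ?_)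
  rw [sum_const, card_range, nsmul_eq_mul]
  calc _ ≤ q * (ε / (q * (L + 1)) * ((L + 1) * Y)) := by gcongr
    _ = ε * Y := by field_simp

end MRB

open MRL MRB in
theorem mrb (tt : H78M.TtStmt) (uu : UuUStmt) (tail : H78M.TailStmt) (shs : H78M.ShStmt)
    (npc : NpcStmt) (mean : MeanStmt) (small : SmallStmt) : MrbStmt := by
  intro β h1 h2 q χ hq
  have e2 : (fun X n => (Bc β X n : ℂ) * χ n) = fun (X : ℕ) (n : ℕ) =>
      ((1 - Real.log (1 / β) : ℝ) : ℂ) * χ n - χ n * sg ((X : ℝ) ^ β) n := by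
    funext X n
    rw [Bc, Bf, sg, Complex.ofReal_sub, Complex.ofReal_sub, Complex.ofReal_one]
    ring
  have hα : ‖((1 - Real.log (1 / β) : ℝ) : ℂ)‖ ≤ 1 := by
    obtain ⟨a, b⟩ := log_mem h1 h2
    rw [Complex.norm_real]
    exact abs_le.2 ⟨by linarith, by linarith⟩
  have hb : ∀ X n : ℕ, ‖(Bc β X n : ℂ) * χ n‖ ≤ 1 := fun X n => by
    rw [norm_mul, Complex.norm_real]
    exact mul_le_one₀ (bd_Bc h1 h2 X n) (norm_nonneg _) (χ.norm_le_one _)
  refine mrf_of tail shs hb fun η hη => ?_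
  obtain ⟨H₀, A, κ, T₀, k0, k1, k2, k3, h⟩ := off tt uu (show 0 < η / 8 by positivity)
  obtain ⟨θ, t0, t1, t2⟩ : ∃ θ : ℝ, 0 < θ ∧ θ ≤ 1 ∧ 2 * T₀ * θ ≤ η / 2 := by
    refine ⟨min 1 (η / 2 / (2 * T₀ + 1)), by positivity, min_le_left _ _, ?_⟩
    calc _ ≤ (2 * T₀ + 1) * (η / 2 / (2 * T₀ + 1)) := by
          gcongr
          · linarith
          · exact min_le_right _ _
      _ = η / 2 := by field_simp
  obtain ⟨K, ε, hε, hs⟩ := small T₀ θ t0
  refine ⟨H₀, k0, ?_⟩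
  filter_upwards [tendsto_snd_Lf.eventually h, tendsto_snd_Lf.eventually (npc q χ hq A κ k1),
    ev_le h1 k1 k2, tendsto_snd_Lf.eventually hs, mean_chi mean h1 h2 hq χ K hε]
    with i a1 a2 a3 a4 a5
  rw [int_eq _ (by positivity), ← integral_inter_add_sdiff (meas (1 * T₀))
    (intOn _ _ _ subset_rfl)]
  have c1 := two _ _ hα _ _ Set.inter_subset_left
    (a1 _ 1 (cm_chi χ) (Or.inr rfl) fun s h hs Q hQ _ => a2 s h hs Q hQ)
    (a1 _ 1 (cm_sg (cm_chi χ) ((i.1 : ℝ) ^ β)) (Or.inr rfl) fun s h hs Q hQ hQ' => by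
      rw [Dq_sg _ (hQ'.trans a3)]
      exact a2 s h hs Q hQ)
  rw [← congrFun e2 i.1] at c1
  have c2 : ∫ t in Set.Icc (-(i.2 / H₀)) (i.2 / H₀) \ {t : ℝ | 1 * T₀ ≤ |t|},
      ‖Phi (fun n => (Bc β i.1 n : ℂ) * χ n) (i.2 ^ 2) (Real.log i.2) t‖ ^ 2 ≤
      ∫ t in Set.Icc (-T₀) T₀,
        ‖Phi (fun n => (Bc β i.1 n : ℂ) * χ n) (i.2 ^ 2) (Real.log i.2) t‖ ^ 2 := by
    refine setIntegral_mono_set (intOn _ _ _ subset_rfl)
      (Eventually.of_forall fun t => by positivity) (LE.le.eventuallyLE fun t ht => ?_)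
    have : |t| < 1 * T₀ := not_le.1 ht.2
    exact abs_le.1 (by linarith)
  have c3 : ∫ t in Set.Icc (-T₀) T₀,
      ‖Phi (fun n => (Bc β i.1 n : ℂ) * χ n) (i.2 ^ 2) (Real.log i.2) t‖ ^ 2 ≤
      ∫ _ in Set.Icc (-T₀) T₀, θ := by
    refine setIntegral_mono_on (intOn _ _ _ subset_rfl) continuousOn_const.integrableOn_Icc
      measurableSet_Icc fun t ht => ?_
    have := a4 _ (hb i.1) a5 t (abs_le.2 ht)
    nlinarith [norm_nonneg (Phi (fun n => (Bc β i.1 n : ℂ) * χ n) (i.2 ^ 2) (Real.log i.2) t)]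
  rw [setIntegral_const, Real.volume_real_Icc_of_le (by linarith), smul_eq_mul] at c3
  linarith

end Pool.Agent.MP_39eeea_nt.H96
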