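import Pool.Agent.MP_39eeea_nt.H96.Spec
import Pool.Agent.MP_ca0a54_nt.H78M.NP

/-! A character does not pretend to be `n ^ (i s)` when `s` is not small. -/

open Filter Finset

namespace Pool.Agent.MP_39eeea_nt.H96

open Pool.Agent.MP_ca0a54_nt Pool.Agent.MP_ca0a54_nt.H78M

namespace NPC

theorem cos_le {q : ℕ} (hq0 : 0 < q) (χ : DirichletCharacter ℂ q) (s : ℝ) (p : ℕ) :
    1 - Real.cos ((2 * q.totient : ℕ) * s * Real.log p) ≤
      ((2 * q.totient : ℕ) : ℝ) ^ 2 * (1 - (χ p * nt s p).re) := by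
  have hφ : 1 ≤ q.totient := Nat.totient_pos.2 hq0
  by_cases hu : IsUnit (p : ZMod q)
  · obtain ⟨u, hu⟩ := hu
    have h1 : χ p ^ q.totient = 1 := by
      rw [← hu, ← map_pow, ← Units.val_pow_eq_pow_val, ZMod.pow_totient, Units.val_one, map_one]
    have hz : ‖χ p * nt s p‖ = 1 := by
      rw [norm_mul, norm_nt, mul_one, ← hu, χ.unit_norm_eq_one]
    have h2 := NP.re_pow_le hz (2 * q.totient)
    have h3 : (χ p * nt s p) ^ (2 * q.totient) = nt ((2 * q.totient : ℕ) * s) p := by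
      rw [mul_pow, NP.nt_pow, mul_comm 2 q.totient, pow_mul (χ p), h1, one_pow, one_mul]
    rwa [h3, NP.nt_re] at h2
  · have h0 : χ p = 0 := χ.map_nonunit hu
    have h2 : (2 : ℝ) ≤ ((2 * q.totient : ℕ) : ℝ) := by
      exact_mod_cast (by omega : 2 ≤ 2 * q.totient)
    have h3 := Real.neg_one_le_cos ((2 * q.totient : ℕ) * s * Real.log p)
    rw [h0, zero_mul, Complex.zero_re]
    nlinarith

end NPC

theorem npc : H78M.CosStmt → NpcStmt := by
  intro hcos q χ hq0 A κ hκ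
  have hφ : 1 ≤ q.totient := Nat.totient_pos.2 hq0
  obtain ⟨m, hm⟩ : ∃ m : ℕ, m = 2 * q.totient := ⟨_, rfl⟩
  have hm1 : (1 : ℝ) ≤ m := by exact_mod_cast (by omega : 1 ≤ m)
  obtain ⟨B, hB⟩ := hcos ((m : ℝ) ^ 2 * A) κ hκ
  have e2 : ∀ᶠ X : ℕ in atTop, |B| + 1 ≤ Real.log X :=
    (Real.tendsto_log_atTop.comp tendsto_natCast_atTop_atTop).eventually_ge_atTop _
  filter_upwards [hB, e2, eventually_ge_atTop (2 * m)] with X hX h2 h3 s hs1 hs Q hQ
  have hlX : 0 < Real.log X := by linarith [abs_nonneg B]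
  have habs : |(m : ℝ) * s| = m * |s| := by rw [abs_mul, Nat.abs_cast]
  have hc : B / Real.log X ≤ |(m : ℝ) * s| := by
    have : B / Real.log X ≤ 1 := by
      rw [div_le_one hlX]
      linarith [le_abs_self B]
    rw [habs]
    nlinarith
  have h3' : (2 : ℝ) * m ≤ X := by exact_mod_cast h3
  have hX0 : (0 : ℝ) ≤ X := Nat.cast_nonneg X
  have h4 : |(m : ℝ) * s| ≤ (X : ℝ) ^ 2 := by
    rw [habs]
    nlinarith [mul_le_mul_of_nonneg_left hs (by linarith : (0 : ℝ) ≤ m)]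
  have h5 := hX (m * s) hc h4 Q hQ
  have h6 : ∑ p ∈ (Icc 1 Q).filter Nat.Prime, (1 - Real.cos (m * s * Real.log p)) / p ≤
      (m : ℝ) ^ 2 * Dq (fun n => χ n) Q s := by
    rw [Dq, mul_sum]
    refine sum_le_sum fun p _ => ?_
    rw [← mul_div_assoc]
    refine div_le_div_of_nonneg_right ?_ (Nat.cast_nonneg _)
    rw [hm]
    exact NPC.cos_le hq0 χ s p
  exact le_of_mul_le_mul_left (h5.trans h6) (by positivity)

end Pool.Agent.MP_39eeea_nt.H96
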