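import Pool.Agent.MP_39eeea_nt.H96.Spec
import Pool.Agent.MP_ca0a54_nt.SC.WIEN

/-! Means over residue classes from short exponential sums. -/

open Filter Finset

namespace Pool.Agent.MP_39eeea_nt.H96

open Pool.Agent.MP_ca0a54_nt Pool.Agent.MP_ca0a54_nt.SC
open Pool.Agent.MP_ca0a54_nt.BH (ei)

namespace ONE

theorem mean_le {v : ℕ → ℂ} (hv : ∀ n, ‖v n‖ ≤ 1) {K N : ℕ} (hK : 1 ≤ K) (hN : 1 ≤ N) {δ : ℝ}
    (hδ : 0 < δ) (h : LS N (fun n => ‖∑ j ∈ range K, v (n + j)‖ ^ 2) ≤ δ ^ 2 * K ^ 2 * lg N)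
    (r : ℕ) : ‖LC N fun n => v (n + r)‖ ≤ 2 * δ * N + 3 * (K + r) := by
  have hK' : (0 : ℝ) < K := by exact_mod_cast hK
  have hN' : (1 : ℝ) ≤ N := by exact_mod_cast hN
  have h1 : LS N (fun n => ‖∑ j ∈ range K, v (n + j)‖) ≤ 2 * δ * K * N := by
    refine (abs_le_of_sq_le_sq' ?_ (by positivity)).2
    refine (LS_sq_le N _).trans ((mul_le_mul_of_nonneg_left h
      (by have := lg_nonneg N; linarith)).trans ?_)
    have h0 : 0 ≤ δ ^ 2 * K ^ 2 * N := by positivity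
    unfold lg
    nlinarith
  have h2 : (K : ℂ) * LC N v = LC N (fun n => ∑ j ∈ range K, v (n + j)) -
      ∑ j ∈ range K, (LC N (fun n => v (n + j)) - LC N v) := by
    rw [LC_sum, sum_sub_distrib]
    simp
  have h3 : ‖∑ j ∈ range K, (LC N (fun n => v (n + j)) - LC N v)‖ ≤ K * (3 * K) := by
    refine (norm_sum_le _ _).trans ?_
    refine (sum_le_card_nsmul _ _ (3 * K : ℝ) fun j hj => (LC_shift hv N j).trans ?_).trans ?_
    · have : (j : ℝ) ≤ K := by exact_mod_cast (mem_range.1 hj).le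
      linarith
    · simp
  have h4 : (K : ℝ) * ‖LC N v‖ ≤ K * (2 * δ * N + 3 * K) := by
    have h5 := congrArg norm h2
    rw [norm_mul, Complex.norm_natCast] at h5
    have h6 := norm_sub_le (LC N fun n => ∑ j ∈ range K, v (n + j))
      (∑ j ∈ range K, (LC N (fun n => v (n + j)) - LC N v))
    have h7 := norm_LC_le N fun n => ∑ j ∈ range K, v (n + j)
    linarith
  have h5 := le_of_mul_le_mul_left h4 hK'
  have h6 := LC_shift hv N r
  have h7 := norm_add_le (LC N (fun n => v (n + r)) - LC N v) (LC N v)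
  rw [sub_add_cancel] at h7
  linarith

theorem per {q : ℕ} (hq : 0 < q) (a n : ℕ) :
    ei (2 * Real.pi * ((a : ℝ) / q) * n) = ei (2 * Real.pi * ((a : ℝ) / q) * (n % q : ℕ)) := by
  have hq' : (q : ℝ) ≠ 0 := by exact_mod_cast hq.ne'
  have e : 2 * Real.pi * ((a : ℝ) / q) * n = 2 * Real.pi * ((a : ℝ) / q) * (n % q : ℕ) +
      (a * (n / q) : ℕ) * (2 * Real.pi) := by
    have : (n : ℝ) = (n % q : ℕ) + q * (n / q : ℕ) := by exact_mod_cast (Nat.mod_add_div n q).symm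
    conv_lhs => rw [this]
    rw [Nat.cast_mul]
    field_simp
  have e1 : ei ((a * (n / q) : ℕ) * (2 * Real.pi)) = 1 := by
    rw [ei, ← Complex.exp_nat_mul_two_pi_mul_I (a * (n / q))]
    congr 1
    rw [Complex.ofReal_mul, Complex.ofReal_natCast]
    push_cast
    ring
  rw [e, BH.ei_add, e1, mul_one]

theorem ind {q : ℕ} (hq : 0 < q) (m u r : ℕ) :
    ∑ a ∈ range q, ei (2 * Real.pi * ((a : ℝ) / q) * (m + r : ℕ)) *
      (starRingEnd ℂ) (ei (2 * Real.pi * ((a : ℝ) / q) * (u + r : ℕ))) =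
      if m ≡ u [MOD q] then (q : ℂ) else 0 := by
  simp only [per hq _ (m + r), per hq _ (u + r)]
  rw [WIEN.orth (Nat.mod_lt _ hq) (Nat.mod_lt _ hq)]
  refine if_congr ⟨fun h => Nat.ModEq.add_right_cancel' r h, fun h => h.add_right r⟩ rfl rfl

theorem cls_le {g : ℕ → ℝ} {q : ℕ} (hq : 0 < q) (u r N : ℕ) {B : ℝ}
    (h : ∀ a ∈ range q, ‖LC N fun n => (g (n + r) : ℂ) *
      ei (2 * Real.pi * ((a : ℝ) / q) * (n + r : ℕ))‖ ≤ B) :
    |LS N fun m => if m ≡ u [MOD q] then g (m + r) else 0| ≤ B := by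
  have hq' : (0 : ℝ) < q := by exact_mod_cast hq
  have e : (q : ℂ) * (LS N fun m => if m ≡ u [MOD q] then g (m + r) else 0 : ℝ) =
      ∑ a ∈ range q, (starRingEnd ℂ) (ei (2 * Real.pi * ((a : ℝ) / q) * (u + r : ℕ))) *
        LC N fun n => (g (n + r) : ℂ) * ei (2 * Real.pi * ((a : ℝ) / q) * (n + r : ℕ)) := by
    simp only [← LC_mul]
    rw [← LC_sum, ← LC_ofReal, ← LC_mul]
    congr 1
    funext m
    have h1 := ind hq m u r
    have h2 : ∑ a ∈ range q, (starRingEnd ℂ) (ei (2 * Real.pi * ((a : ℝ) / q) * (u + r : ℕ))) *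
        ((g (m + r) : ℂ) * ei (2 * Real.pi * ((a : ℝ) / q) * (m + r : ℕ))) =
        (g (m + r) : ℂ) * if m ≡ u [MOD q] then (q : ℂ) else 0 := by
      rw [← h1, mul_sum]
      exact sum_congr rfl fun a _ => by ring
    rw [h2]
    split_ifs
    · ring
    · simp
  have h1 := congrArg norm e
  rw [norm_mul, Complex.norm_natCast, Complex.norm_real, Real.norm_eq_abs] at h1
  refine le_of_mul_le_mul_left (h1.trans_le ((norm_sum_le _ _).trans ?_)) hq'
  refine (sum_le_card_nsmul _ _ B fun a ha => ?_).trans (by simp)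
  rw [norm_mul, Complex.norm_conj, BH.norm_ei, one_mul]
  exact h a ha

end ONE

theorem one : OneStmt := by
  intro g hg hS q u r ε hq hε
  have hδ : 0 < ε / 4 := by positivity
  have h1 : ∀ᶠ K : ℕ in atTop, ∀ a ∈ range q, ∀ᶠ i in Lf,
      LS i.2 (fun n => ‖∑ j ∈ range K, (g i.1 (n + j) : ℂ) *
        ei (2 * Real.pi * ((a : ℝ) / q) * (n + j : ℕ))‖ ^ 2) ≤ (ε / 4) ^ 2 * K ^ 2 * lg i.2 := by
    refine (eventually_all_finset _).2 fun a _ => ?_
    have := hS ((a : ℚ) / q) ((ε / 4) ^ 2) (by positivity)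
    simpa only [Rat.cast_div, Rat.cast_natCast] using this
  obtain ⟨K, hK, hK1⟩ := (h1.and (eventually_ge_atTop 1)).exists
  have h2 : ∀ᶠ N : ℕ in atTop, 3 * ((K : ℝ) + r) / (ε / 2) ≤ N :=
    tendsto_natCast_atTop_atTop.eventually_ge_atTop _
  filter_upwards [(eventually_all_finset _).2 hK, tendsto_snd_Lf.eventually h2,
    tendsto_snd_Lf.eventually (eventually_ge_atTop 1)] with i a1 a2 a3
  refine (ONE.cls_le (g := g i.1) hq u r i.2 fun a ha => ONE.mean_le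
    (v := fun n => (g i.1 n : ℂ) * ei (2 * Real.pi * ((a : ℝ) / q) * n)) (fun n => ?_) hK1 a3 hδ
    (a1 a ha) r).trans ?_
  · rw [norm_mul, BH.norm_ei, mul_one, Complex.norm_real]
    exact hg _ _
  · rw [div_le_iff₀ (by positivity)] at a2
    unfold lg
    linarith

end Pool.Agent.MP_39eeea_nt.H96
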