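import Pool.Agent.MP_39eeea_nt.H96.Spec
import Pool.Agent.MP_ca0a54_nt.H78M.RAT

/-! Short sums of a stable family with a rational twist, at every scale. -/

open Filter Finset

namespace Pool.Agent.MP_39eeea_nt.H96

open Pool.Agent.MP_ca0a54_nt Pool.Agent.MP_ca0a54_nt.SC
open Pool.Agent.MP_ca0a54_nt.BH (ei norm_ei ei_add)
open Pool.Agent.MP_ca0a54_nt.H78M (sh)
open Pool.Agent.MP_ca0a54_nt.H78M.RAT (sh_comb point fiber dil norm_avg_le periodic_mod)

namespace RATF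

theorem mr_congr {a b : ℕ → ℕ → ℂ} (h : MRf a) (hab : ∀ᶠ X in atTop, ∀ n, b X n = a X n) :
    MRf b := by
  intro η hη
  obtain ⟨H₁, hH⟩ := h η hη
  refine ⟨H₁, fun H h1 => ?_⟩
  filter_upwards [hH H h1, tendsto_fst_Lf.eventually hab] with i h2 h3
  rwa [funext h3]

/-- combinations with bounded coefficients -/
theorem mr_comb {ι : Type*} (s : Finset ι) (a : ι → ℕ → ℕ → ℂ) (ha : ∀ k ∈ s, MRf (a k))
    (c : ι → ℂ) (hc : ∀ k, ‖c k‖ ≤ 1) : MRf fun X n => ∑ k ∈ s, c k * a k X n := by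
  classical
  intro η hη
  have hp : (0 : ℝ) < (s.card : ℝ) ^ 2 + 1 := by positivity
  choose! H₁ hH₁ using fun k hk => ha k hk (η / ((s.card : ℝ) ^ 2 + 1)) (div_pos hη hp)
  refine ⟨s.sup H₁, fun H hH => ?_⟩
  have h1 : ∀ᶠ i in Lf, ∀ k ∈ s, sh (a k i.1) H i.2 ≤ η / ((s.card : ℝ) ^ 2 + 1) * i.2 :=
    (eventually_all_finset s).2 fun k hk => hH₁ k hk H ((le_sup hk).trans hH)
  filter_upwards [h1] with i hX
  refine (sh_comb s (fun k => a k i.1) c hc H i.2).trans ?_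
  have h2 : ∑ k ∈ s, sh (a k i.1) H i.2 ≤ s.card * (η / ((s.card : ℝ) ^ 2 + 1) * i.2) := by
    simpa using sum_le_card_nsmul s _ _ hX
  have h3 : (s.card : ℝ) * (s.card * (η / ((s.card : ℝ) ^ 2 + 1) * i.2)) ≤ η * i.2 := by
    have h4 : (s.card : ℝ) * (s.card * (η / ((s.card : ℝ) ^ 2 + 1) * i.2)) =
        ((s.card : ℝ) ^ 2 / ((s.card : ℝ) ^ 2 + 1)) * (η * i.2) := by
      field_simp
    rw [h4]
    exact mul_le_of_le_one_left (by positivity) ((div_le_one hp).2 (by linarith))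
  exact (mul_le_mul_of_nonneg_left h2 (Nat.cast_nonneg _)).trans h3

/-- the dilation lemma -/
theorem mr_dil (a : ℕ → ℕ → ℂ) (ha : ∀ X n, ‖a X n‖ ≤ 1) (h : MRf a) {g : ℕ} (hg : 0 < g) :
    MRf fun X => dil (a X) g := by
  intro η hη
  obtain ⟨H₁, hH₁⟩ := h (η / 6) (by positivity)
  obtain ⟨M, hM⟩ := exists_nat_ge (6 / η)
  refine ⟨g * (H₁ + 1) + M, fun H hH => ?_⟩
  have hgH : g ≤ H := by nlinarith
  have hK : H₁ ≤ H / g := by
    rw [Nat.le_div_iff_mul_le hg]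
    nlinarith
  have ht : Tendsto (fun i : ℕ × ℕ => (i.1, i.2 / g)) Lf Lf := by
    refine tendsto_Lf (φ := fun Y => Y / g) (2 * g) ?_
    filter_upwards [eventually_ge_atTop g] with Y hY
    have b1 : 1 ≤ Y / g := Nat.div_pos hY hg
    have b2 := Nat.lt_mul_div_self_add (x := Y) hg
    have b3 := Nat.div_le_self Y g
    constructor <;> nlinarith
  obtain ⟨N, hN⟩ := exists_nat_ge (12 * g / η)
  filter_upwards [ht.eventually (hH₁ (H / g) hK), tendsto_snd_Lf.eventually_ge_atTop N] with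
    ⟨Z, X⟩ hX hXN
  dsimp only at hX hXN ⊢
  have hH1 : (1 : ℝ) ≤ H := by exact_mod_cast hg.trans_le hgH
  have hMH : (M : ℝ) ≤ H := by exact_mod_cast le_trans (by omega) hH
  have hXN' : (N : ℝ) ≤ X := by exact_mod_cast hXN
  have h1 := fiber (fun y => ‖((H / g : ℕ) : ℂ)⁻¹ * ∑ j ∈ Icc 1 (H / g), a Z (y + j)‖ ^ 2)
    (fun y => by positivity) (fun y => norm_avg_le (a Z) (ha Z) y _) hg X
  have h2 := sum_le_sum fun x (_ : x ∈ Ioc X (2 * X)) => point (a Z) (ha Z) hg hgH x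
  rw [sum_add_distrib, ← mul_sum, sum_const, nsmul_eq_mul, Nat.card_Ioc,
    show 2 * X - X = X by omega] at h2
  have h3 : (g : ℝ) * (X / g : ℕ) ≤ X := by exact_mod_cast Nat.mul_div_le X g
  have h4 : 2 / (H : ℝ) ^ 2 ≤ η / 3 := by
    rw [div_le_iff₀ hη] at hM
    rw [div_le_iff₀ (by positivity)]
    nlinarith [mul_le_mul_of_nonneg_right hMH hη.le, mul_le_mul_of_nonneg_right
      (mul_le_mul_of_nonneg_right hH1 hη.le) (by linarith : (0 : ℝ) ≤ H)]
  have h5 : 4 * (g : ℝ) ≤ η / 3 * X := by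
    rw [div_le_iff₀ hη] at hN
    nlinarith [mul_le_mul_of_nonneg_right hXN' hη.le]
  have h6 : (g : ℝ) * sh (a Z) (H / g) (X / g) ≤ η / 6 * X := by
    calc (g : ℝ) * sh (a Z) (H / g) (X / g) ≤ g * (η / 6 * (X / g : ℕ)) := by gcongr
      _ = η / 6 * (g * (X / g : ℕ)) := by ring
      _ ≤ _ := by gcongr
  have h7 : (X : ℝ) * (2 / (H : ℝ) ^ 2) ≤ X * (η / 3) := by gcongr
  unfold sh at h6 ⊢
  nlinarith

/-- a reduced residue class -/
theorem mr_unit {g : ℕ → ℕ → ℝ} (hM : MRc g) {q r : ℕ} (hq : 0 < q) (hr : r.Coprime q) :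
    MRf fun X n => if r ≡ n [MOD q] then (g X n : ℂ) else 0 := by
  have : NeZero q := ⟨hq.ne'⟩
  have hu : IsUnit (r : ZMod q) := (ZMod.isUnit_iff_coprime r q).2 hr
  have ht : 0 < q.totient := Nat.totient_pos.2 hq
  have h := mr_comb univ (fun (χ : DirichletCharacter ℂ q) X n => (g X n : ℂ) * χ n)
    (fun χ _ => hM q χ hq) (fun χ => (q.totient : ℂ)⁻¹ * χ (r : ZMod q)⁻¹) fun χ => by
      rw [norm_mul, norm_inv, Complex.norm_natCast]
      exact mul_le_one₀ (inv_le_one_of_one_le₀ (by exact_mod_cast ht)) (norm_nonneg _)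
        (χ.norm_le_one _)
  refine mr_congr h (Eventually.of_forall fun X n => ?_)
  have h1 : ∑ χ : DirichletCharacter ℂ q,
      (q.totient : ℂ)⁻¹ * χ (r : ZMod q)⁻¹ * ((g X n : ℂ) * χ n) = (q.totient : ℂ)⁻¹ * g X n *
        ∑ χ : DirichletCharacter ℂ q, χ (r : ZMod q)⁻¹ * χ (n : ZMod q) := by
    rw [mul_sum]
    refine sum_congr rfl fun χ _ => ?_
    ring
  have h2 : (q.totient : ℂ) ≠ 0 := by exact_mod_cast ht.ne'
  rw [h1, DirichletCharacter.sum_char_inv_mul_char_eq ℂ hu]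
  simp only [ZMod.natCast_eq_natCast_iff]
  split_ifs
  · field_simp
  · simp

theorem norm_le {g : ℕ → ℕ → ℝ} (hb : Bd g) (X n : ℕ) : ‖(g X n : ℂ)‖ ≤ 1 := by
  rw [Complex.norm_real]
  exact hb X n

/-- any residue class -/
theorem mr_class {g : ℕ → ℕ → ℝ} (hb : Bd g) (hs : Stab g) (hM : MRc g) {q : ℕ} (hq : 0 < q)
    (r : ℕ) : MRf fun X n => if r ≡ n [MOD q] then (g X n : ℂ) else 0 := by
  obtain ⟨d, r', q', hd, hc, rfl, rfl⟩ := Nat.exists_coprime' (Nat.gcd_pos_of_pos_right r hq)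
  have hq' : 0 < q' := Nat.pos_of_mul_pos_right hq
  obtain ⟨s, hs1, hs2⟩ := hs d hd
  have h1 := mr_dil _ (fun X n => by
    split_ifs
    · exact norm_le hb X n
    · simp) (mr_unit hM hq' hc) hd
  have h2 := mr_comb {()}
    (fun _ X => dil (fun n => if r' ≡ n [MOD q'] then (g X n : ℂ) else 0) d)
    (fun _ _ => h1) (fun _ => (s : ℂ)) fun _ => by rcases hs1 with rfl | rfl <;> simp
  refine mr_congr h2 (hs2.mono fun X hX n => ?_)
  rw [sum_singleton, dil]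
  by_cases h : d ∣ n
  · obtain ⟨m, rfl⟩ := h
    rw [if_pos (dvd_mul_right d m), Nat.mul_div_cancel_left m hd, mul_comm r' d, mul_comm q' d,
      hX]
    simp only [Nat.ModEq.mul_left_cancel_iff' hd.ne']
    split_ifs <;> simp
  · rw [if_neg h, mul_zero, if_neg]
    intro h3
    exact h ((h3.dvd_iff (dvd_mul_left d q')).1 (dvd_mul_left d r'))

/-- a periodic twist -/
theorem mr_per {g : ℕ → ℕ → ℝ} (hb : Bd g) (hs : Stab g) (hM : MRc g) {q : ℕ} (hq : 0 < q)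
    (ψ : ℕ → ℂ) (h1 : ∀ n, ‖ψ n‖ ≤ 1) (h2 : ∀ n, ψ (n + q) = ψ n) :
    MRf fun X n => (g X n : ℂ) * ψ n := by
  refine mr_congr (mr_comb (range q)
    (fun r X n => if r ≡ n [MOD q] then (g X n : ℂ) else 0)
    (fun r _ => mr_class hb hs hM hq r) ψ h1) (Eventually.of_forall fun X n => ?_)
  rw [sum_eq_single_of_mem (n % q) (mem_range.2 (Nat.mod_lt n hq)), if_pos (Nat.mod_modEq n q),
    periodic_mod ψ h2, mul_comm]
  intro r hr hne
  rw [if_neg, mul_zero]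
  intro h3
  exact hne (by rw [← h3, Nat.mod_eq_of_lt (mem_range.1 hr)])

theorem win {F : ℕ → ℝ} {c b : ℝ} {a M : ℕ} (ha : 2 ≤ a) (hc : 0 ≤ c) (hF : ∀ n, 0 ≤ F n)
    (hb : ∀ n, F n ≤ b) (h : ∀ X, a ≤ X → X ≤ M → ∑ n ∈ Ioc X (2 * X), F n ≤ c * X) (N : ℕ)
    (hM : N ≤ M) : LS N F ≤ 2 * c * N + b * (2 * a) := by
  have b0 : 0 ≤ b := (hF 0).trans (hb 0)
  induction N using Nat.strong_induction_on with
  | _ N ih =>
    by_cases hN : N ≤ 2 * a
    · have h1 : LS N F ≤ N * b := by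
        simpa [LS] using sum_le_card_nsmul (Ioc 0 N) F b fun n _ => hb n
      have h2 : (N : ℝ) ≤ 2 * a := by exact_mod_cast hN
      have h3 : 0 ≤ 2 * c * N := by positivity
      nlinarith
    · have h1 := ih ((N + 1) / 2) (by omega) (by omega)
      have h2 := h ((N + 1) / 2) (by omega) (by omega)
      have h3 : LS N F ≤
          LS ((N + 1) / 2) F + ∑ n ∈ Ioc ((N + 1) / 2) (2 * ((N + 1) / 2)), F n := by
        rw [LS, LS, sum_Ioc_consecutive _ (Nat.zero_le _) (by omega)]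
        exact sum_le_sum_of_subset_of_nonneg (Ioc_subset_Ioc_right (by omega)) fun n _ _ => hF n
      have h4 : 3 * (((N + 1) / 2 : ℕ) : ℝ) ≤ 2 * N := by
        exact_mod_cast (by omega : 3 * ((N + 1) / 2) ≤ 2 * N)
      nlinarith

/-- from the blocks to the initial segments -/
theorem short {a : ℕ → ℕ → ℂ} (ha : ∀ X n, ‖a X n‖ ≤ 1) (h : MRf a) (ε : ℝ) (hε : 0 < ε) :
    ∀ᶠ K : ℕ in atTop, ∀ᶠ i in Lf,
      LS i.2 (fun n => ‖∑ j ∈ range K, a i.1 (n + j)‖ ^ 2) ≤ ε * K ^ 2 * lg i.2 := by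
  obtain ⟨H₁, hH⟩ := h (ε / 8) (by positivity)
  obtain ⟨M, hM⟩ := exists_nat_ge (8 / ε)
  have M0 : (0 : ℝ) < M := lt_of_lt_of_le (by positivity) hM
  have M1 : 0 < M := by exact_mod_cast M0
  filter_upwards [eventually_ge_atTop H₁, eventually_ge_atTop 1] with K hK K1
  have P1 : ∀ᶠ i in Lf, ∀ Y, i.2 / M + 2 ≤ Y → Y ≤ i.2 → sh (a i.1) K Y ≤ ε / 8 * Y := by
    refine ev_Lf.2 fun K0 => ?_
    filter_upwards [ev_Lf.1 (hH K hK) (K0 * M)] with X hX N b1 b2 Y b3 b4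
    have b5 := Nat.lt_mul_div_self_add (x := N) M1
    have b6 : N ≤ M * Y := by nlinarith
    refine hX Y (b1.trans ?_) (b4.trans (b2.trans ?_))
    · rw [mul_assoc]
      exact Nat.mul_le_mul_left K0 b6
    · exact Nat.mul_le_mul_right X (Nat.le_mul_of_pos_right K0 M1)
  filter_upwards [P1, (tendsto_lg.comp tendsto_snd_Lf).eventually_ge_atTop (14 / ε)] with
    ⟨Z, N⟩ hX h3
  dsimp only [Function.comp] at hX h3 ⊢
  have K0 : (0 : ℝ) < K := by exact_mod_cast K1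
  set F : ℕ → ℝ := fun n => ‖∑ j ∈ range K, a Z (n + j)‖ ^ 2 with hF
  have hb : ∀ n, |F n| ≤ (K : ℝ) ^ 2 := fun n => by
    rw [abs_of_nonneg (by positivity)]
    exact pow_le_pow_left₀ (norm_nonneg _) ((norm_sum_le _ _).trans
      ((sum_le_card_nsmul _ _ 1 fun j _ => ha _ _).trans_eq (by simp))) 2
  have h4 := (abs_le.1 (LS_shift hb N 1)).1
  have h5 := win (F := fun n => F (n + 1)) (c := ε / 8 * K ^ 2) (a := N / M + 2) (M := N)
    (Nat.le_add_left 2 _) (by positivity) (fun n => by positivity)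
    (fun n => (le_abs_self _).trans (hb _)) (fun X c1 c2 => by
      rw [mul_right_comm]
      refine le_of_eq_of_le ?_ (mul_le_mul_of_nonneg_right (hX X c1 c2) (sq_nonneg (K : ℝ)))
      rw [sh, sum_mul]
      refine sum_congr rfl fun x _ => ?_
      rw [norm_mul, norm_inv, Complex.norm_natCast, mul_pow, hF, ← Ico_add_one_right_eq_Icc,
        sum_Ico_eq_sum_range, Nat.add_sub_cancel]
      field_simp
      simp only [add_assoc]) N le_rfl
  have h7 : 8 * ((N / M : ℕ) : ℝ) ≤ ε * N := by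
    have c1 : (M : ℝ) * (N / M : ℕ) ≤ N := by exact_mod_cast Nat.mul_div_le N M
    rw [div_le_iff₀ hε] at hM
    nlinarith [mul_le_mul_of_nonneg_left c1 hε.le,
      mul_le_mul_of_nonneg_right hM (Nat.cast_nonneg (α := ℝ) (N / M))]
  rw [div_le_iff₀ hε] at h3
  have h6 := mul_le_mul_of_nonneg_left h3 (sq_nonneg (K : ℝ))
  have h8 := mul_le_mul_of_nonneg_left h7 (sq_nonneg (K : ℝ))
  unfold lg at h6 ⊢
  rw [Nat.cast_add, Nat.cast_ofNat] at h5
  rw [Nat.cast_one] at h4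
  nlinarith

end RATF

theorem ratF : RatStmt := by
  intro g hb hs hM α ε hε
  refine RATF.short (a := fun X n => (g X n : ℂ) * ei (2 * Real.pi * α * n)) (fun X n => ?_)
    (RATF.mr_per hb hs hM α.den_pos _ (fun n => (norm_ei _).le) fun n => ?_) ε hε
  · rw [norm_mul, norm_ei, mul_one]
    exact RATF.norm_le hb X n
  · rw [Nat.cast_add, mul_add, ei_add, mul_assoc _ (α : ℝ) (α.den : ℝ),
      show (α : ℝ) * α.den = α.num by exact_mod_cast α.mul_den_eq_num]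
    have : ei (2 * Real.pi * α.num) = 1 := by
      rw [ei, Complex.exp_eq_one_iff]
      exact ⟨α.num, by push_cast; ring⟩
    rw [this, mul_one]

end Pool.Agent.MP_39eeea_nt.H96
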