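import Pool.Agent.MP_39eeea_nt.H96.Spec

/-! Small initial sums give a small localised Dirichlet polynomial at bounded frequency. -/

open Filter Finset

namespace Pool.Agent.MP_39eeea_nt.H96

open Pool.Agent.MP_ca0a54_nt Pool.Agent.MP_ca0a54_nt.SC
open Pool.Agent.MP_ca0a54_nt.H78M (Phi ps dv nt gw)

namespace SMALL

/-- The weight. -/
noncomputable def W (L t x : ℝ) : ℂ :=
  Complex.exp (((-Real.log x - (Real.log x - L) ^ 2 : ℝ) : ℂ) - Complex.I * t * Real.log x)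

theorem norm_W (L t x : ℝ) : ‖W L t x‖ = Real.exp (-Real.log x - (Real.log x - L) ^ 2) := by
  rw [W, Complex.norm_exp]
  congr 1
  simp only [Complex.sub_re, Complex.ofReal_re, Complex.mul_re, Complex.I_re, Complex.I_im,
    Complex.ofReal_im, Complex.mul_im]
  ring

theorem deriv_W (L t : ℝ) {x : ℝ} (hx : 0 < x) : HasDerivAt (W L t)
    (W L t x * (((-x⁻¹ - 2 * (Real.log x - L) * x⁻¹ : ℝ) : ℂ) - Complex.I * t * (x⁻¹ : ℝ))) x := by
  have h1 := Real.hasDerivAt_log hx.ne'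
  have h2 : HasDerivAt (fun x : ℝ => -Real.log x - (Real.log x - L) ^ 2)
      (-x⁻¹ - 2 * (Real.log x - L) * x⁻¹) x := by
    exact (h1.neg.sub ((h1.sub_const L).pow 2)).congr_deriv (by simp)
  exact (h2.ofReal_comp.sub (h1.ofReal_comp.const_mul (Complex.I * t))).cexp

theorem aux (v T : ℝ) (hT : 0 ≤ T) :
    Real.exp (-(2 * v) - v ^ 2) * (1 + 2 * |v| + T) ≤ Real.exp 1 * (T + 5) := by
  have h1 : Real.exp (-(2 * v) - v ^ 2) * Real.exp ((v + 1) ^ 2) = Real.exp 1 := by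
    rw [← Real.exp_add]
    congr 1
    ring
  have h2 : (v + 1) ^ 2 + 1 ≤ Real.exp ((v + 1) ^ 2) := Real.add_one_le_exp _
  have h3 : |v| ≤ (v + 1) ^ 2 + 2 := abs_le.2 ⟨by nlinarith [sq_nonneg (v + 3 / 2)],
    by nlinarith [sq_nonneg (v + 1 / 2)]⟩
  rw [← h1, mul_assoc]
  refine mul_le_mul_of_nonneg_left ?_ (Real.exp_pos _).le
  nlinarith [sq_nonneg (v + 1), mul_nonneg hT (sq_nonneg (v + 1))]

theorem lip {Y T t : ℝ} (hY : 0 < Y) (ht : |t| ≤ T) {x y : ℝ} (hx : 0 < x) (hy : 0 < y) :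
    ‖W (Real.log Y) t y - W (Real.log Y) t x‖ ≤ Real.exp 1 * (T + 5) / Y ^ 2 * ‖y - x‖ := by
  refine (convex_Ioi (0 : ℝ)).norm_image_sub_le_of_norm_hasDerivWithin_le
    (fun z hz => (deriv_W (Real.log Y) t hz).hasDerivWithinAt) (fun z hz => ?_) hx hy
  have hz : 0 < z := hz
  set v := Real.log z - Real.log Y with hv
  have h1 : ‖(((-z⁻¹ - 2 * v * z⁻¹ : ℝ) : ℂ) - Complex.I * t * (z⁻¹ : ℝ))‖ ≤
      (1 + 2 * |v| + T) * z⁻¹ := by
    refine (norm_sub_le _ _).trans ?_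
    have h0 : 0 < z⁻¹ := inv_pos.2 hz
    rw [norm_mul, norm_mul, Complex.norm_I, Complex.norm_real, Complex.norm_real,
      Complex.norm_real, Real.norm_eq_abs, Real.norm_eq_abs, Real.norm_eq_abs, abs_of_pos h0,
      show -z⁻¹ - 2 * v * z⁻¹ = (-1 - 2 * v) * z⁻¹ by ring, abs_mul, abs_of_pos h0]
    have h2 : |-1 - 2 * v| ≤ 1 + 2 * |v| := abs_le.2
      ⟨by linarith [le_abs_self v], by linarith [neg_abs_le v]⟩
    nlinarith
  have h2 : Real.exp (-Real.log z - v ^ 2) * z⁻¹ = Real.exp (-(2 * v) - v ^ 2) / Y ^ 2 := by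
    have e1 : z⁻¹ = Real.exp (-Real.log z) := by rw [Real.exp_neg, Real.exp_log hz]
    have e2 : Y ^ 2 = Real.exp (2 * Real.log Y) := by
      rw [two_mul, Real.exp_add, Real.exp_log hY, sq]
    rw [e2, ← Real.exp_sub]
    conv_lhs => rw [e1, ← Real.exp_add]
    congr 1
    rw [hv]
    ring
  rw [norm_mul, norm_W]
  calc _ ≤ Real.exp (-Real.log z - v ^ 2) * ((1 + 2 * |v| + T) * z⁻¹) :=
        mul_le_mul_of_nonneg_left h1 (Real.exp_pos _).le
    _ = Real.exp (-(2 * v) - v ^ 2) * (1 + 2 * |v| + T) / Y ^ 2 := by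
        rw [mul_comm (1 + 2 * |v| + T), ← mul_assoc, h2]
        ring
    _ ≤ _ := div_le_div_of_nonneg_right (aux v T ((abs_nonneg t).trans ht)) (by positivity)

theorem W_le {Y x : ℝ} (t : ℝ) (hY : 0 < Y) (hx : 0 < x) :
    ‖W (Real.log Y) t x‖ ≤ Real.exp 1 * Y * (x ^ 2)⁻¹ := by
  have e1 : (x ^ 2)⁻¹ = Real.exp (-(2 * Real.log x)) := by
    rw [Real.exp_neg, two_mul, Real.exp_add, Real.exp_log hx, sq]
  rw [norm_W, e1]
  conv_rhs => rw [← Real.exp_log hY, ← Real.exp_add, ← Real.exp_add]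
  refine Real.exp_le_exp.2 ?_
  nlinarith [sq_nonneg (Real.log x - Real.log Y - 1 / 2)]

theorem abel {a w : ℕ → ℂ} {M δ : ℝ} (hδ : 0 ≤ δ) (hw : ∀ n, 1 ≤ n → ‖w (n + 1) - w n‖ ≤ δ)
    (N : ℕ) (h : ∀ z, z ≤ N → ‖LC z a‖ ≤ M) :
    ‖LC N (fun n => a n * w n) - LC N a * w N‖ ≤ N * (M * δ) := by
  induction N with
  | zero => simp [LC]
  | succ N ih =>
    have h1 := ih fun z hz => h z (hz.trans (Nat.le_succ N))
    have h2 : LC (N + 1) (fun n => a n * w n) - LC (N + 1) a * w (N + 1) =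
        LC N (fun n => a n * w n) - LC N a * w N - LC N a * (w (N + 1) - w N) := by
      simp only [LC, sum_Ioc_succ_top (Nat.zero_le N)]
      ring
    have hM : 0 ≤ M := (norm_nonneg _).trans (h 0 (Nat.zero_le _))
    have h3 : ‖LC N a * (w (N + 1) - w N)‖ ≤ M * δ := by
      rcases Nat.eq_zero_or_pos N with rfl | hN
      · simpa [LC] using mul_nonneg hM hδ
      · rw [norm_mul]
        exact mul_le_mul (h N (Nat.le_succ N)) (hw N hN) (norm_nonneg _) hM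
    rw [h2]
    refine (norm_sub_le _ _).trans ?_
    push_cast
    linarith

theorem phi_eq (a : ℕ → ℂ) (Z : ℕ) (L t : ℝ) :
    Phi a Z L t = ∑ n ∈ Ioc 0 Z, a n * W L t n := by
  simp only [Phi, ps, dv]
  refine sum_congr (by ext n; simp [Nat.succ_le_iff]) fun n hn => ?_
  have hn : (0 : ℝ) < n := by exact_mod_cast (mem_Ioc.1 hn).1
  have e1 : Real.exp (-Real.log n - (Real.log n - L) ^ 2) =
      (n : ℝ)⁻¹ * gw 1 (Real.log n - L) := by
    rw [sub_eq_add_neg, Real.exp_add, Real.exp_neg, Real.exp_log hn, gw, one_mul]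
  rw [W, sub_eq_add_neg _ (Complex.I * t * Real.log n), Complex.exp_add, ← Complex.ofReal_exp, e1,
    nt]
  push_cast
  ring

end SMALL

open SMALL in
theorem small : SmallStmt := by
  intro T₀ η hη
  have he : 0 < Real.exp 1 := Real.exp_pos 1
  obtain ⟨K, hK⟩ := exists_nat_gt (2 * Real.exp 1 / η)
  have hK0 : (0 : ℝ) < K := lt_trans (by positivity) hK
  have hK1 : 1 ≤ K := by exact_mod_cast hK0
  set C := Real.exp 1 * (|T₀| + 5) with hC
  have hC0 : 0 < C := by positivity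
  set ε := η / (2 * (Real.exp 1 + K * C)) with hε
  have hε0 : 0 < ε := by positivity
  refine ⟨K, ε, hε0, ?_⟩
  filter_upwards [eventually_ge_atTop K] with Y hY a ha h t ht
  have hY1 : 1 ≤ Y := hK1.trans hY
  have hY0 : (0 : ℝ) < Y := by exact_mod_cast hY1
  have hN : K * Y ≤ Y ^ 2 := by rw [sq]; exact Nat.mul_le_mul_right Y hY
  have hN0 : K * Y ≠ 0 := by positivity
  have hK2 : (1 : ℝ) ≤ K := by exact_mod_cast hK1
  have h1 := abel (a := a) (w := fun n : ℕ => W (Real.log Y) t n) (δ := C / (Y : ℝ) ^ 2)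
    (by positivity) (fun n hn => by
      have hn : (0 : ℝ) < n := by exact_mod_cast hn
      have := lip hY0 (ht.trans (le_abs_self T₀)) hn (y := ((n + 1 : ℕ) : ℝ)) (by positivity)
      simpa using this) (K * Y) h
  have h2 : ‖LC (K * Y) a * W (Real.log Y) t (K * Y : ℕ)‖ ≤ ε * Real.exp 1 := by
    rw [norm_mul]
    refine (mul_le_mul (h _ le_rfl) (W_le t hY0 (by positivity)) (norm_nonneg _)
      (by positivity)).trans ?_
    have : ε * Y * (Real.exp 1 * Y * (((K * Y : ℕ) : ℝ) ^ 2)⁻¹) = ε * Real.exp 1 / (K : ℝ) ^ 2 := by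
      push_cast
      field_simp
    rw [this]
    exact div_le_self (by positivity) (one_le_pow₀ hK2)
  have h3 : ‖∑ n ∈ Ioc (K * Y) (Y ^ 2), a n * W (Real.log Y) t n‖ ≤ η / 2 := by
    refine (norm_sum_le _ _).trans ?_
    have h4 : ∀ n ∈ Ioc (K * Y) (Y ^ 2), ‖a n * W (Real.log Y) t n‖ ≤
        Real.exp 1 * Y * ((n : ℝ) ^ 2)⁻¹ := fun n hn => by
      have hn : (0 : ℝ) < n := by exact_mod_cast (Nat.zero_le _).trans_lt (mem_Ioc.1 hn).1
      rw [norm_mul]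
      exact (mul_le_of_le_one_left (norm_nonneg _) (ha n)).trans (W_le t hY0 hn)
    refine (sum_le_sum h4).trans ?_
    rw [← mul_sum]
    have h5 := sum_Ioc_inv_sq_le_sub (α := ℝ) hN0 hN
    have h6 : ∑ i ∈ Ioc (K * Y) (Y ^ 2), ((i : ℝ) ^ 2)⁻¹ ≤ (((K * Y : ℕ) : ℝ))⁻¹ :=
      h5.trans (sub_le_self _ (by positivity))
    refine (mul_le_mul_of_nonneg_left h6 (by positivity)).trans ?_
    have : Real.exp 1 * Y * (((K * Y : ℕ) : ℝ))⁻¹ = Real.exp 1 / K := by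
      push_cast
      field_simp
    rw [this, div_le_iff₀ hK0]
    rw [div_lt_iff₀ hη] at hK
    linarith
  have h4 : ((K * Y : ℕ) : ℝ) * (ε * Y * (C / (Y : ℝ) ^ 2)) = ε * (K * C) := by
    push_cast
    field_simp
  have h5 : ε * (K * C) + ε * Real.exp 1 = η / 2 := by
    rw [hε]
    field_simp
    ring
  rw [phi_eq, ← sum_Ioc_consecutive _ (Nat.zero_le (K * Y)) hN]
  refine (norm_add_le _ _).trans ?_
  have h6 := norm_add_le (LC (K * Y) (fun n => a n * W (Real.log Y) t n) -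
    LC (K * Y) a * W (Real.log Y) t (K * Y : ℕ)) (LC (K * Y) a * W (Real.log Y) t (K * Y : ℕ))
  rw [sub_add_cancel] at h6
  have h7 : ‖∑ n ∈ Ioc 0 (K * Y), a n * W (Real.log Y) t n‖ =
    ‖LC (K * Y) fun n => a n * W (Real.log Y) t n‖ := rfl
  linarith

end Pool.Agent.MP_39eeea_nt.H96
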