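import Pool.Agent.MP_39eeea_nt.H96.Spec
import Pool.Agent.MP_ca0a54_nt.SC.CH

/-! From the expansion estimate to the correlations of two families in a residue class. -/

open Filter Finset

namespace Pool.Agent.MP_39eeea_nt.H96

open Pool.Agent.MP_ca0a54_nt Pool.Agent.MP_ca0a54_nt.SC

namespace TWO

/-- The two functions glued along two residue classes. -/
noncomputable def gl (F G : ℕ → ℝ) (q u r j n : ℕ) : ℝ :=
  if n = 0 then 0 else if n ≡ u * j [MOD q] then F n else if n ≡ (u + r) * j [MOD q] then G n else 0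

/-- The summand of the correlation. -/
noncomputable def cr (F G : ℕ → ℝ) (q u r m : ℕ) : ℝ := if m ≡ u [MOD q] then F m * G (m + r) else 0

/-- The classes. -/
noncomputable def cl (q : ℕ) : Finset (ℕ × ℝ) := range q ×ˢ {1, -1}

variable {F G : ℕ → ℝ} {q u r : ℕ}

theorem abs_gl (hF : ∀ n, |F n| ≤ 1) (hG : ∀ n, |G n| ≤ 1) (j n : ℕ) : |gl F G q u r j n| ≤ 1 := by
  unfold gl
  split_ifs
  · simp
  · exact hF n
  · exact hG n
  · simp

theorem abs_cr (hF : ∀ n, |F n| ≤ 1) (hG : ∀ n, |G n| ≤ 1) (m : ℕ) : |cr F G q u r m| ≤ 1 := by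
  unfold cr
  split_ifs
  · rw [abs_mul]
    exact mul_le_one₀ (hF m) (abs_nonneg _) (hG _)
  · simp

theorem gl_mul (hr : 1 ≤ r) (hq : 2 * r < q) {d n : ℕ} (hd : d.Coprime q) (hn : 1 ≤ n) :
    gl F G q u r (d % q) n * gl F G q u r (d % q) (n + r * d) = cr F G q (u * d) (r * d) n := by
  have h0 : ∀ k : ℕ, 1 ≤ k → k < q → (k : ZMod q) * d ≠ 0 := fun k k1 k2 h => by
    rw [← Nat.cast_mul, ZMod.natCast_eq_zero_iff] at h
    exact absurd (Nat.le_of_dvd k1 (hd.symm.dvd_of_dvd_mul_right h)) (by omega)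
  have h1 := h0 r hr (by omega)
  have h2 := h0 (2 * r) (by omega) hq
  rw [gl, gl, cr, if_neg (by omega), if_neg (show ¬n + r * d = 0 by omega)]
  simp only [← ZMod.natCast_eq_natCast_iff, Nat.cast_mul, Nat.cast_add, ZMod.natCast_mod]
  push_cast at h2
  by_cases c1 : (n : ZMod q) = u * d
  · rw [if_pos c1, if_pos c1, if_neg fun h => h1 (by linear_combination h - c1),
      if_pos (by linear_combination c1)]
  · rw [if_neg c1, if_neg c1, if_neg (show ¬(n : ZMod q) + r * d = (u + r) * d from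
      fun h => c1 (by linear_combination h))]
    by_cases c2 : (n : ZMod q) = (u + r) * d
    · rw [if_neg (show ¬(n : ZMod q) + r * d = u * d from
        fun h => h2 (by linear_combination h - c2)), mul_zero]
    · rw [if_neg c2, zero_mul]

theorem cr_mul {d : ℕ} {s : ℝ} (hd : d.Coprime q)
    (h : ∀ m n, F (d * m) * G (d * n) = s * (F m * G n)) (u r m : ℕ) :
    cr F G q (u * d) (r * d) (d * m) = s * cr F G q u r m := by
  have e : d * m ≡ u * d [MOD q] ↔ m ≡ u [MOD q] := by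
    rw [mul_comm u]
    exact ⟨Nat.ModEq.cancel_left_of_coprime hd.symm, fun h => h.mul_left d⟩
  rw [cr, cr, show d * m + r * d = d * (m + r) by ring, h]
  simp only [e, mul_ite, mul_zero]

theorem dil {K : ℕ → ℝ} (h0 : K 0 = 0) (N : ℕ) {d : ℕ} (hd : 1 ≤ d) :
    ∑ n ∈ range (N + 1), (if d ∣ n then K n else 0) = LS (N / d) fun m => K (d * m) := by
  rw [range_eq_Ico, sum_eq_sum_Ico_succ_bot (Nat.succ_pos N), h0, ite_self, zero_add]
  exact sum_dvd K N hd

theorem split (hr : 1 ≤ r) (hq : 2 * r < q) (N : ℕ) {e p : ℕ} {s s' : ℝ} (he : 1 ≤ e)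
    (hp : p.Prime) (h : ¬ p ∣ e) (hd : (e * p).Coprime q) (hs : s = 1 ∨ s = -1)
    (h1 : ∀ m n, F (e * p * m) * G (e * p * n) = s * (F m * G n))
    (h2 : ∀ m n, F (e * m) * G (e * n) = s' * (F m * G n)) :
    s * ∑ n ∈ range (N + 1), (if e ∣ n then gl F G q u r (e * p % q) n *
      gl F G q u r (e * p % q) (n + r * e * p) * ((if p ∣ n then 1 else 0) - 1 / (p : ℝ)) else 0) =
      LS (N / (e * p)) (cr F G q u r) -
        1 / (p : ℝ) * (s * s' * LS (N / e) (cr F G q (u * p) (p * r))) := by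
  have ep := Nat.mul_pos he hp.pos
  set K : ℕ → ℝ := fun n => gl F G q u r (e * p % q) n * gl F G q u r (e * p % q) (n + r * (e * p))
    with hK
  have K0 : K 0 = 0 := by simp [hK, gl]
  have a1 : LS (N / (e * p)) (fun m => K (e * p * m)) = s * LS (N / (e * p)) (cr F G q u r) := by
    rw [← LS_mul]
    refine sum_congr rfl fun m hm => ?_
    dsimp only
    rw [← cr_mul hd h1]
    exact gl_mul hr hq hd (Nat.mul_pos ep (mem_Ioc.1 hm).1)
  have a2 : LS (N / e) (fun m => K (e * m)) = s' * LS (N / e) (cr F G q (u * p) (p * r)) := by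
    rw [← LS_mul]
    refine sum_congr rfl fun m hm => ?_
    dsimp only
    rw [← cr_mul (Nat.Coprime.coprime_mul_right hd) h2, show u * p * e = u * (e * p) by ring,
      show p * r * e = r * (e * p) by ring]
    exact gl_mul hr hq hd (Nat.mul_pos he (mem_Ioc.1 hm).1)
  have a3 : s * s = 1 := by rcases hs with rfl | rfl <;> norm_num
  have a4 : LS (N / (e * p)) (cr F G q u r) = s * LS (N / (e * p)) fun m => K (e * p * m) := by
    rw [a1, ← mul_assoc, a3, one_mul]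
  rw [a4, mul_assoc s s', ← a2, ← dil K0 N ep, ← dil K0 N he, mul_left_comm, ← mul_sub]
  refine congrArg _ ?_
  rw [mul_sum, ← sum_sub_distrib]
  refine sum_congr rfl fun n _ => ?_
  have hc : e * p ∣ n ↔ e ∣ n ∧ p ∣ n := ⟨fun h => ⟨(dvd_mul_right _ _).trans h,
    (dvd_mul_left _ _).trans h⟩, fun h' =>
    ((hp.coprime_iff_not_dvd.2 h).symm).mul_dvd_of_dvd_of_dvd h'.1 h'.2⟩
  rw [mul_assoc r]
  by_cases c1 : e ∣ n <;> by_cases c2 : p ∣ n <;> simp [hc, c1, c2, hK] <;> ring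

theorem card_cl (q : ℕ) : (cl q).card = 2 * q := by
  rw [cl, card_product, card_range, card_pair (by norm_num), mul_comm]

theorem abs_cl {c : ℕ × ℝ} (h : c ∈ cl q) : |c.2| = 1 := by
  rcases mem_insert.1 (mem_product.1 h).2 with h | h
  · rw [h, abs_one]
  · rw [mem_singleton.1 h, abs_neg, abs_one]

open Classical in
theorem by_cl (hq : 0 < q) (P : Finset ℕ) (a : ℕ → ℕ) {σ : ℕ → ℝ} (hσ : ∀ p, σ p = 1 ∨ σ p = -1)
    (Φ : ℕ × ℝ → ℕ → ℝ) : ∑ p ∈ P, Φ (a p % q, σ p) p =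
      ∑ c ∈ cl q, ∑ p ∈ P.filter (fun p => (a p % q, σ p) = c), Φ c p := by
  rw [← sum_fiberwise_of_maps_to (g := fun p => (a p % q, σ p)) (t := cl q) fun p _ =>
    mem_product.2 ⟨mem_range.2 (Nat.mod_lt _ hq), by simpa using hσ p⟩]
  exact sum_congr rfl fun c _ => sum_congr rfl fun p hp => by rw [(mem_filter.1 hp).2]

theorem fake (hF : ∀ n, |F n| ≤ 1) (hG : ∀ n, |G n| ≤ 1) (hq : 0 < q) {N : ℕ} {P : Finset ℕ}
    {t δ : ℝ} {σ : ℕ → ℝ} (hσ : ∀ p, σ p = 1 ∨ σ p = -1) (hδ : 0 ≤ δ) (ht : 0 ≤ t)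
    (hP : ∀ p ∈ P, |1 / (p : ℝ) - t| ≤ δ * t)
    (h : ∀ P' ⊆ P, LS N (fun n => (∑ p ∈ P', G (n + p * r)) ^ 2) ≤
      (δ / (2 * q)) ^ 2 * (P.card : ℝ) ^ 2 * lg N) :
    |∑ p ∈ P, 1 / (p : ℝ) * (σ p * LS N (cr F G q (u * p) (p * r)))| ≤
      2 * δ * P.card * (t * (1 + N)) := by
  classical
  have hN := lg_nonneg N
  have q0 : (0 : ℝ) < q := by exact_mod_cast hq
  have h1 : ∀ P' ⊆ P, LS N (fun n => |∑ p ∈ P', G (n + p * r)|) ≤
      δ / (2 * q) * P.card * (1 + lg N) := fun P' hP' => by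
    refine (abs_le_of_sq_le_sq' ((LS_sq_le N _).trans ?_) (by positivity)).2
    simp only [sq_abs]
    refine (mul_le_mul_of_nonneg_left (h P' hP') (by positivity)).trans ?_
    nlinarith [mul_nonneg (sq_nonneg (δ / (2 * q) * P.card)) (show 0 ≤ 1 + lg N by positivity)]
  have hs : ∀ p, |σ p| = 1 := fun p => by rcases hσ p with h | h <;> simp [h]
  simp only [← LS_mul]
  rw [← LS_sum]
  refine (abs_sum_le_sum_abs _ _).trans ((LS_mono (N := N) (g := fun n => t * ∑ c ∈ cl q,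
    |∑ p ∈ P.filter (fun p => (p % q, σ p) = c), G (n + p * r)| + δ * t * P.card * 1)
    fun n _ _ => ?_).trans ?_)
  · have e : ∑ p ∈ P, 1 / (p : ℝ) * (σ p * cr F G q (u * p) (p * r) n) =
        t * ∑ p ∈ P, σ p * cr F G q (u * (p % q)) (p * r) n +
          ∑ p ∈ P, (1 / (p : ℝ) - t) * (σ p * cr F G q (u * p) (p * r) n) := by
      rw [mul_sum, ← sum_add_distrib]
      refine sum_congr rfl fun p _ => ?_
      have e1 : n ≡ u * (p % q) [MOD q] ↔ n ≡ u * p [MOD q] :=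
        ⟨fun h => h.trans ((Nat.mod_modEq p q).mul_left u),
          fun h => h.trans ((Nat.mod_modEq p q).mul_left u).symm⟩
      simp only [cr, e1]
      ring
    rw [e]
    refine (abs_add_le _ _).trans (add_le_add ?_ ((abs_sum_le_sum_abs _ _).trans
      ((sum_le_card_nsmul _ _ (δ * t) fun p hp => ?_).trans_eq (by rw [nsmul_eq_mul]; ring))))
    · have e2 := by_cl hq P (fun p => p) hσ fun c p => c.2 * cr F G q (u * c.1) (p * r) n
      dsimp only at e2
      rw [abs_mul, abs_of_nonneg ht, e2]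
      refine mul_le_mul_of_nonneg_left ((abs_sum_le_sum_abs _ _).trans
        (sum_le_sum fun c hc => ?_)) ht
      rw [← mul_sum, abs_mul, abs_cl hc, one_mul]
      simp only [cr, sum_ite_irrel, sum_const_zero, ← mul_sum]
      split_ifs
      · rw [abs_mul]
        exact mul_le_of_le_one_left (abs_nonneg _) (hF n)
      · rw [abs_zero]
        exact abs_nonneg _
    · rw [abs_mul, abs_mul, hs, one_mul]
      exact (mul_le_of_le_one_right (abs_nonneg _) (abs_cr hF hG _)).trans (hP p hp)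
  · rw [LS_add, LS_mul, LS_mul, LS_sum]
    have h2 := sum_le_card_nsmul (cl q) _ _ fun c _ =>
      h1 (P.filter fun p => (p % q, σ p) = c) (filter_subset _ _)
    rw [card_cl, nsmul_eq_mul, Nat.cast_mul, Nat.cast_two, ← mul_assoc, ← mul_assoc,
      mul_div_cancel₀ _ (by positivity)] at h2
    have h3 := mul_le_mul_of_nonneg_left h2 ht
    have h4 := mul_le_mul_of_nonneg_left (LS_one_le N) (show 0 ≤ δ * t * P.card by positivity)
    unfold lg at h3 h4
    linarith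

theorem avg_sub {g : ℕ → ℕ → ℝ} (hg : Bd g) (ha : AvgF g) {h : ℕ} {c ε : ℝ} (hh : 1 ≤ h)
    (hc : 0 < c) (hε : 0 < ε) : ∀ᶠ x : ℕ in atTop, ∀ᶠ i in Lf, ∀ P : Finset ℕ,
    (∀ p ∈ P, p.Prime ∧ x < p ∧ p ≤ 3 * x) → c * x / Real.log x ≤ P.card → ∀ P' ⊆ P,
    LS i.2 (fun n => (∑ p ∈ P', g i.1 (n + p * h)) ^ 2) ≤ ε ^ 2 * (P.card : ℝ) ^ 2 * lg i.2 := by
  filter_upwards [ha h (ε * c) (ε ^ 2) hh (by positivity) (by positivity)] with x hx
  filter_upwards [hx] with i hi P h1 h2 P' h3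
  have l0 := lg_nonneg i.2
  by_cases h4 : ε * c * x / Real.log x ≤ P'.card
  · refine (hi P' (fun p hp => h1 p (h3 hp)) h4).trans ?_
    gcongr
  · have h5 : (P'.card : ℝ) ≤ ε * P.card := by
      rw [mul_assoc, mul_div_assoc] at h4
      exact (not_le.1 h4).le.trans (mul_le_mul_of_nonneg_left h2 hε.le)
    rw [← LS_one, ← LS_mul]
    refine LS_mono fun n _ _ => ?_
    rw [mul_one, ← mul_pow, ← sq_abs]
    refine pow_le_pow_left₀ (abs_nonneg _) ((abs_sum_le_sum_abs _ _).trans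
      ((sum_le_card_nsmul _ _ 1 fun p _ => hg _ _).trans ?_)) 2
    rwa [nsmul_eq_mul, mul_one]

theorem tend {Q : ℝ} (hQ : 1 ≤ Q) {e : ℕ} (he : 1 ≤ e) :
    Tendsto (fun i : ℕ × ℕ => (i.1, ⌈Q * i.2⌉₊ / e)) Lf Lf := by
  refine tendsto_Lf (φ := fun Y => ⌈Q * Y⌉₊ / e) (2 * e + ⌈Q⌉₊) ?_
  filter_upwards [eventually_ge_atTop e] with Y hY
  have h1 : Y ≤ ⌈Q * Y⌉₊ := by
    have : (Y : ℝ) ≤ ⌈Q * Y⌉₊ :=
      (le_mul_of_one_le_left (Nat.cast_nonneg Y) hQ).trans (Nat.le_ceil _)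
    exact_mod_cast this
  have h2 : ⌈Q * Y⌉₊ ≤ ⌈Q⌉₊ * Y := Nat.ceil_le.2 (by
    push_cast
    exact mul_le_mul_of_nonneg_right (Nat.le_ceil Q) (Nat.cast_nonneg Y))
  have h3 := Nat.lt_mul_div_succ ⌈Q * Y⌉₊ he
  have h4 : 1 ≤ ⌈Q * Y⌉₊ / e := Nat.div_pos (hY.trans h1) he
  exact ⟨by nlinarith [Nat.zero_le (⌈Q⌉₊ * (⌈Q * Y⌉₊ / e))],
    (Nat.div_le_self _ _).trans (h2.trans (Nat.mul_le_mul_right Y (by omega)))⟩

theorem signs {f g : ℕ → ℕ → ℝ} (hf : Stab f) (hg : Stab g) : ∃ s : ℕ → ℝ,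
    (∀ d, s d = 1 ∨ s d = -1) ∧ ∀ d, 1 ≤ d → ∀ᶠ X : ℕ in atTop, ∀ m n,
      f X (d * m) * g X (d * n) = s d * (f X m * g X n) := by
  have h : ∀ d : ℕ, ∃ s : ℝ, (s = 1 ∨ s = -1) ∧ (1 ≤ d → ∀ᶠ X : ℕ in atTop, ∀ m n,
      f X (d * m) * g X (d * n) = s * (f X m * g X n)) := fun d => by
    by_cases hd : 1 ≤ d
    · obtain ⟨s, s1, s2⟩ := hf d hd
      obtain ⟨t, t1, t2⟩ := hg d hd
      refine ⟨s * t, by rcases s1 with rfl | rfl <;> rcases t1 with rfl | rfl <;> simp, fun _ => ?_⟩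
      filter_upwards [s2, t2] with X a b m n
      rw [a, b, mul_mul_mul_comm]
    · exact ⟨1, Or.inl rfl, fun h => absurd h hd⟩
  choose s h1 h2 using h
  exact ⟨s, h1, h2⟩

theorem refine_mod (hq : 0 < q) {k : ℕ} (hk : 0 < k) (N : ℕ) : LS N (cr F G q u r) =
    ∑ v ∈ (range (q * k)).filter (· ≡ u [MOD q]), LS N (cr F G (q * k) v r) := by
  rw [← LS_sum]
  refine sum_congr rfl fun m _ => ?_
  have h0 : m % (q * k) ≡ m [MOD q] := (Nat.mod_modEq m (q * k)).of_mul_right k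
  dsimp only
  rw [sum_filter, sum_eq_single_of_mem (m % (q * k))
    (mem_range.2 (Nat.mod_lt _ (Nat.mul_pos hq hk)))]
  · rw [cr, cr, if_pos (Nat.mod_modEq m (q * k)).symm]
    exact if_congr ⟨fun h => h0.trans h, fun h => h0.symm.trans h⟩ rfl rfl
  · intro v hv hne
    rw [cr, if_neg fun h : m ≡ v [MOD q * k] =>
      hne ((Nat.mod_eq_of_lt (mem_range.1 hv)).symm.trans h.symm), ite_self]

theorem big_mod (hc : CoreS) {f g : ℕ → ℕ → ℝ} (bf : Bd f) (bg : Bd g) (sf : Stab f) (sg : Stab g)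
    (ha : AvgF g) (hr : 1 ≤ r) (hq : 2 * r < q) (u : ℕ) {ε : ℝ} (hε : 0 < ε) :
    ∀ᶠ i in Lf, |LS i.2 (cr (f i.1) (g i.1) q u r)| ≤ ε * lg i.2 := by
  classical
  have q1 : 0 < q := by omega
  have q0 : (0 : ℝ) < q := by exact_mod_cast q1
  obtain ⟨s, s1, s2⟩ := signs sf sg
  obtain ⟨δ, δ0, δ1, δ2⟩ : ∃ δ : ℝ, 0 < δ ∧ δ ≤ 1 ∧ δ ≤ ε / 5 :=
    ⟨min 1 (ε / 5), by positivity, min_le_left _ _, min_le_right _ _⟩
  obtain ⟨c, c0, hc⟩ := hc r δ hr δ0 δ1
  obtain ⟨z, hz⟩ := eventually_atTop.1 (avg_sub bg ha (ε := δ / (2 * q)) hr c0 (by positivity))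
  obtain ⟨E, Pe, wt, Q, Q1, hG, hE, M0, hcen⟩ := hc (δ / (2 * q)) (max z q) (by positivity)
  have Q0 : 0 < Q := by linarith
  have hpr : ∀ e ∈ E, ∀ p ∈ Pe e, p.Prime ∧ (e * p).Coprime q := fun e he p hp => by
    obtain ⟨-, -, ⟨x, x1, x2, -⟩, -⟩ := hG e he
    refine ⟨(x2 p hp).1, Nat.coprime_of_dvd fun k k1 k2 k3 => ?_⟩
    have k4 := Nat.le_of_dvd q1 k3
    rcases (Nat.Prime.dvd_mul k1).1 k2 with k5 | k5
    · have := hE e he k k1 k5
      omega
    · have := (Nat.prime_dvd_prime_iff_eq k1 (x2 p hp).1).1 k5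
      have := (x2 p hp).2.1
      omega
  have hT : Tendsto (fun i : ℕ × ℕ => ⌈Q * i.2⌉₊ + 1) Lf atTop := (tendsto_add_atTop_nat 1).comp
    ((tendsto_nat_ceil_atTop.comp (tendsto_natCast_atTop_atTop.const_mul_atTop Q0)).comp
      tendsto_snd_Lf)
  have hA : ∀ e ∈ E, ∀ᶠ i in Lf, ∀ P' ⊆ Pe e, LS (⌈Q * i.2⌉₊ / e)
      (fun n => (∑ p ∈ P', g i.1 (n + p * r)) ^ 2) ≤
      (δ / (2 * q)) ^ 2 * ((Pe e).card : ℝ) ^ 2 * lg (⌈Q * i.2⌉₊ / e) := fun e he => by
    obtain ⟨-, e1, ⟨x, x1, x2, x3⟩, -⟩ := hG e he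
    exact ((tend Q1 e1).eventually (hz x ((le_max_left _ _).trans x1))).mono fun i h => h _ x2 x3
  have hB : ∀ e ∈ E, ∀ᶠ X : ℕ in atTop, ∀ d ∈ insert 1 (Pe e), ∀ m n,
      f X (e * d * m) * g X (e * d * n) = s (e * d) * (f X m * g X n) := fun e he =>
    (eventually_all_finset _).2 fun d hd => s2 _ (Nat.mul_pos (hG e he).2.1 (by
      rcases mem_insert.1 hd with h | h
      · omega
      · exact (hpr e he d h).1.pos))
  have hC := (eventually_all_finset (cl q)).2 fun c _ => hT.eventually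
    (hcen (fun e => (Pe e).filter fun p => (e * p % q, s (e * p)) = c) fun e => filter_subset _ _)
  filter_upwards [(eventually_all_finset E).2 hA,
    tendsto_fst_Lf.eventually ((eventually_all_finset E).2 hB), hC,
    (tendsto_lg.comp tendsto_snd_Lf).eventually_ge_atTop (45 / ε)] with i hA hB hC hX
  obtain ⟨X', X⟩ := i
  rw [Function.comp_apply] at hX
  dsimp only at hA hB hC hX ⊢
  set F := f X'
  set G := g X'
  have hF : ∀ n, |F n| ≤ 1 := bf X'
  have hG' : ∀ n, |G n| ≤ 1 := bg X'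
  set N := ⌈Q * X⌉₊ with hN
  have X0 : (0 : ℝ) ≤ X := Nat.cast_nonneg X
  have N1 : Q * X ≤ N := Nat.le_ceil _
  have N2 : (N : ℝ) ≤ Q * X + 1 := (Nat.ceil_lt_add_one (by positivity)).le
  set S : ℕ → ℝ := fun Y => LS Y (cr F G q u r) with hS
  set W := ∑ e ∈ E, wt e * (Pe e).card with hW
  set Z := ∑ c ∈ cl q, c.2 * cen r E (fun e => (Pe e).filter fun p => (e * p % q, s (e * p)) = c)
    wt (N + 1) (gl F G q u r c.1) with hZ
  have hcen : |Z| ≤ δ * mass E Pe wt * (N + 1 : ℕ) := by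
    refine (abs_sum_le_sum_abs _ _).trans ((sum_le_card_nsmul _ _
      (δ / (2 * q) * mass E Pe wt * (N + 1 : ℕ)) fun c hc => ?_).trans_eq ?_)
    · rw [abs_mul, abs_cl hc, one_mul]
      exact hC c hc _ (abs_gl hF hG' _)
    · rw [card_cl, nsmul_eq_mul, Nat.cast_mul, Nat.cast_two]
      field_simp
  have hM : mass E Pe wt * Q ≤ W := by
    rw [mass, sum_mul]
    refine sum_le_sum fun e he => ?_
    rw [sum_mul, mul_comm, ← nsmul_eq_mul]
    refine sum_le_card_nsmul _ _ _ fun p hp => ?_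
    obtain ⟨w0, -, -, h⟩ := hG e he
    have h1 := (h p hp).2.1
    rw [div_mul_eq_mul_div, div_le_iff₀ (by linarith)]
    exact mul_le_mul_of_nonneg_left h1 w0
  have W0 : 0 < W := lt_of_lt_of_le (by positivity) hM
  have e1 : W * S X = Z + ∑ e ∈ E, wt e * (∑ p ∈ Pe e, (S X - S (N / (e * p))) + ∑ p ∈ Pe e,
      1 / (p : ℝ) * (s (e * p) * s e * LS (N / e) (cr F G q (u * p) (p * r)))) := by
    simp only [hZ, cen, mul_sum]
    rw [sum_comm, hW, sum_mul, ← sum_add_distrib]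
    refine sum_congr rfl fun e he => ?_
    have e2 := by_cl q1 (Pe e) (fun p => e * p) (σ := fun p => s (e * p)) (fun p => s1 _)
      fun c p => ∑ n ∈ range (N + 1), c.2 * (wt e * if e ∣ n then gl F G q u r c.1 n *
        gl F G q u r c.1 (n + r * e * p) * ((if p ∣ n then 1 else 0) - 1 / (p : ℝ)) else 0)
    rw [← e2, ← sum_add_distrib, mul_sum, ← sum_add_distrib, mul_assoc, ← nsmul_eq_mul,
      ← sum_const, mul_sum]
    refine sum_congr rfl fun p hp => ?_
    have e3 := split (F := F) (G := G) (u := u) hr hq N (hG e he).2.1 (hpr e he p hp).1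
      ((hG e he).2.2.2 p hp).1 (hpr e he p hp).2 (s1 _) (hB e he p (mem_insert_of_mem hp))
      (by simpa only [mul_one] using hB e he 1 (mem_insert_self _ _))
    simp only [mul_left_comm (s (e * p)), ← mul_sum]
    rw [e3]
    ring
  have e2 : ∀ e ∈ E, |wt e * (∑ p ∈ Pe e, (S X - S (N / (e * p))) + ∑ p ∈ Pe e,
      1 / (p : ℝ) * (s (e * p) * s e * LS (N / e) (cr F G q (u * p) (p * r))))| ≤
      wt e * (Pe e).card * (δ * X + 1 + 2 * δ * (X + 3)) := fun e he => by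
    obtain ⟨w0, e1, -, h⟩ := hG e he
    have e0 : (0 : ℝ) < e := by exact_mod_cast e1
    rw [abs_mul, abs_of_nonneg w0, mul_assoc, mul_add]
    refine mul_le_mul_of_nonneg_left ((abs_add_le _ _).trans (add_le_add
      ((abs_sum_le_sum_abs _ _).trans ((sum_le_card_nsmul _ _ (δ * X + 1) fun p hp => ?_).trans_eq
        (nsmul_eq_mul _ _))) ?_)) w0
    · refine (CH.LS_lip (abs_cr hF hG') _ _).trans ?_
      obtain ⟨-, h1, h2⟩ := h p hp
      have d0 : (0 : ℝ) < (e * p : ℕ) := by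
        push_cast
        linarith
      have a1 : ((N / (e * p) : ℕ) : ℝ) ≤ X + 1 := by
        refine Nat.cast_div_le.trans ((div_le_iff₀ d0).2 ?_)
        push_cast
        nlinarith
      have a2 : (N : ℝ) ≤ (e * p : ℕ) * ((N / (e * p) : ℕ) + 1 : ℝ) := by
        exact_mod_cast (Nat.lt_mul_div_succ N (by exact_mod_cast d0)).le
      have a3 : (X : ℝ) ≤ (1 + δ) * ((N / (e * p) : ℕ) + 1 : ℝ) := by
        refine le_of_mul_le_mul_left (N1.trans (a2.trans ?_)) Q0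
        rw [← mul_assoc, mul_comm Q]
        push_cast
        gcongr
      rw [abs_le]
      constructor
      · nlinarith
      · by_contra a4
        have a5 : ((N / (e * p) : ℕ) + 1 : ℝ) ≤ (1 - δ) * X := by linarith
        have a6 := mul_le_mul_of_nonneg_left a5 (show 0 ≤ 1 + δ by positivity)
        have a7 : (0 : ℝ) < (N / (e * p) : ℕ) + 1 := by positivity
        have a8 : 0 < (X : ℝ) := by nlinarith
        nlinarith [mul_pos (mul_pos δ0 δ0) a8]
    · rcases (Pe e).eq_empty_or_nonempty with h0 | ⟨p', hp'⟩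
      · simp [h0]
      have b1 : (e : ℝ) ≤ 2 * Q := by
        have : (1 : ℝ) ≤ p' := by exact_mod_cast (hpr e he p' hp').1.one_le
        nlinarith [(h p' hp').2.2]
      refine (fake hF hG' q1 (t := e / Q) (σ := fun p => s (e * p) * s e) (fun p => by
        rcases s1 (e * p) with h | h <;> rcases s1 e with h' | h' <;> simp [h, h']) δ0.le
        (by positivity) (fun p hp => ?_) (hA e he)).trans ?_
      · obtain ⟨-, h1, h2⟩ := h p hp
        have p0 : (0 : ℝ) < p := by exact_mod_cast (hpr e he p hp).1.pos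
        have b2 : 1 / (p : ℝ) ≤ e / Q := by
          rw [div_le_div_iff₀ p0 Q0]
          linarith
        have b3 : e / Q ≤ (1 + δ) * (1 / (p : ℝ)) := by
          rw [mul_one_div, div_le_div_iff₀ Q0 p0]
          linarith
        rw [abs_sub_comm, abs_of_nonneg (by linarith)]
        nlinarith
      · rw [mul_comm ((Pe e).card : ℝ), mul_right_comm (2 * δ)]
        refine mul_le_mul_of_nonneg_right (mul_le_mul_of_nonneg_left ?_ (by positivity))
          (Nat.cast_nonneg _)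
        have b4 : (e : ℝ) * (N / e : ℕ) ≤ N := by exact_mod_cast Nat.mul_div_le N e
        rw [div_mul_eq_mul_div, div_le_iff₀ Q0]
        nlinarith
  have e3 : W * |S X| ≤ W * (δ * (X + 2) + (δ * X + 1 + 2 * δ * (X + 3))) := by
    rw [← abs_of_pos W0, ← abs_mul, abs_of_pos W0, e1, mul_add W]
    refine (abs_add_le _ _).trans (add_le_add (hcen.trans ?_) ((abs_sum_le_sum_abs _ _).trans
      ((sum_le_sum e2).trans_eq (by rw [hW, sum_mul]))))
    have a1 : ((N + 1 : ℕ) : ℝ) ≤ Q * (X + 2) := by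
      push_cast
      linarith
    calc _ ≤ δ * mass E Pe wt * (Q * (X + 2)) := by gcongr
      _ = mass E Pe wt * Q * (δ * (X + 2)) := by ring
      _ ≤ _ := by gcongr
  have e4 := le_of_mul_le_mul_left e3 W0
  rw [div_le_iff₀ hε, lg] at hX
  rw [lg]
  refine e4.trans ?_
  nlinarith

end TWO

theorem two (hc : CoreS) : TwoStmt := by
  intro f g bf bg sf sg ha q u r ε hq hr hε
  have hk : 0 < 2 * r + 1 := by omega
  have h0 : (0 : ℝ) < (q * (2 * r + 1) : ℕ) := by exact_mod_cast Nat.mul_pos hq hk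
  filter_upwards [(eventually_all_finset (range (q * (2 * r + 1)))).2 fun v _ =>
    TWO.big_mod hc bf bg sf sg ha hr (show 2 * r < q * (2 * r + 1) by nlinarith) v
      (div_pos hε h0)] with i hi
  have l0 := lg_nonneg i.2
  refine le_of_eq_of_le (congrArg _ (TWO.refine_mod hq hk i.2)) ((abs_sum_le_sum_abs _ _).trans
    ((sum_le_card_nsmul _ _ _ fun v hv => hi v (mem_filter.1 hv).1).trans ?_))
  rw [nsmul_eq_mul, ← mul_assoc]
  refine mul_le_mul_of_nonneg_right ?_ l0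
  rw [← mul_div_assoc, div_le_iff₀ h0, mul_comm]
  refine mul_le_mul_of_nonneg_left ?_ hε.le
  exact_mod_cast (card_filter_le _ _).trans_eq (card_range _)

end Pool.Agent.MP_39eeea_nt.H96
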