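import Pool.Agent.MP_39eeea_nt.H96.Spec
import Pool.Agent.MP_ca0a54_nt.SC.WIEN

/-! The lemma of Wiener for the correlations of a bounded family. -/

open Complex MeasureTheory Filter Topology

namespace Pool.Agent.MP_39eeea_nt.H96

open Pool.Agent.MP_ca0a54_nt Pool.Agent.MP_ca0a54_nt.SC
open Pool.Agent.MP_ca0a54_nt.BH (ei ei_add norm_ei norm_ei_sub)
open Pool.Agent.MP_ca0a54_nt.SC.WIEN (tp pars pars_sq tp_mul)

open Finset

namespace WIENF

/-- The twisted function. -/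
noncomputable def tw (g0 : ℕ → ℝ) (α : ℝ) (n : ℕ) : ℂ := (g0 n : ℂ) * ei (2 * Real.pi * α * n)

/-- The short sum with the phase starting at `n`. -/
noncomputable def S (g0 : ℕ → ℝ) (K : ℕ) (α : ℝ) (n : ℕ) : ℂ :=
  tp (range K) (fun j => g0 (n + j)) id α

/-- The mean square of the short sums. -/
noncomputable def Ph (g0 : ℕ → ℝ) (K : ℕ) (N : ℕ) (α : ℝ) : ℝ := LS N fun n => ‖S g0 K α n‖ ^ 2

theorem tl : Tendsto (fun i : ℕ × ℕ => lg i.2) Lf atTop := tendsto_lg.comp tendsto_snd_Lf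

variable {g0 : ℕ → ℝ}

theorem norm_S (K : ℕ) (α : ℝ) (n : ℕ) : ‖S g0 K α n‖ = ‖∑ j ∈ range K, tw g0 α (n + j)‖ := by
  have : ∑ j ∈ range K, tw g0 α (n + j) = ei (2 * Real.pi * α * n) * S g0 K α n := by
    rw [S, tp, mul_sum]
    refine sum_congr rfl fun j _ => ?_
    rw [tw, Nat.cast_add, mul_add, ei_add, id]
    ring
  rw [this, norm_mul, norm_ei, one_mul]

theorem norm_S_le (hg : ∀ n, |g0 n| ≤ 1) (K : ℕ) (α : ℝ) (n : ℕ) : ‖S g0 K α n‖ ≤ K := by
  rw [S, tp]
  refine (norm_sum_le _ _).trans ((sum_le_card_nsmul _ _ 1 fun j _ => ?_).trans (by simp))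
  rw [norm_mul, norm_ei, mul_one, norm_real]
  exact hg _

theorem S_blocks (K m : ℕ) (α : ℝ) (n : ℕ) :
    ‖S g0 (m * K) α n‖ ≤ ∑ i ∈ range m, ‖S g0 K α (n + i * K)‖ := by
  induction m with
  | zero => simp [S, tp]
  | succ m ih =>
    rw [sum_range_succ, norm_S, Nat.succ_mul, sum_range_add, norm_S]
    rw [norm_S] at ih
    simp_rw [← add_assoc]
    exact (norm_add_le _ _).trans (by gcongr)

theorem Ph_blocks (hg : ∀ n, |g0 n| ≤ 1) (K m : ℕ) (N : ℕ) (α : ℝ) :
    Ph g0 (m * K) N α ≤ m ^ 2 * Ph g0 K N α + 3 * ((m * K : ℕ) : ℝ) ^ 3 := by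
  calc Ph g0 (m * K) N α ≤ LS N fun n => m * ∑ i ∈ range m, ‖S g0 K α (n + i * K)‖ ^ 2 := by
        refine LS_mono fun n _ _ => ?_
        refine (pow_le_pow_left₀ (norm_nonneg _) (S_blocks K m α n) 2).trans ?_
        simpa using sq_sum_le_card_mul_sum_sq (s := range m) (f := fun i => ‖S g0 K α (n + i * K)‖)
    _ ≤ m * ∑ i ∈ range m, (Ph g0 K N α + 3 * (m * K) * K ^ 2) := by
        rw [LS_mul, LS_sum]
        gcongr with i hi
        have h := LS_shift (f := fun n => ‖S g0 K α n‖ ^ 2) (B := K ^ 2) (fun n => by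
          rw [abs_of_nonneg (by positivity)]
          exact pow_le_pow_left₀ (norm_nonneg _) (norm_S_le hg K α n) 2) N (i * K)
        have h2 : (3 : ℝ) * (i * K : ℕ) * K ^ 2 ≤ 3 * (m * K) * K ^ 2 := by
          have : (i : ℝ) ≤ m := by exact_mod_cast (mem_range.1 hi).le
          push_cast
          gcongr
        unfold Ph
        linarith [(abs_le.1 h).2]
    _ = _ := by
        rw [sum_const, card_range, nsmul_eq_mul]
        push_cast
        ring

theorem S_lip (hg : ∀ n, |g0 n| ≤ 1) (K : ℕ) (α β : ℝ) (n : ℕ) : ‖S g0 K α n - S g0 K β n‖ ≤ 7 * K * |α - β| * K := by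
  rw [S, S, tp, tp, ← sum_sub_distrib]
  refine (norm_sum_le _ _).trans ((sum_le_card_nsmul _ _ (7 * K * |α - β|) fun j hj => ?_).trans
    (by simp [mul_comm]))
  have hj' : (j : ℝ) ≤ K := by exact_mod_cast (mem_range.1 hj).le
  rw [← mul_sub, norm_mul, norm_real]
  refine (mul_le_of_le_one_left (norm_nonneg _) (hg _)).trans ((norm_ei_sub _ _).trans ?_)
  rw [id, show 2 * Real.pi * α * j - 2 * Real.pi * β * j = 2 * Real.pi * j * (α - β) by ring,
    abs_mul, abs_of_nonneg (by positivity)]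
  gcongr
  linarith [Real.pi_lt_d2]

theorem unif {g : ℕ → ℕ → ℝ} (hg : Bd g) (h : ∀ α : ℝ, ShortF g α)
    {η : ℝ} (hη : 0 < η) : ∃ K₀ : ℕ, 1 ≤ K₀ ∧ ∀ m : ℕ,
    ∀ᶠ i in Lf, ∀ α ∈ Set.Icc (0 : ℝ) 1,
      Ph (g i.1) (m * K₀) i.2 α ≤ 7 * η ^ 2 * ((m * K₀ : ℕ) : ℝ) ^ 2 * lg i.2 := by
  have h1 : ∀ α : ℝ, ∃ K : ℕ, 1 ≤ K ∧ ∀ᶠ i in Lf,
      Ph (g i.1) K i.2 α ≤ η ^ 2 * K ^ 2 * lg i.2 := fun α => by
    obtain ⟨K, hK⟩ := ((eventually_ge_atTop 1).and (h α (η ^ 2) (by positivity))).exists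
    refine ⟨K, hK.1, hK.2.mono fun i hN => ?_⟩
    simpa only [Ph, norm_S, tw] using hN
  choose K hK1 hK using h1
  obtain ⟨t, -, ht⟩ := (isCompact_Icc (a := (0 : ℝ)) (b := 1)).elim_nhds_subcover
    (fun α => Metric.ball α (η / (7 * K α))) fun α _ => Metric.ball_mem_nhds α (by
      have := hK1 α
      positivity)
  refine ⟨∏ α ∈ t, K α, one_le_prod' fun α _ => hK1 α, fun m => ?_⟩
  filter_upwards [(eventually_all_finset t).2 fun α _ => hK α, tl.eventually_ge_atTop 1,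
    tl.eventually_ge_atTop (3 * ((m * ∏ α ∈ t, K α : ℕ) : ℝ) / η ^ 2)]
    with i hN l1 l2 α hα
  obtain ⟨β, hβ, hαβ⟩ := Set.mem_iUnion₂.1 (ht hα)
  obtain ⟨r, hr⟩ : K β ∣ m * ∏ α ∈ t, K α := (dvd_prod_of_mem K hβ).mul_left m
  rw [hr, mul_comm (K β)] at l2 ⊢
  have hK0 : (0 : ℝ) < K β := by exact_mod_cast hK1 β
  rw [Metric.mem_ball, Real.dist_eq, lt_div_iff₀ (by positivity)] at hαβ
  rw [div_le_iff₀ (by positivity)] at l2
  have h2 : Ph (g i.1) (K β) i.2 α ≤ 2 * Ph (g i.1) (K β) i.2 β + 2 * (η * K β) ^ 2 * (1 + lg i.2) := by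
    calc _ ≤ LS i.2 fun n => 2 * ‖S (g i.1) (K β) β n‖ ^ 2 + 2 * (η * K β) ^ 2 * 1 := by
          refine LS_mono fun n _ _ => ?_
          have h3 : ‖S (g i.1) (K β) α n‖ ≤ ‖S (g i.1) (K β) β n‖ + η * K β := by
            have h4 := S_lip (hg i.1) (K β) α β n
            have h5 := norm_sub_norm_le (S (g i.1) (K β) α n) (S (g i.1) (K β) β n)
            nlinarith
          nlinarith [pow_le_pow_left₀ (norm_nonneg _) h3 2, sq_nonneg (‖S (g i.1) (K β) β n‖ - η * K β)]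
      _ ≤ _ := by
          rw [LS_add, LS_mul, LS_mul]
          gcongr
          · exact le_rfl
          · exact LS_one_le i.2
  have h3 : Ph (g i.1) (K β) i.2 α ≤ 6 * η ^ 2 * K β ^ 2 * lg i.2 := by
    nlinarith [hN β hβ, mul_le_mul_of_nonneg_left l1 (sq_nonneg (η * K β))]
  refine (Ph_blocks (hg i.1) _ _ _ _).trans ?_
  have h4 := mul_le_mul_of_nonneg_left h3 (sq_nonneg (r : ℝ))
  have h5 := mul_le_mul_of_nonneg_left l2 (sq_nonneg ((r * K β : ℕ) : ℝ))
  push_cast at h5 ⊢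
  nlinarith

theorem core (hg : ∀ n, |g0 n| ≤ 1) (K K' : ℕ) (N : ℕ) (hK : 2 * K ≤ K') {B θ : ℝ} (hθ : 0 < θ) (hK0 : 0 < K)
    (hB : ∀ α ∈ Set.Icc (0 : ℝ) 1, Ph g0 K' N α ≤ B) :
    K * ∑ k ∈ Icc 1 K, LS N (fun n => g0 n * g0 (n + k)) ^ 2 ≤
      θ * B * ∑ k ∈ Icc 1 K, LS N (fun n => g0 n * g0 (n + k)) ^ 2 +
        (K' / (4 * θ) + 3 * K * K' ^ 2) * (1 + lg N) := by
  set y : ℕ → ℝ := fun k => LS N fun n => g0 n * g0 (n + k) with hy
  set V := ∑ k ∈ Icc 1 K, y k ^ 2 with hV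
  set M := 2 * K' with hM
  have hM0 : (0 : ℝ) < M := by exact_mod_cast (by omega : 0 < M)
  have hl : ∀ m n, |g0 m * g0 n| ≤ 1 := fun m n => by
    rw [abs_mul]
    exact mul_le_one₀ (hg _) (abs_nonneg _) (hg _)
  have hL : 0 ≤ 1 + lg N := by have := lg_nonneg N; linarith
  have hy1 : ∀ k, |y k| ≤ 1 + lg N := fun k => abs_le.2 ⟨by
    have := LS_le (N := N) (f := fun n => -1 * (g0 n * g0 (n + k))) zero_le_one
      fun n _ _ => by linarith [(abs_le.1 (hl n (n + k))).1]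
    rw [LS_mul] at this
    simp only [hy]
    linarith, by
    simpa using LS_le (N := N) zero_le_one fun n _ _ => (abs_le.1 (hl n (n + k))).2⟩
  let Y : ℝ → ℂ := tp (Icc 1 K) y id
  let A : ℕ → ℝ := fun n => ∑ x ∈ range K' ×ˢ Icc 1 K,
    (if x.1 + x.2 < K' then y x.2 else 0) * (g0 (n + x.1) * g0 (n + x.1 + x.2))
  have h1 : ∀ n, M * A n ≤ ∑ a ∈ range M, (θ * ‖Y (a / M)‖ ^ 2) * ‖S g0 K' (a / M) n‖ ^ 2 +
      M * K' / (4 * θ) * 1 := by
    intro n
    have h := pars (M := M) (range K') (range K' ×ˢ Icc 1 K) (fun j => g0 (n + j))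
      (fun x => g0 (n + x.1) * y x.2) id (fun x => id x.1 + id x.2)
      (fun i hi => by have := mem_range.1 hi; simp only [id]; omega) fun l hl => by
        have h1 := mem_range.1 (mem_product.1 hl).1
        have h2 := (mem_Icc.1 (mem_product.1 hl).2).2
        simp only [id]
        omega
    simp_rw [← tp_mul (range K') (Icc 1 K) (fun j => g0 (n + j)) y id id] at h
    have hA : ∑ l ∈ range K' ×ˢ Icc 1 K, ∑ i ∈ range K', (if id i = id l.1 + id l.2 then
        g0 (n + i) * (g0 (n + l.1) * y l.2) else 0) = A n := by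
      refine sum_congr rfl fun x _ => ?_
      simp only [id, sum_ite_eq', mem_range, add_assoc]
      split_ifs <;> ring
    rw [hA] at h
    have h2 := pars_sq (M := M) (range K') (fun j => g0 (n + j))
      fun i hi => by have := mem_range.1 hi; omega
    have h3 : ∑ i ∈ range K', g0 (n + i) ^ 2 ≤ K' :=
      (sum_le_card_nsmul _ _ 1 fun i _ => (sq_le_one_iff_abs_le_one _).2 (hg _)).trans
        (by simp)
    calc M * A n ≤ ‖((M * A n : ℝ) : ℂ)‖ := by rw [norm_real]; exact le_abs_self _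
      _ ≤ ∑ a ∈ range M, ((θ * ‖Y (a / M)‖ ^ 2) * ‖S g0 K' (a / M) n‖ ^ 2 +
            1 / (4 * θ) * ‖S g0 K' (a / M) n‖ ^ 2) := by
          rw [← h]
          refine norm_sum_le_of_le _ fun a _ => ?_
          rw [norm_mul, RCLike.norm_conj, norm_mul, ← mul_assoc, ← sq, ← add_mul, mul_comm]
          refine mul_le_mul_of_nonneg_right ?_ (sq_nonneg _)
          have h4 : θ * ‖Y (a / M)‖ ^ 2 + 1 / (4 * θ) - ‖Y (a / M)‖ =
              θ * (‖Y (a / M)‖ - 1 / (2 * θ)) ^ 2 := by field_simp; ring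
          have h5 : 0 ≤ θ * (‖Y (a / M)‖ - 1 / (2 * θ)) ^ 2 := by positivity
          exact sub_nonneg.1 (h4 ▸ h5)
      _ ≤ _ := by
          rw [sum_add_distrib, ← mul_sum]
          unfold S
          rw [h2, mul_one, mul_comm (1 / (4 * θ)), mul_one_div]
          gcongr
  have h2 : M * LS N A ≤ M * (θ * B * V + K' / (4 * θ) * (1 + lg N)) := by
    have h := LS_mono (N := N) fun n _ _ => h1 n
    rw [LS_mul, LS_add, LS_mul, LS_sum N (range M)] at h
    have h3 := pars_sq (M := M) (Icc 1 K) y fun i hi => by have := (mem_Icc.1 hi).2; omega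
    refine h.trans ?_
    calc _ ≤ ∑ a ∈ range M, θ * B * ‖Y (a / M)‖ ^ 2 + M * K' / (4 * θ) * (1 + lg N) := by
          gcongr with a ha
          · rw [LS_mul, mul_right_comm θ B]
            refine mul_le_mul_of_nonneg_left (hB _ ⟨by positivity, ?_⟩) (by positivity)
            rw [div_le_one hM0]
            exact_mod_cast (mem_range.1 ha).le
          · exact LS_one_le N
      _ = _ := by
          rw [← mul_sum, h3]
          ring
  have h3 : K * V - 3 * K * K' ^ 2 * (1 + lg N) ≤ LS N A := by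
    rw [LS_sum]
    calc _ ≤ ∑ x ∈ range K' ×ˢ Icc 1 K, ((if x.1 < K then y x.2 ^ 2 else 0) -
            3 * K' * (1 + lg N)) := by
          rw [sum_sub_distrib, sum_const, card_product, card_range, Nat.card_Icc, sum_product]
          simp_rw [sum_ite_irrel, sum_const_zero]
          rw [← sum_filter, sum_const, show (range K').filter (· < K) = range K by
            ext i
            simp only [mem_filter, mem_range]
            omega]
          simp only [card_range, nsmul_eq_mul, Nat.add_sub_cancel, Nat.cast_mul]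
          exact le_of_eq (by ring)
      _ ≤ _ := sum_le_sum fun x hx => ?_
    rw [LS_mul]
    have x1 : (x.1 : ℝ) ≤ K' := by exact_mod_cast (mem_range.1 (mem_product.1 hx).1).le
    have x2 := (mem_Icc.1 (mem_product.1 hx).2).2
    have h := LS_shift (f := fun n => g0 n * g0 (n + x.2)) (fun n => hl _ _) N x.1
    have h4 : |y x.2 * (LS N (fun n => g0 (n + x.1) * g0 (n + x.1 + x.2)) - y x.2)| ≤
        3 * K' * (1 + lg N) := by
      rw [abs_mul, mul_comm]
      exact mul_le_mul (h.trans (by linarith)) (hy1 _) (abs_nonneg _) (by positivity)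
    have h5 := (abs_le.1 h4).1
    have h6 : (0 : ℝ) ≤ 3 * K' * (1 + lg N) := by positivity
    split_ifs with c1 c2 c2
    · nlinarith
    · omega
    · nlinarith [sq_nonneg (y x.2)]
    · linarith
  have h4 := le_of_mul_le_mul_left h2 hM0
  linarith

end WIENF

open WIENF in
theorem wienF : WienStmt := by
  intro g hg h δ hδ
  obtain ⟨K₀, hK₀, hU⟩ := unif hg h (η := √(δ / 756)) (by positivity)
  rw [Real.sq_sqrt (by positivity)] at hU
  filter_upwards [eventually_ge_atTop K₀] with K hK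
  filter_upwards [hU (2 * K / K₀ + 1), tl.eventually_ge_atTop 1,
    tl.eventually_ge_atTop (216 * K / δ)] with i hN l1 l2
  set K' := (2 * K / K₀ + 1) * K₀ with hK'
  have k1 : 2 * K ≤ K' := by
    rw [hK', mul_comm _ K₀]
    exact (Nat.lt_mul_div_succ _ hK₀).le
  have k2 : K' ≤ 3 * K := by
    have := Nat.div_mul_le_self (2 * K) K₀
    rw [hK', add_mul]
    omega
  have k0 : (0 : ℝ) < K := by exact_mod_cast hK₀.trans hK
  have k3 : (0 : ℝ) < K' := by exact_mod_cast (by omega : 0 < K')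
  have k4 : (K' : ℝ) ≤ 3 * K := by exact_mod_cast k2
  set l := lg i.2 with hl
  have hc := core (hg i.1) K K' i.2 k1 (θ := K / (2 * (7 * (δ / 756) * K' ^ 2 * l))) (by positivity)
    (hK₀.trans hK) hN
  set V := ∑ k ∈ Icc 1 K, LS i.2 (fun n => g i.1 n * g i.1 (n + k)) ^ 2
  rw [div_le_iff₀ hδ] at l2
  have e1 : K / (2 * (7 * (δ / 756) * K' ^ 2 * l)) * (7 * (δ / 756) * K' ^ 2 * l) * V =
      K * V / 2 := by field_simp
  have e2 : K' / (4 * (K / (2 * (7 * (δ / 756) * K' ^ 2 * l)))) = δ / 216 * K' ^ 3 * l / K := by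
    field_simp
    norm_num
  have e3 : δ / 216 * K' ^ 3 * l / K ≤ δ / 8 * K ^ 2 * l := by
    rw [div_le_iff₀ k0]
    calc _ ≤ δ / 216 * (3 * K) ^ 3 * l := by gcongr
      _ = _ := by ring
  have e4 : (3 : ℝ) * K * K' ^ 2 ≤ δ / 8 * K ^ 2 * l := by
    calc _ ≤ (3 : ℝ) * K * (3 * K) ^ 2 := by gcongr
      _ = K ^ 2 / 8 * (216 * K) := by ring
      _ ≤ K ^ 2 / 8 * (l * δ) := by gcongr
      _ = _ := by ring
  rw [e1, e2, ← hl] at hc
  have e5 : (δ / 216 * K' ^ 3 * l / K + 3 * K * K' ^ 2) * (1 + l) ≤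
      (δ / 8 * K ^ 2 * l + δ / 8 * K ^ 2 * l) * (2 * l) := by
    gcongr
    linarith
  refine le_of_mul_le_mul_left ?_ k0
  nlinarith

end Pool.Agent.MP_39eeea_nt.H96
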