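import Pool.Agent.MP_39eeea_nt.H96.AVGF
import Pool.Agent.MP_39eeea_nt.H96.CORES
import Pool.Agent.MP_39eeea_nt.H96.IRRF
import Pool.Agent.MP_39eeea_nt.H96.LAST
import Pool.Agent.MP_39eeea_nt.H96.MEAN
import Pool.Agent.MP_39eeea_nt.H96.MRB
import Pool.Agent.MP_39eeea_nt.H96.NPC
import Pool.Agent.MP_39eeea_nt.H96.ONE
import Pool.Agent.MP_39eeea_nt.H96.RATF
import Pool.Agent.MP_39eeea_nt.H96.SMALL
import Pool.Agent.MP_39eeea_nt.H96.TWO
import Pool.Agent.MP_39eeea_nt.H96.UUU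
import Pool.Agent.MP_39eeea_nt.H96.WIENF
import Pool.Agent.MP_ca0a54_nt.H78M.Fin
import Pool.Agent.MP_ca0a54_nt.BH.SEL
import Pool.Agent.MP_ca0a54_nt.BH.SLOW
import Pool.Agent.MP_ca0a54_nt.BH.TWIN

/-! The assembly, for two arbitrary linear forms. -/

open Filter Finset

namespace Pool.Agent.MP_39eeea_nt.H96

open Pool.Agent.MP_ca0a54_nt Pool.Agent.MP_ca0a54_nt.SC
open Pool.Agent.MP_ca0a54_nt.BH (lam)
open LAST (Av)

theorem unif {g : ℕ → ℕ → ℝ} (hb : Bd g) (hs : Stab g) (hm : MRc g) : Unif g := by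
  have h : ∀ α : ℝ, ShortF g α := fun α => by
    by_cases h : Irrational α
    · exact irrF g hb hs α h
    · obtain ⟨q, rfl⟩ := not_not.1 h
      exact ratF g hb hs hm q
  exact ⟨one g hb (ratF g hb hs hm), fun f bf sf => two coreS f g bf hb sf hs
    (avgF (BH.TWIN.twin' BH.SEL.sel BH.SLOW.slow BH.SEL.phi) g hb (wienF g hb h))⟩

open H78M in
theorem uuu : UuUStmt :=
  uuU (gm mvt) (dec (gm mvt)) mer ga (bes ga) (hv ga (hm (ker lip sel))) spl (den mer) (eul mer)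

open H78M in
theorem mrl' : MrlStmt :=
  mrl (tt (amp (gm mvt)) (dec (gm mvt)) mer par) uuu (tail (amp (gm mvt))) (shs ga)
    (np (cosl (zb weyl) mer))

open H78M in
theorem mrb' : MrbStmt :=
  mrb (tt (amp (gm mvt)) (dec (gm mvt)) mer par) uuu (tail (amp (gm mvt))) (shs ga)
    (npc (cosl (zb weyl) mer)) (mean mer) small

theorem unif_lam : Unif fun _ => lam := unif bd_lam stab_lam mrl'.1

theorem unif_Bl {β : ℝ} (h1 : 1 / 2 < β) (h2 : β < 1) : Unif (Bl β) :=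
  unif (bd_Bl β) (stab_Bl (by linarith)) (mrl'.2 β h1 h2)

theorem unif_Bc {β : ℝ} (h1 : 1 / 2 < β) (h2 : β < 1) : Unif (Bc β) :=
  unif (bd_Bc h1 h2) (stab_Bc (by linarith)) (mrb' β h1 h2)

namespace FIN

variable {q a : ℕ}

theorem av_of {G : ℕ → ℕ → ℝ} {D : ℕ} (hD : 1 ≤ D) (h : ∀ ε : ℝ, 0 < ε → ∀ᶠ i in Lf,
    |LS i.2 fun m => if m ≡ D * a [MOD D * q] then G i.1 m else 0| ≤ ε * lg i.2) :
    Av q a (fun X n => G X (D * n)) 0 := by
  have key : ∀ X, LS (D * X) (fun m => if m ≡ D * a [MOD D * q] then G X m else 0) =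
      LS X fun n => if n ≡ a [MOD q] then G X (D * n) else 0 := by
    intro X
    have h1 := sum_dvd (fun m => if m ≡ D * a [MOD D * q] then G X m else 0) (D * X) hD
    rw [Nat.mul_div_cancel_left X hD] at h1
    refine Eq.trans (sum_congr rfl fun m _ => ?_) (h1.trans (sum_congr rfl fun n _ => ?_))
    · by_cases e : D ∣ m
      · rw [if_pos e]
      · rw [if_neg e]
        exact if_neg fun e' => e ((Nat.ModEq.dvd_iff e' (dvd_mul_right D q)).2 (dvd_mul_right D a))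
    · simp only [Nat.ModEq.mul_left_cancel_iff' (show D ≠ 0 by omega)]
  refine Metric.tendsto_nhds.2 fun ε hε => ?_
  have hD' : (0 : ℝ) < D := by exact_mod_cast hD
  filter_upwards [(tendsto_diag D hD).eventually (h (ε / 2 / D) (by positivity)),
    eventually_gt_atTop 0] with X h1 hX
  have hX' : (0 : ℝ) < X := Nat.cast_pos.2 hX
  simp only [key, lg, Nat.cast_mul] at h1
  rw [← mul_assoc, div_mul_cancel₀ _ hD'.ne'] at h1
  rw [Real.dist_0_eq_abs, abs_div, abs_of_pos hX', div_lt_iff₀ hX']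
  nlinarith

theorem av_congr {F G : ℕ → ℕ → ℝ} {c : ℝ} (h : Av q a F c) (e : ∀ᶠ X in atTop, F X = G X) :
    Av q a G c := Tendsto.congr' (e.mono fun X hX => by simp only [hX]) h

theorem av_one {g : ℕ → ℕ → ℝ} (h : OneF g) (hq : 0 < q) (a : ℕ) {D : ℕ} (hD : 1 ≤ D) (b : ℕ) :
    Av q a (fun X n => g X (D * n + b)) 0 :=
  av_of (G := fun X m => g X (m + b)) hD fun ε hε => h _ _ b ε (Nat.mul_pos hD hq) hε

theorem av_two {f g : ℕ → ℕ → ℝ} (bf : Bd f) (sf : Stab f) (bg : Bd g) (sg : Stab g) (h : Unif g)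
    (hq : 0 < q) (a : ℕ) {a₁ b₁ a₂ b₂ : ℕ} (h1 : 1 ≤ a₁) (h2 : 1 ≤ a₂) (hd : a₂ * b₁ < a₁ * b₂) :
    Av q a (fun X n => f X (a₁ * n + b₁) * g X (a₂ * n + b₂)) 0 := by
  obtain ⟨r, hr⟩ := Nat.exists_eq_add_of_lt hd
  obtain ⟨s, s1, s2⟩ := sf a₂ h2
  obtain ⟨t, t1, t2⟩ := sg a₁ h1
  have hD : 1 ≤ a₁ * a₂ := Nat.mul_pos h1 h2
  have h3 := av_of (q := q) (a := a)
    (G := fun X m => f X (m + a₂ * b₁) * g X (m + a₂ * b₁ + (r + 1))) hD fun ε hε => by
      filter_upwards [h.2 f bf sf (a₁ * a₂ * q) (a₁ * a₂ * a + a₂ * b₁) (r + 1) (ε / 2)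
        (Nat.mul_pos hD hq) (by omega) (half_pos hε), (tendsto_lg.comp
          tendsto_snd_Lf).eventually_ge_atTop (6 * (a₂ * b₁ : ℕ) / ε)] with i a1 a2
      have a3 := LS_shift (fun n => TWO.abs_cr (q := a₁ * a₂ * q) (u := a₁ * a₂ * a + a₂ * b₁)
        (r := r + 1) (bf i.1) (bg i.1) n) i.2 (a₂ * b₁)
      have e : ∀ n u j Q : ℕ, n + j ≡ u + j [MOD Q] ↔ n ≡ u [MOD Q] := fun n u j Q =>
        ⟨Nat.ModEq.add_right_cancel' j, fun h => h.add_right j⟩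
      simp only [TWO.cr, e] at a3
      rw [Function.comp_apply, div_le_iff₀ hε] at a2
      refine (abs_sub_abs_le_abs_sub _ _).trans a3 |> sub_le_iff_le_add.1 |>.trans ?_
      refine (add_le_add le_rfl a1).trans ?_
      linarith
  have h4 := av_congr (h3.mul (s * t)) (G := fun X n => f X (a₁ * n + b₁) * g X (a₂ * n + b₂)) (by
    filter_upwards [s2, t2] with X e1 e2
    funext n
    rw [show a₁ * a₂ * n + a₂ * b₁ + (r + 1) = a₁ * (a₂ * n + b₂) by linarith,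
      show a₁ * a₂ * n + a₂ * b₁ = a₂ * (a₁ * n + b₁) by ring, e1, e2]
    rcases s1 with rfl | rfl <;> rcases t1 with rfl | rfl <;> ring)
  rwa [mul_zero] at h4

/-- The indicator of one of the two alternatives. -/
noncomputable def alt (c : Bool) (β : ℝ) (X n : ℕ) : ℝ := if c then Bf β X n else 1 - Bf β X n

theorem bd_alt (c : Bool) (β : ℝ) : Bd (alt c β) := fun X n => by
  have a3 := big_nonneg ((X : ℝ) ^ β) n
  have a4 := big_le_one ((X : ℝ) ^ β) n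
  unfold alt Bf
  split_ifs <;> exact abs_le.2 ⟨by linarith, by linarith⟩

theorem stab_alt (c : Bool) {β : ℝ} (hβ : 0 < β) : Stab (alt c β) := fun d hd =>
  ⟨1, Or.inl rfl, (ev_pow hβ d).mono fun _ hX m => by
    rw [one_mul, alt, alt, Bf, Bf, big_mul hd hX m]⟩

theorem bd_lalt (c : Bool) (β : ℝ) : Bd fun X n => lam n * alt c β X n := fun X n => by
  rw [abs_mul]
  exact mul_le_one₀ (BH.abs_lam_le n) (abs_nonneg _) (bd_alt c β X n)

theorem stab_lalt (c : Bool) {β : ℝ} (hβ : 0 < β) : Stab fun X n => lam n * alt c β X n :=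
  fun d hd => ⟨lam d, lam_sign hd, (ev_pow hβ d).mono fun _ hX m => by
    dsimp only
    rw [alt, alt, Bf, Bf, big_mul hd hX m, BH.lam_mul, mul_assoc]⟩

theorem alt_eq (c : Bool) (β : ℝ) : ∃ x y : ℝ, (∀ X n, alt c β X n = x + y * Bf β X n) ∧
    (if c then Real.log (1 / β) else 1 - Real.log (1 / β)) = x + y * Real.log (1 / β) := by
  cases c
  · exact ⟨1, -1, fun X n => by simp [alt, sub_eq_add_neg], by simp [sub_eq_add_neg]⟩
  · exact ⟨0, 1, fun X n => by simp [alt], by simp⟩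

theorem alt_ind (c : Bool) (β : ℝ) (X n : ℕ) :
    (((∃ p : ℕ, p.Prime ∧ p ∣ n ∧ (X : ℝ) ^ β < p) ↔ c = true) → alt c β X n = 1) ∧
    (¬ ((∃ p : ℕ, p.Prime ∧ p ∣ n ∧ (X : ℝ) ^ β < p) ↔ c = true) → alt c β X n = 0) := by
  unfold alt Bf big
  by_cases h : ∃ p : ℕ, p.Prime ∧ p ∣ n ∧ (X : ℝ) ^ β < p
  · rw [if_pos h]
    cases c <;> simp [h]
  · rw [if_neg h]
    cases c <;> simp [h]

open Classical in
theorem ordered {a₁ b₁ a₂ b₂ : ℕ} (u v : ℕ) {α β : ℝ} (c d : Bool) (hq : 0 < q) (h1 : 1 ≤ a₁)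
    (h2 : 1 ≤ a₂) (hd : a₂ * b₁ < a₁ * b₂) (a1 : 1 / 2 < α) (a2 : α < 1) (b1 : 1 / 2 < β)
    (b2 : β < 1) :
    Tendsto (fun X : ℕ => (((Icc 1 X).filter fun n => n ≡ a [MOD q] ∧
      (ArithmeticFunction.cardFactors (a₁ * n + b₁) ≡ u [MOD 2] ∧
      ((∃ p : ℕ, p.Prime ∧ p ∣ a₁ * n + b₁ ∧ (X : ℝ) ^ α < p) ↔ c = true)) ∧
      (ArithmeticFunction.cardFactors (a₂ * n + b₂) ≡ v [MOD 2] ∧
      ((∃ p : ℕ, p.Prime ∧ p ∣ a₂ * n + b₂ ∧ (X : ℝ) ^ β < p) ↔ d = true))).card : ℝ) / X) atTop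
      (nhds ((if c then Real.log (1 / α) else 1 - Real.log (1 / α)) *
        (if d then Real.log (1 / β) else 1 - Real.log (1 / β)) / (4 * q))) := by
  have a0 : 0 < α := by linarith
  have b0 : 0 < β := by linarith
  obtain ⟨x, y, e1, e2⟩ := alt_eq c α
  obtain ⟨z, w, e3, e4⟩ := alt_eq d β
  have T := fun {f g : ℕ → ℕ → ℝ} (bf : Bd f) (sf : Stab f) (bg : Bd g) (sg : Stab g)
    (h : Unif g) => av_two bf sf bg sg h hq a h1 h2 hd
  have k1 := ((Av.one hq a).mul (x + y * Real.log (1 / α))).add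
    ((av_one (unif_Bc a1 a2).1 hq a h1 b₁).mul y)
  have k2 := ((av_one unif_lam.1 hq a h1 b₁).mul x).add
    ((av_one (unif_Bl a1 a2).1 hq a h1 b₁).mul y)
  have m1 := (k1.mul (z + w * Real.log (1 / β))).add
    ((T (bd_alt c α) (stab_alt c a0) (bd_Bc b1 b2) (stab_Bc b0) (unif_Bc b1 b2)).mul w)
  have m2 := (k2.mul (z + w * Real.log (1 / β))).add
    ((T (bd_lalt c α) (stab_lalt c a0) (bd_Bc b1 b2) (stab_Bc b0) (unif_Bc b1 b2)).mul w)
  have m3 := ((T (bd_alt c α) (stab_alt c a0) bd_lam stab_lam unif_lam).mul z).add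
    ((T (bd_alt c α) (stab_alt c a0) (bd_Bl β) (stab_Bl b0) (unif_Bl b1 b2)).mul w)
  have m4 := ((T (bd_lalt c α) (stab_lalt c a0) bd_lam stab_lam unif_lam).mul z).add
    ((T (bd_lalt c α) (stab_lalt c a0) (bd_Bl β) (stab_Bl b0) (unif_Bl b1 b2)).mul w)
  have h := ((m1.add (m2.mul ((-1) ^ u))).add
    ((m3.mul ((-1) ^ v)).add (m4.mul ((-1) ^ u * (-1) ^ v)))).mul (1 / 4)
  have h' := av_congr h (G := fun X n =>
      (1 + (-1) ^ u * lam (a₁ * n + b₁)) * alt c α X (a₁ * n + b₁) *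
      ((1 + (-1) ^ v * lam (a₂ * n + b₂)) * alt d β X (a₂ * n + b₂)) / 4)
    (Eventually.of_forall fun X => funext fun n => by
      simp only [e1, e3, Bc, Bl]
      ring)
  rw [e2, e4]
  refine (h'.fin (Eventually.of_forall fun X n hn => ?_)).trans (le_of_eq (congrArg _ ?_))
  · have p1 := LAST.par (n := a₁ * n + b₁) (Nat.add_pos_left (Nat.mul_pos h1 hn) _) u
    have p2 := LAST.par (n := a₂ * n + b₂) (Nat.add_pos_left (Nat.mul_pos h2 hn) _) v
    have p3 := alt_ind c α X (a₁ * n + b₁)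
    have p4 := alt_ind d β X (a₂ * n + b₂)
    refine ⟨fun h => by rw [p1.1 h.1.1, p2.1 h.2.1, p3.1 h.1.2, p4.1 h.2.2]; norm_num, fun h => ?_⟩
    rcases not_and_or.1 h with h | h <;> rcases not_and_or.1 h with h | h
    · rw [p1.2 h]
      ring
    · rw [p3.2 h]
      ring
    · rw [p2.2 h]
      ring
    · rw [p4.2 h]
      ring
  · field_simp
    ring

end FIN

end Pool.Agent.MP_39eeea_nt.H96
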