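import Pool.Agent.MP_39eeea_nt.H96.Spec

/-! Short averages of the Liouville function, with or without a large prime factor. -/

open Filter Finset MeasureTheory

namespace Pool.Agent.MP_39eeea_nt.H96

open Pool.Agent.MP_ca0a54_nt Pool.Agent.MP_ca0a54_nt.SC
open Pool.Agent.MP_ca0a54_nt.BH (lam)
open Pool.Agent.MP_ca0a54_nt.H78M (CM Dq Phi sh)

theorem mrf_of (tail : H78M.TailStmt) (shs : H78M.ShStmt) {a : ℕ → ℕ → ℂ}
    (ha : ∀ X n, ‖a X n‖ ≤ 1) (h : ∀ η : ℝ, 0 < η → ∃ H₀ : ℝ, 1 ≤ H₀ ∧ ∀ᶠ i in Lf,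
      ∫ t in -(i.2 / H₀)..(i.2 / H₀), ‖Phi (a i.1) (i.2 ^ 2) (Real.log i.2) t‖ ^ 2 ≤ η) :
    MRf a := by
  obtain ⟨C, hC0, hC⟩ := shs
  intro η hη
  obtain ⟨ε, hε0, hε1, hε⟩ : ∃ ε : ℝ, 0 < ε ∧ ε ≤ 1 ∧ C * (4 * ε) ≤ η := by
    refine ⟨min 1 (η / (4 * (C + 1))), by positivity, min_le_left _ _, ?_⟩
    calc _ ≤ (C + 1) * (4 * (η / (4 * (C + 1)))) := by
          gcongr
          · linarith
          · exact min_le_right _ _
      _ = η := by field_simp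
  obtain ⟨H₀, hH₀, h1⟩ := h ε hε0
  obtain ⟨h, hh1, h2⟩ := tail H₀ ε hH₀ hε0
  refine ⟨⌈h / ε⌉₊, fun H hH => ?_⟩
  have h3 : h / ε ≤ H := (Nat.le_ceil _).trans (by exact_mod_cast hH)
  have h4 : h ≤ ε * H := by rwa [div_le_iff₀' hε0] at h3
  have h5 : h ≤ H := h4.trans (mul_le_of_le_one_left (Nat.cast_nonneg H) hε1)
  have hH0 : (0 : ℝ) < H := by linarith
  filter_upwards [h1, tendsto_snd_Lf.eventually (eventually_ge_atTop 3),
    tendsto_snd_Lf.eventually (eventually_ge_atTop H), tendsto_snd_Lf.eventually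
      ((tendsto_natCast_atTop_atTop (R := ℝ)).eventually (eventually_ge_atTop (H / ε)))]
    with ⟨X, Y⟩ a1 a3 a4 a5
  simp only at a1 a3 a4 a5 ⊢
  have hX0 : (0 : ℝ) < Y := by positivity
  have c1 := h2 Y (a X) (by omega) (ha X) a1
  have c2 : (h / H) ^ 2 ≤ ε := by
    have : h / H ≤ ε := by rwa [div_le_iff₀ hH0]
    have h0 : 0 ≤ h / H := by positivity
    nlinarith
  have c3 : ((H : ℝ) / Y) ^ 2 ≤ ε := by
    have : (H : ℝ) / Y ≤ ε := by rwa [div_le_iff₀ hX0, ← div_le_iff₀' hε0]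
    have h0 : 0 ≤ (H : ℝ) / Y := by positivity
    nlinarith
  calc _ ≤ C * Y * (4 * ε) := (hC h H Y (a X) hh1 h5 a4 a3 (ha X)).trans (by gcongr; linarith)
    _ = C * (4 * ε) * Y := by ring
    _ ≤ _ := by gcongr

namespace MRL

/-- The indicator of the integers without a prime factor above `y`. -/
noncomputable def sg (y : ℝ) (n : ℕ) : ℂ := 1 - (big y n : ℂ)

theorem cm_sg {f : ℕ → ℂ} (hf : CM f) (y : ℝ) : CM fun n => f n * sg y n := by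
  refine ⟨fun n => ?_, ?_, fun m n => ?_⟩
  · rw [norm_mul]
    refine mul_le_one₀ (hf.1 n) (norm_nonneg _) ?_
    unfold sg big
    split_ifs <;> simp
  · have : ¬∃ p : ℕ, p.Prime ∧ p ∣ 1 ∧ y < p := fun ⟨_, h1, h2, _⟩ => h1.not_dvd_one h2
    simp only [hf.2.1, sg, big, if_neg this]
    simp
  · have key : (∃ p : ℕ, p.Prime ∧ p ∣ m * n ∧ y < p) ↔
        (∃ p : ℕ, p.Prime ∧ p ∣ m ∧ y < p) ∨ ∃ p : ℕ, p.Prime ∧ p ∣ n ∧ y < p := by
      constructor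
      · rintro ⟨p, h1, h2, h3⟩
        exact ((Nat.Prime.dvd_mul h1).1 h2).imp (fun h => ⟨p, h1, h, h3⟩) fun h => ⟨p, h1, h, h3⟩
      · rintro (⟨p, h1, h2, h3⟩ | ⟨p, h1, h2, h3⟩)
        · exact ⟨p, h1, h2.mul_right n, h3⟩
        · exact ⟨p, h1, h2.mul_left m, h3⟩
    simp only [hf.2.2, sg, big]
    by_cases a : ∃ p : ℕ, p.Prime ∧ p ∣ m ∧ y < p
    · rw [if_pos (key.2 (Or.inl a)), if_pos a]; simp
    by_cases b : ∃ p : ℕ, p.Prime ∧ p ∣ n ∧ y < p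
    · rw [if_pos (key.2 (Or.inr b)), if_pos b]; simp
    · rw [if_neg fun c => (key.1 c).elim a b, if_neg a, if_neg b]; simp

theorem Dq_sg (f : ℕ → ℂ) {y : ℝ} {Q : ℕ} (h : (Q : ℝ) ≤ y) (s : ℝ) :
    Dq (fun n => f n * sg y n) Q s = Dq f Q s := by
  refine sum_congr rfl fun p hp => ?_
  rw [mem_filter, mem_Icc] at hp
  have : ¬∃ r : ℕ, r.Prime ∧ r ∣ p ∧ y < r := by
    rintro ⟨r, -, h2, h3⟩
    have : (r : ℝ) ≤ Q := by exact_mod_cast (Nat.le_of_dvd hp.2.pos h2).trans hp.1.2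
    linarith
  simp only [sg, big, if_neg this]
  simp

theorem ev_le {β κ : ℝ} (hβ : 1 / 2 < β) (h0 : 0 < κ) (h1 : κ ≤ 1 / 100) :
    ∀ᶠ i in Lf, (i.2 : ℝ) ^ (2 * κ) ≤ (i.1 : ℝ) ^ β := by
  refine ev_Lf.2 fun K => ?_
  filter_upwards [eventually_ge_atTop K, eventually_ge_atTop 1] with X a1 a2 Y _ b
  have c1 : (Y : ℝ) ≤ (X : ℝ) ^ (2 : ℝ) := by
    rw [Real.rpow_two]
    exact_mod_cast b.trans (by nlinarith)
  have c2 : (1 : ℝ) ≤ X := by exact_mod_cast a2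
  calc (Y : ℝ) ^ (2 * κ) ≤ ((X : ℝ) ^ (2 : ℝ)) ^ (2 * κ) := by gcongr
    _ = (X : ℝ) ^ (2 * (2 * κ)) := (Real.rpow_mul (by linarith) _ _).symm
    _ ≤ _ := Real.rpow_le_rpow_of_exponent_le c2 (by linarith)

theorem intOn (f : ℕ → ℂ) (Z : ℕ) (u : ℝ) {S : Set ℝ} {a b : ℝ} (h : S ⊆ Set.Icc a b) :
    IntegrableOn (fun t => ‖Phi f Z u t‖ ^ 2) S :=
  (((H78M.continuous_Phi f Z u).norm.pow 2).continuousOn.integrableOn_Icc).mono_set h

theorem meas (c : ℝ) : MeasurableSet {t : ℝ | c ≤ |t|} :=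
  (isClosed_le continuous_const continuous_abs).measurableSet

theorem int_eq (F : ℝ → ℝ) {T : ℝ} (h : 0 ≤ T) :
    ∫ t in -T..T, F t = ∫ t in Set.Icc (-T) T, F t := by
  rw [intervalIntegral.integral_of_le (by linarith), integral_Icc_eq_integral_Ioc]

/-- The frequencies away from the origin. -/
theorem off (tt : H78M.TtStmt) (uu : UuUStmt) {η : ℝ} (hη : 0 < η) :
    ∃ H₀ A κ T₀ : ℝ, 1 ≤ H₀ ∧ 0 < κ ∧ κ ≤ 1 / 100 ∧ 0 ≤ T₀ ∧ ∀ᶠ Y : ℕ in atTop,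
      ∀ (f : ℕ → ℂ) (b : ℝ), CM f → b = 0 ∨ b = 1 →
      (∀ s : ℝ, b ≤ |s| → |s| ≤ 2 * Y → ∀ Q : ℕ, (Y : ℝ) ^ κ ≤ Q → (Q : ℝ) ≤ (Y : ℝ) ^ (2 * κ) →
        A ≤ Dq f Q s) →
      ∫ t in Set.Icc (-(Y / H₀)) (Y / H₀) ∩ {t : ℝ | b * T₀ ≤ |t|},
        ‖Phi f (Y ^ 2) (Real.log Y) t‖ ^ 2 ≤ η := by
  obtain ⟨H₀, hH₀, h1⟩ := tt (η / 2) (by positivity)
  obtain ⟨A, κ, T₀, k0, k1, k2, h2⟩ := uu (η / 2) (by positivity)
  refine ⟨H₀, A, κ, T₀, hH₀, k0, k1, k2, ?_⟩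
  filter_upwards [h1, h2, (tendsto_natCast_atTop_atTop (R := ℝ)).eventually
    (eventually_ge_atTop (T₀ * H₀))] with Y a1 a2 a3 f b hf hb hn
  obtain ⟨U, b1, b2, b3, b4⟩ := a1 f hf
  have c0 : T₀ ≤ Y / H₀ := by rwa [le_div_iff₀ (by linarith)]
  have c1 := a2 f b hf hb hn (U ∩ {t : ℝ | b * T₀ ≤ |t|}) (b1.inter (meas _))
    (Set.inter_subset_left.trans b2) ((measureReal_mono Set.inter_subset_left
      ((measure_mono b2).trans_lt measure_Icc_lt_top).ne).trans b3) fun t ht => ht.2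
  rw [int_eq _ (by linarith), ← integral_inter_add_sdiff (meas (b * T₀))
    (intOn _ _ _ subset_rfl), ← integral_inter_add_sdiff (meas (b * T₀)) (intOn _ _ _ b2)] at b4
  have c2 : ∫ t in U \ {t : ℝ | b * T₀ ≤ |t|}, ‖Phi f (Y ^ 2) (Real.log Y) t‖ ^ 2 ≤
      ∫ t in Set.Icc (-(Y / H₀)) (Y / H₀) \ {t : ℝ | b * T₀ ≤ |t|},
        ‖Phi f (Y ^ 2) (Real.log Y) t‖ ^ 2 := by
    refine setIntegral_mono_set (intOn _ _ _ Set.sdiff_subset)
      (Eventually.of_forall fun t => by positivity) (LE.le.eventuallyLE fun t ht => ?_)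
    refine ⟨abs_le.1 ?_, ht.2⟩
    have : |t| < b * T₀ := not_le.1 ht.2
    rcases hb with rfl | rfl <;> linarith
  linarith

theorem two (u v : ℕ → ℂ) {α : ℂ} (hα : ‖α‖ ≤ 1) (Z : ℕ) (w : ℝ) {S : Set ℝ} {a b η : ℝ}
    (h : S ⊆ Set.Icc a b) (hu : ∫ t in S, ‖Phi u Z w t‖ ^ 2 ≤ η)
    (hv : ∫ t in S, ‖Phi v Z w t‖ ^ 2 ≤ η) :
    ∫ t in S, ‖Phi (fun n => α * u n - v n) Z w t‖ ^ 2 ≤ 4 * η := by
  have key : ∀ t, ‖Phi (fun n => α * u n - v n) Z w t‖ ^ 2 ≤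
      2 * ‖Phi u Z w t‖ ^ 2 + 2 * ‖Phi v Z w t‖ ^ 2 := fun t => by
    have e : Phi (fun n => α * u n - v n) Z w t = α * Phi u Z w t - Phi v Z w t := by
      simp only [Phi, H78M.ps, H78M.dv, mul_sum, ← sum_sub_distrib]
      exact sum_congr rfl fun n _ => by ring
    have a1 : ‖α * Phi u Z w t - Phi v Z w t‖ ≤ ‖Phi u Z w t‖ + ‖Phi v Z w t‖ := by
      refine (norm_sub_le _ _).trans (add_le_add_left ?_ _)
      rw [norm_mul]
      exact mul_le_of_le_one_left (norm_nonneg _) hα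
    rw [e]
    nlinarith [sq_nonneg (‖Phi u Z w t‖ - ‖Phi v Z w t‖), norm_nonneg (α * Phi u Z w t -
      Phi v Z w t)]
  have i1 := (intOn u Z w h).const_mul 2
  have i2 := (intOn v Z w h).const_mul 2
  refine (integral_mono (intOn _ Z w h) (i1.add i2) key).trans ?_
  simp only [Pi.add_apply]
  rw [integral_add i1 i2, integral_const_mul, integral_const_mul]
  linarith

theorem inter_zero (S : Set ℝ) (T : ℝ) : S ∩ {t : ℝ | 0 * T ≤ |t|} = S := by simp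

end MRL

open MRL in
theorem mrl (tt : H78M.TtStmt) (uu : UuUStmt) (tail : H78M.TailStmt) (shs : H78M.ShStmt)
    (np : H78M.NpStmt) : MrlStmt := by
  have e : ∀ (q : ℕ) (χ : DirichletCharacter ℂ q) (n : ℕ), (lam n : ℂ) * χ n = H78M.lc χ n :=
    fun q χ n => by rw [lam, H78M.lc, H78M.lam, Complex.ofReal_intCast]
  refine ⟨fun q χ hq => ?_, fun β h1 h2 q χ hq => ?_⟩
  · simp only [e]
    refine mrf_of tail shs (fun _ => (H78M.cm_lc χ).1) fun η hη => ?_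
    obtain ⟨H₀, A, κ, T₀, k0, k1, -, -, h⟩ := off tt uu hη
    refine ⟨H₀, k0, ?_⟩
    filter_upwards [tendsto_snd_Lf.eventually h, tendsto_snd_Lf.eventually (np q χ hq A κ k1)]
      with i a1 a2
    rw [int_eq _ (by positivity), ← inter_zero (Set.Icc _ _) T₀]
    exact a1 _ 0 (H78M.cm_lc χ) (Or.inl rfl) fun s _ hs Q hQ _ => a2 s hs Q hQ
  · have e2 : (fun X n => (Bl β X n : ℂ) * χ n) = fun (X : ℕ) n =>
        1 * H78M.lc χ n - H78M.lc χ n * sg ((X : ℝ) ^ β) n := by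
      funext X n
      rw [← e, Bl, Bf, sg]
      push_cast
      ring
    refine mrf_of tail shs (fun X n => ?_) fun η hη => ?_
    · rw [norm_mul, Complex.norm_real]
      exact mul_le_one₀ (bd_Bl β X n) (norm_nonneg _) (χ.norm_le_one _)
    obtain ⟨H₀, A, κ, T₀, k0, k1, k2, -, h⟩ := off tt uu (show 0 < η / 4 by positivity)
    refine ⟨H₀, k0, ?_⟩
    filter_upwards [tendsto_snd_Lf.eventually h, tendsto_snd_Lf.eventually (np q χ hq A κ k1),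
      ev_le h1 k1 k2] with i a1 a2 a3
    rw [int_eq _ (by positivity), ← inter_zero (Set.Icc _ _) T₀, congrFun e2 i.1]
    refine (two _ _ norm_one.le _ _ Set.inter_subset_left
      (a1 _ 0 (H78M.cm_lc χ) (Or.inl rfl) fun s _ hs Q hQ _ => a2 s hs Q hQ)
      (a1 _ 0 (cm_sg (H78M.cm_lc χ) _) (Or.inl rfl) fun s _ hs Q hQ hQ' => ?_)).trans_eq (by ring)
    rw [Dq_sg _ (hQ'.trans a3)]
    exact a2 s hs Q hQ

end Pool.Agent.MP_39eeea_nt.H96
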