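import Pool.Agent.MP_ca0a54_nt.SC.SpecT

/-! Correlations of stable families at every scale: definitions and statements of the steps. -/

open Filter Finset MeasureTheory

namespace Pool.Agent.MP_39eeea_nt.H96

open Pool.Agent.MP_ca0a54_nt Pool.Agent.MP_ca0a54_nt.SC
open Pool.Agent.MP_ca0a54_nt.BH (lam ei TwinStmt)
open Pool.Agent.MP_ca0a54_nt.H78M (CM Dq Phi sh)

/-- Pairs of comparable large scales. -/
def Lf : Filter (ℕ × ℕ) :=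
  ⨆ K : ℕ, comap Prod.fst atTop ⊓ Filter.principal {i | i.1 ≤ K * i.2 ∧ i.2 ≤ K * i.1}

theorem ev_Lf {P : ℕ × ℕ → Prop} : (∀ᶠ i in Lf, P i) ↔
    ∀ K : ℕ, ∀ᶠ X : ℕ in atTop, ∀ Y : ℕ, X ≤ K * Y → Y ≤ K * X → P (X, Y) := by
  simp only [Lf, eventually_iSup, eventually_inf_principal, eventually_comap, Set.mem_setOf_eq]
  refine forall_congr' fun K => eventually_congr (Eventually.of_forall fun X => ⟨?_, ?_⟩)
  · exact fun h Y h1 h2 => h (X, Y) rfl ⟨h1, h2⟩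
  · rintro h ⟨X', Y⟩ rfl ⟨h1, h2⟩
    exact h Y h1 h2

theorem tendsto_fst_Lf : Tendsto (fun i : ℕ × ℕ => i.1) Lf atTop := fun s hs => by
  refine ev_Lf.2 fun K => ?_
  filter_upwards [hs] with X hX Y _ _ using hX

theorem tendsto_snd_Lf : Tendsto (fun i : ℕ × ℕ => i.2) Lf atTop := by
  refine tendsto_atTop.2 fun b => ev_Lf.2 fun K => ?_
  filter_upwards [eventually_gt_atTop (K * b)] with X hX Y h1 _
  exact (Nat.lt_of_mul_lt_mul_left (hX.trans_le h1)).le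

/-- A change of the second scale by a bounded factor. -/
theorem tendsto_Lf {φ : ℕ → ℕ} (C : ℕ) (h : ∀ᶠ Y in atTop, Y ≤ C * φ Y ∧ φ Y ≤ C * Y) :
    Tendsto (fun i : ℕ × ℕ => (i.1, φ i.2)) Lf Lf := fun s hs => by
  have h1 := ev_Lf.1 (show ∀ᶠ i in Lf, i ∈ s from hs)
  have h2 := ev_Lf.1 (tendsto_snd_Lf.eventually h)
  refine ev_Lf.2 fun K => ?_
  filter_upwards [h1 (K * C), h2 K] with X a1 a2 Y b1 b2
  obtain ⟨c1, c2⟩ := a2 Y b1 b2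
  refine a1 _ (b1.trans ?_) (c2.trans ?_)
  · rw [mul_assoc]
    exact Nat.mul_le_mul_left K c1
  · rw [mul_comm K, mul_assoc]
    exact Nat.mul_le_mul_left C b2

theorem tendsto_diag (C : ℕ) (hC : 1 ≤ C) : Tendsto (fun X : ℕ => (X, C * X)) atTop Lf :=
  fun s hs => by
    show ∀ᶠ X : ℕ in atTop, (X, C * X) ∈ s
    filter_upwards [ev_Lf.1 (show ∀ᶠ i in Lf, i ∈ s from hs) C] with X hX
    exact hX _ ((Nat.le_mul_of_pos_left X hC).trans (Nat.le_mul_of_pos_left _ hC)) le_rfl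

open Classical in
/-- The indicator of the integers with a prime factor above `y`. -/
noncomputable def big (y : ℝ) (n : ℕ) : ℝ := if ∃ p : ℕ, p.Prime ∧ p ∣ n ∧ y < p then 1 else 0

/-- The family of these indicators. -/
noncomputable def Bf (β : ℝ) (X n : ℕ) : ℝ := big ((X : ℝ) ^ β) n

/-- The centred family. -/
noncomputable def Bc (β : ℝ) (X n : ℕ) : ℝ := Bf β X n - Real.log (1 / β)

/-- The family twisted by the Liouville function. -/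
noncomputable def Bl (β : ℝ) (X n : ℕ) : ℝ := lam n * Bf β X n

def Bd (g : ℕ → ℕ → ℝ) : Prop := ∀ X n, |g X n| ≤ 1

/-- Dilation changes the family by a sign only. -/
def Stab (g : ℕ → ℕ → ℝ) : Prop := ∀ d : ℕ, 1 ≤ d → ∃ s : ℝ, (s = 1 ∨ s = -1) ∧
  ∀ᶠ X : ℕ in atTop, ∀ m, g X (d * m) = s * g X m

def MRf (a : ℕ → ℕ → ℂ) : Prop := ∀ η : ℝ, 0 < η → ∃ H₁ : ℕ, ∀ H : ℕ, H₁ ≤ H →
  ∀ᶠ i in Lf, sh (a i.1) H i.2 ≤ η * i.2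

/-- Short averages against every character are small. -/
def MRc (g : ℕ → ℕ → ℝ) : Prop := ∀ (q : ℕ) (χ : DirichletCharacter ℂ q), 0 < q →
  MRf fun X n => (g X n : ℂ) * χ n

def ShortF (g : ℕ → ℕ → ℝ) (α : ℝ) : Prop := ∀ ε : ℝ, 0 < ε → ∀ᶠ K : ℕ in atTop, ∀ᶠ i in Lf,
  LS i.2 (fun n => ‖∑ j ∈ range K, (g i.1 (n + j) : ℂ) * ei (2 * Real.pi * α * (n + j : ℕ))‖ ^ 2) ≤
    ε * K ^ 2 * lg i.2

def WienF (g : ℕ → ℕ → ℝ) : Prop := ∀ δ : ℝ, 0 < δ → ∀ᶠ K : ℕ in atTop, ∀ᶠ i in Lf,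
  ∑ k ∈ Icc 1 K, LS i.2 (fun n => g i.1 n * g i.1 (n + k)) ^ 2 ≤ δ * K * lg i.2 ^ 2

def AvgF (g : ℕ → ℕ → ℝ) : Prop := ∀ (h : ℕ) (c ε : ℝ), 1 ≤ h → 0 < c → 0 < ε →
  ∀ᶠ x : ℕ in atTop, ∀ᶠ i in Lf, ∀ P : Finset ℕ, (∀ p ∈ P, p.Prime ∧ x < p ∧ p ≤ 3 * x) →
  c * x / Real.log x ≤ P.card →
  LS i.2 (fun n => (∑ p ∈ P, g i.1 (n + p * h)) ^ 2) ≤ ε * (P.card : ℝ) ^ 2 * lg i.2

/-- The mean over a residue class, with a shift, is small. -/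
def OneF (g : ℕ → ℕ → ℝ) : Prop := ∀ (q u r : ℕ) (ε : ℝ), 0 < q → 0 < ε → ∀ᶠ i in Lf,
  |LS i.2 fun m => if m ≡ u [MOD q] then g i.1 (m + r) else 0| ≤ ε * lg i.2

/-- The correlation over a residue class is small. -/
def TwoF (f g : ℕ → ℕ → ℝ) : Prop := ∀ (q u r : ℕ) (ε : ℝ), 0 < q → 1 ≤ r → 0 < ε → ∀ᶠ i in Lf,
  |LS i.2 fun m => if m ≡ u [MOD q] then f i.1 m * g i.1 (m + r) else 0| ≤ ε * lg i.2

def UuUStmt : Prop := ∀ η : ℝ, 0 < η → ∃ A κ T₀ : ℝ, 0 < κ ∧ κ ≤ 1 / 100 ∧ 0 ≤ T₀ ∧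
  ∀ᶠ X : ℕ in atTop, ∀ (f : ℕ → ℂ) (b : ℝ), CM f → b = 0 ∨ b = 1 →
  (∀ s : ℝ, b ≤ |s| → |s| ≤ 2 * X → ∀ Q : ℕ, (X : ℝ) ^ κ ≤ Q → (Q : ℝ) ≤ (X : ℝ) ^ (2 * κ) →
    A ≤ Dq f Q s) →
  ∀ U : Set ℝ, MeasurableSet U → U ⊆ Set.Icc (-(X : ℝ)) X →
  volume.real U ≤ (X : ℝ) ^ (1 / 4 : ℝ) → (∀ t ∈ U, b * T₀ ≤ |t|) →
  ∫ t in U, ‖Phi f (X ^ 2) (Real.log X) t‖ ^ 2 ≤ η

def NpcStmt : Prop := ∀ (q : ℕ) (χ : DirichletCharacter ℂ q), 0 < q → ∀ A κ : ℝ, 0 < κ →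
  ∀ᶠ X : ℕ in atTop, ∀ s : ℝ, 1 ≤ |s| → |s| ≤ 2 * X → ∀ Q : ℕ, (X : ℝ) ^ κ ≤ Q →
  A ≤ Dq (fun n => χ n) Q s

def MeanStmt : Prop := ∀ β : ℝ, 1 / 2 < β → β < 1 → ∀ (q u K : ℕ) (ε : ℝ), 0 < q → 0 < ε →
  ∀ᶠ X : ℕ in atTop, ∀ z : ℕ, z ≤ K * X →
  |LS z fun m => if m ≡ u [MOD q] then Bc β X m else 0| ≤ ε * X

def SmallStmt : Prop := ∀ T₀ η : ℝ, 0 < η → ∃ (K : ℕ) (ε : ℝ), 0 < ε ∧ ∀ᶠ Y : ℕ in atTop,
  ∀ a : ℕ → ℂ, (∀ n, ‖a n‖ ≤ 1) → (∀ z : ℕ, z ≤ K * Y → ‖LC z a‖ ≤ ε * Y) →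
  ∀ t : ℝ, |t| ≤ T₀ → ‖Phi a (Y ^ 2) (Real.log Y) t‖ ≤ η

def MrlStmt : Prop := MRc (fun _ => lam) ∧ ∀ β : ℝ, 1 / 2 < β → β < 1 → MRc (Bl β)

def MrbStmt : Prop := ∀ β : ℝ, 1 / 2 < β → β < 1 → MRc (Bc β)

def RatStmt : Prop := ∀ g, Bd g → Stab g → MRc g → ∀ α : ℚ, ShortF g α

def IrrStmt : Prop := ∀ g, Bd g → Stab g → ∀ α : ℝ, Irrational α → ShortF g α

def WienStmt : Prop := ∀ g, Bd g → (∀ α : ℝ, ShortF g α) → WienF g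

def AvgStmt : Prop := ∀ g, Bd g → WienF g → AvgF g

def OneStmt : Prop := ∀ g, Bd g → (∀ α : ℚ, ShortF g α) → OneF g

/-- The expansion estimate for all subfamilies of the shifts. -/
def CoreS : Prop := ∀ (r : ℕ) (η : ℝ), 1 ≤ r → 0 < η → η ≤ 1 → ∃ c : ℝ, 0 < c ∧
  ∀ (ε : ℝ) (z : ℕ), 0 < ε → ∃ (E : Finset ℕ) (Pe : ℕ → Finset ℕ) (wt : ℕ → ℝ) (Q : ℝ),
  1 ≤ Q ∧ Good η c z E Pe wt Q ∧ (∀ e ∈ E, ∀ p : ℕ, p.Prime → p ∣ e → z < p) ∧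
  0 < mass E Pe wt ∧ ∀ Pe' : ℕ → Finset ℕ, (∀ e, Pe' e ⊆ Pe e) → ∀ᶠ N : ℕ in atTop,
  ∀ f : ℕ → ℝ, (∀ n, |f n| ≤ 1) → |cen r E Pe' wt N f| ≤ ε * mass E Pe wt * N

def TwoStmt : Prop := ∀ f g, Bd f → Bd g → Stab f → Stab g → AvgF g → TwoF f g

open Classical in
/-- The final statement. -/
def FinStmt : Prop := ∀ (q a u v : ℕ) (α β : ℝ), 0 < q → 1 / 2 < α → α < 1 → 1 / 2 < β → β < 1 →
  Tendsto (fun X : ℕ => (((Icc 1 X).filter fun n => n ≡ a [MOD q] ∧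
    ArithmeticFunction.cardFactors n ≡ u [MOD 2] ∧
    ArithmeticFunction.cardFactors (2 * n + 1) ≡ v [MOD 2]).card : ℝ) / X) atTop
    (nhds (1 / (4 * q))) ∧
  Tendsto (fun X : ℕ => (((Icc 1 X).filter fun n => n ≡ a [MOD q] ∧
    ArithmeticFunction.cardFactors n ≡ u [MOD 2] ∧
    ArithmeticFunction.cardFactors (2 * n + 1) ≡ v [MOD 2] ∧
    (∃ p : ℕ, p.Prime ∧ p ∣ n ∧ (X : ℝ) ^ α < p) ∧
    ∃ p : ℕ, p.Prime ∧ p ∣ 2 * n + 1 ∧ (X : ℝ) ^ β < p).card : ℝ) / X) atTop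
    (nhds (Real.log (1 / α) * Real.log (1 / β) / (4 * q)))

/-- What the last step uses about a family. -/
def Unif (g : ℕ → ℕ → ℝ) : Prop := OneF g ∧ ∀ f, Bd f → Stab f → TwoF f g

theorem big_nonneg (y : ℝ) (n : ℕ) : 0 ≤ big y n := by
  unfold big
  split_ifs <;> norm_num

theorem big_le_one (y : ℝ) (n : ℕ) : big y n ≤ 1 := by
  unfold big
  split_ifs <;> norm_num

theorem big_mul {y : ℝ} {d : ℕ} (hd : 1 ≤ d) (h : (d : ℝ) ≤ y) (m : ℕ) :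
    big y (d * m) = big y m := by
  have key : (∃ p : ℕ, p.Prime ∧ p ∣ d * m ∧ y < p) ↔ ∃ p : ℕ, p.Prime ∧ p ∣ m ∧ y < p := by
    constructor
    · rintro ⟨p, h1, h2, h3⟩
      refine ⟨p, h1, ((Nat.Prime.dvd_mul h1).1 h2).resolve_left fun h4 => ?_, h3⟩
      have : (p : ℝ) ≤ d := by exact_mod_cast Nat.le_of_dvd hd h4
      linarith
    · rintro ⟨p, h1, h2, h3⟩
      exact ⟨p, h1, h2.mul_left d, h3⟩
  unfold big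
  by_cases hm : ∃ p : ℕ, p.Prime ∧ p ∣ m ∧ y < p
  · rw [if_pos hm, if_pos (key.2 hm)]
  · rw [if_neg hm, if_neg fun h5 => hm (key.1 h5)]

theorem ev_pow {β : ℝ} (hβ : 0 < β) (d : ℝ) : ∀ᶠ X : ℕ in atTop, d ≤ (X : ℝ) ^ β :=
  ((tendsto_rpow_atTop hβ).comp tendsto_natCast_atTop_atTop).eventually_ge_atTop d

theorem lam_sign {d : ℕ} (hd : 1 ≤ d) : lam d = 1 ∨ lam d = -1 :=
  mul_self_eq_one_iff.1 (BH.lam_mul_self hd)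

theorem bd_lam : Bd fun _ => lam := fun _ n => BH.abs_lam_le n

theorem stab_lam : Stab fun _ => lam := fun d hd =>
  ⟨lam d, lam_sign hd, Eventually.of_forall fun _ m => BH.lam_mul d m⟩

theorem bd_one : Bd fun _ _ => 1 := fun _ _ => abs_one.le

theorem stab_one : Stab fun _ _ => 1 := fun _ _ =>
  ⟨1, Or.inl rfl, Eventually.of_forall fun _ _ => (one_mul _).symm⟩

theorem bd_Bf (β : ℝ) : Bd (Bf β) := fun X n =>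
  abs_le.2 ⟨by linarith [big_nonneg ((X : ℝ) ^ β) n, show Bf β X n = big _ n from rfl],
    big_le_one _ _⟩

theorem stab_Bf {β : ℝ} (hβ : 0 < β) : Stab (Bf β) := fun d hd =>
  ⟨1, Or.inl rfl, (ev_pow hβ d).mono fun _ hX m => (big_mul hd hX m).trans (one_mul _).symm⟩

theorem log_mem {β : ℝ} (h1 : 1 / 2 < β) (h2 : β < 1) :
    0 ≤ Real.log (1 / β) ∧ Real.log (1 / β) ≤ 1 := by
  have h0 : 0 < β := by linarith
  refine ⟨Real.log_nonneg (one_le_one_div h0 h2.le), ?_⟩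
  have h3 := Real.log_le_sub_one_of_pos (one_div_pos.2 h0)
  have h4 : 1 / β ≤ 2 := by
    rw [div_le_iff₀ h0]
    linarith
  linarith

theorem bd_Bc {β : ℝ} (h1 : 1 / 2 < β) (h2 : β < 1) : Bd (Bc β) := fun X n => by
  obtain ⟨a1, a2⟩ := log_mem h1 h2
  have a3 := big_nonneg ((X : ℝ) ^ β) n
  have a4 := big_le_one ((X : ℝ) ^ β) n
  unfold Bc Bf
  exact abs_le.2 ⟨by linarith, by linarith⟩

theorem stab_Bc {β : ℝ} (hβ : 0 < β) : Stab (Bc β) := fun d hd =>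
  ⟨1, Or.inl rfl, (ev_pow hβ d).mono fun _ hX m => by
    rw [one_mul, Bc, Bc, Bf, Bf, big_mul hd hX m]⟩

theorem bd_Bl (β : ℝ) : Bd (Bl β) := fun X n => by
  rw [Bl, abs_mul]
  exact mul_le_one₀ (BH.abs_lam_le n) (abs_nonneg _) (bd_Bf β X n)

theorem stab_Bl {β : ℝ} (hβ : 0 < β) : Stab (Bl β) := fun d hd =>
  ⟨lam d, lam_sign hd, (ev_pow hβ d).mono fun _ hX m => by
    rw [Bl, Bl, Bf, Bf, big_mul hd hX m, BH.lam_mul, mul_assoc]⟩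

def LastStmt : Prop := Unif (fun _ => lam) → (∀ β : ℝ, 1 / 2 < β → β < 1 → Unif (Bl β)) →
  (∀ β : ℝ, 1 / 2 < β → β < 1 → Unif (Bc β)) → FinStmt

end Pool.Agent.MP_39eeea_nt.H96
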