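import Pool.Agent.MP_39eeea_nt.H96.Spec
import Pool.Agent.MP_ca0a54_nt.H78M.UU

/-! The exceptional set, uniformly in the function, away from the origin if need be. -/

open Filter Finset MeasureTheory

namespace Pool.Agent.MP_39eeea_nt.H96

open Pool.Agent.MP_ca0a54_nt Pool.Agent.MP_ca0a54_nt.H78M Pool.Agent.MP_ca0a54_nt.H78M.UU

namespace UUU

theorem en_le2 (ga : GaStmt) (spl : SplStmt) {f : ℕ → ℂ} (hf : CM f) (Q Y Z : ℕ)
    {R T M M0 t t' b c : ℝ} (hT : 0 ≤ T) (ht : |t| ≤ T) (hc0 : 0 ≤ c)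
    (hM : ∀ s, b ≤ |s| → |s| ≤ 2 * T → ‖dv (fun n => f n / n) (S1 Q Y) s‖ ≤ M)
    (hM0 : ∀ s, ‖dv (fun n => f n / n) (S1 Q Y) s‖ ≤ M0)
    (hc : ∀ τ, |t - τ| < b → gw (1 / 4) τ ≤ c * gw (1 / 4) (τ + (t' - t))) :
    En (1 / 4) (fun n => f n / n) (S3 Q Y R Z) t ≤
      M ^ 2 * En (1 / 4) (fun n => f n / n) (S2 Q R Z) t +
        c * M0 ^ 2 * En (1 / 4) (fun n => f n / n) (S2 Q R Z) t' +
        ((Y : ℝ) * Z) ^ 2 * Real.exp (-(T ^ 2 / 8)) * 6 := by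
  have hi : Integrable fun τ : ℝ => gw (1 / 8) τ := by
    simpa [gw] using integrable_exp_neg_mul_sq (b := 1 / 8) (by norm_num)
  have hv : ∫ τ : ℝ, gw (1 / 8) τ ≤ 6 := by
    have h := integral_gaussian (1 / 8)
    simp only [neg_mul] at h
    simp only [gw]
    rw [h, Real.sqrt_le_iff]
    exact ⟨by norm_num, by linarith [Real.pi_le_four, show Real.pi / (1 / 8) = 8 * Real.pi by ring]⟩
  have h2 := ((ga (1 / 4) (fun n => f n / n) (S2 Q R Z) (by norm_num)).2 t).1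
  have h3 := ((ga (1 / 4) (fun n => f n / n) (S3 Q Y R Z) (by norm_num)).2 t).1
  have h2' := ((ga (1 / 4) (fun n => f n / n) (S2 Q R Z) (by norm_num)).2 t').1.comp_add_right
    (t' - t)
  have e2 := integral_add_right_eq_self (μ := volume)
    (fun τ => gw (1 / 4) τ * ‖dv (fun n => f n / n) (S2 Q R Z) (t' - τ)‖ ^ 2) (t' - t)
  have e3 : ∀ τ, t' - (τ + (t' - t)) = t - τ := fun τ => by ring
  simp only [e3] at h2' e2
  set K := ((Y : ℝ) * Z) ^ 2 * Real.exp (-(T ^ 2 / 8)) with hK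
  have hK0 : 0 ≤ K := by positivity
  calc _ ≤ ∫ τ : ℝ, (M ^ 2 * (gw (1 / 4) τ * ‖dv (fun n => f n / n) (S2 Q R Z) (t - τ)‖ ^ 2) +
        c * M0 ^ 2 * (gw (1 / 4) (τ + (t' - t)) *
          ‖dv (fun n => f n / n) (S2 Q R Z) (t - τ)‖ ^ 2) + K * gw (1 / 8) τ) := by
        refine integral_mono h3 (((h2.const_mul _).add (h2'.const_mul _)).add (hi.const_mul _))
          fun τ => ?_
        have hg2 := gw_pos (1 / 4) (τ + (t' - t))
        have hg := gw_pos (1 / 4) τ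
        have hg' := gw_pos (1 / 8) τ
        simp only
        rw [spl.2.1 f hf, norm_mul, mul_pow]
        have p1 : 0 ≤ M ^ 2 * (gw (1 / 4) τ * ‖dv (fun n => f n / n) (S2 Q R Z) (t - τ)‖ ^ 2) := by
          positivity
        have p2 : 0 ≤ c * M0 ^ 2 * (gw (1 / 4) (τ + (t' - t)) *
            ‖dv (fun n => f n / n) (S2 Q R Z) (t - τ)‖ ^ 2) := by positivity
        have p3 := mul_nonneg hK0 hg'.le
        rcases lt_or_ge |t - τ| b with hb | hb
        · have h4 := hc τ hb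
          have h5 := hM0 (t - τ)
          calc _ ≤ c * gw (1 / 4) (τ + (t' - t)) *
                (M0 ^ 2 * ‖dv (fun n => f n / n) (S2 Q R Z) (t - τ)‖ ^ 2) := by gcongr
            _ ≤ _ := by linarith
        rcases le_or_gt |τ| T with h | h
        · have h4 := hM (t - τ) hb ((abs_sub _ _).trans (by linarith))
          have h5 : ‖dv (fun n => f n / n) (S1 Q Y) (t - τ)‖ ^ 2 ≤ M ^ 2 := by gcongr
          calc _ ≤ gw (1 / 4) τ * (M ^ 2 * ‖dv (fun n => f n / n) (S2 Q R Z) (t - τ)‖ ^ 2) := by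
                gcongr
            _ ≤ _ := by linarith
        · have h4 := dv_le hf.1 (filter_subset (Smo Q) (Icc 1 Y)) (t - τ)
          have h5 := dv_le hf.1 (filter_subset (fun n => Rou Q n ∧ R ≤ (n : ℝ)) (Icc 1 Z)) (t - τ)
          have h6 : gw (1 / 4) τ ≤ Real.exp (-(T ^ 2 / 8)) * gw (1 / 8) τ := by
            rw [gw, gw, ← Real.exp_add, Real.exp_le_exp]
            have : T ^ 2 ≤ τ ^ 2 := by rw [← sq_abs τ]; gcongr
            linarith
          calc _ ≤ Real.exp (-(T ^ 2 / 8)) * gw (1 / 8) τ * ((Y : ℝ) ^ 2 * (Z : ℝ) ^ 2) := by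
                gcongr
                · exact h4
                · exact h5
            _ = K * gw (1 / 8) τ := by rw [hK]; ring
            _ ≤ _ := by linarith
    _ = M ^ 2 * En (1 / 4) (fun n => f n / n) (S2 Q R Z) t +
        c * M0 ^ 2 * En (1 / 4) (fun n => f n / n) (S2 Q R Z) t' + K * ∫ τ : ℝ, gw (1 / 8) τ := by
        rw [integral_add ((h2.const_mul _).fun_add (h2'.const_mul _)) (hi.const_mul _),
          integral_add (h2.const_mul _) (h2'.const_mul _), integral_const_mul,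
          integral_const_mul, integral_const_mul, e2, En, En]
    _ ≤ _ := by gcongr

theorem point2 (bes : BesStmt) (spl : SplStmt) {f : ℕ → ℂ} (hf : CM f)
    (Q Y Z : ℕ) (P : Finset ℕ) {R W t u S K θ : ℝ} (hY : 1 ≤ Y)
    (hθ : 0 ≤ θ) (h3 : En (1 / 4) (fun n => f n / n) (S3 Q Y R Z) t ≤ W)
    (hS : S = ∑ p ∈ P, (p : ℝ)⁻¹) (h1 : 1 ≤ S)
    (hK : ∀ v : ℝ, ∑ p ∈ P, (p : ℝ)⁻¹ * gw 2 (Real.log p - v) ≤ K)
    (hg : ∀ p ∈ P, ∀ n : ℕ, 1 ≤ n → ((n : ℝ) ≤ R * Y ∨ Z < n) →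
      gw 1 (Real.log n - (u - Real.log p)) ≤ θ) :
    ‖(S : ℂ)⁻¹ * ∑ p ∈ P, pp f {p} t * Phi (cut f Q Y) Z (u - Real.log p) t‖ ^ 2 ≤
      2 * K * W + 2 * (Y * Z * θ) ^ 2 := by
  have h0 : 0 < S := by linarith
  have hK0 : 0 ≤ K := le_trans (sum_nonneg fun p _ => mul_nonneg (by positivity) (gw_pos _ _).le)
    (hK 0)
  set Ψ : ℕ → ℂ := fun p => ps (fun n => f n / n) (S3 Q Y R Z) 1 (u - Real.log p) t with hΨ
  have h2 := bes (fun n => f n / n) (S3 Q Y R Z) P (fun p => (p : ℝ)⁻¹)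
    (fun p => u - Real.log p) K t (fun p _ => by positivity) fun v => by
      refine le_of_eq_of_le (sum_congr rfl fun p _ => ?_) (hK (u - v))
      rw [gw, gw]
      congr 3
      ring
  have h4 : ∑ p ∈ P, (p : ℝ)⁻¹ * ‖Phi (cut f Q Y) Z (u - Real.log p) t‖ ^ 2 ≤
      ∑ p ∈ P, (2 * ((p : ℝ)⁻¹ * ‖Ψ p‖ ^ 2) + (p : ℝ)⁻¹ * (2 * (Y * Z * θ) ^ 2)) := by
    refine sum_le_sum fun p hp => ?_
    have h5 := spl.2.2 f Q Y Z R (u - Real.log p) t θ hf.1 hY hθ (hg p hp)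
    have h6 : ‖Phi (cut f Q Y) Z (u - Real.log p) t‖ ≤ ‖Ψ p‖ + Y * Z * θ :=
      (norm_le_norm_add_norm_sub' _ (Ψ p)).trans (by linarith)
    have h7 : ‖Phi (cut f Q Y) Z (u - Real.log p) t‖ ^ 2 ≤ 2 * ‖Ψ p‖ ^ 2 + 2 * (Y * Z * θ) ^ 2 :=
      (pow_le_pow_left₀ (norm_nonneg _) h6 2).trans (by nlinarith [sq_nonneg (‖Ψ p‖ - Y * Z * θ)])
    calc _ ≤ (p : ℝ)⁻¹ * (2 * ‖Ψ p‖ ^ 2 + 2 * (Y * Z * θ) ^ 2) := by gcongr
      _ = _ := by ring
  rw [sum_add_distrib, ← mul_sum, ← sum_mul, ← hS] at h4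
  have h5 : S⁻¹ ≤ 1 := inv_le_one_of_one_le₀ h1
  have h6 : 0 ≤ ∑ p ∈ P, (p : ℝ)⁻¹ * ‖Ψ p‖ ^ 2 := sum_nonneg fun p _ => by positivity
  calc _ ≤ S⁻¹ * (2 * ∑ p ∈ P, (p : ℝ)⁻¹ * ‖Ψ p‖ ^ 2 + S * (2 * (Y * Z * θ) ^ 2)) :=
        (avg_le f hf.1 P _ t hS h1).trans (by gcongr)
    _ = S⁻¹ * (2 * ∑ p ∈ P, (p : ℝ)⁻¹ * ‖Ψ p‖ ^ 2) + 2 * (Y * Z * θ) ^ 2 := by field_simp
    _ ≤ 1 * (2 * (K * W)) + 2 * (Y * Z * θ) ^ 2 := by
        gcongr
        exact h2.trans (by gcongr)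
    _ = _ := by ring

theorem dq_nonneg {f : ℕ → ℂ} (hf : CM f) (Q : ℕ) (s : ℝ) : 0 ≤ Dq f Q s :=
  sum_nonneg fun p _ => div_nonneg (sub_nonneg.2 ((Complex.re_le_norm _).trans (by
    rw [norm_mul, norm_nt, mul_one]
    exact hf.1 p))) (Nat.cast_nonneg p)

theorem gw_shift {ρ t t' τ : ℝ} (h0 : 0 < ρ) (h1 : ρ ≤ 1) (ht : 20 - 16 * Real.log ρ ≤ |t|)
    (ht' : t' ∈ Set.Icc (0 : ℝ) 1) (h : |t - τ| < 1) :
    gw (1 / 4) τ ≤ ρ * gw (1 / 16) t * gw (1 / 4) (τ + (t' - t)) := by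
  have h2 := Real.log_nonpos h0.le h1
  rw [← Real.exp_log h0, gw, gw, gw, ← Real.exp_add, ← Real.exp_add, Real.exp_le_exp]
  obtain ⟨a1, a2⟩ := ht'
  obtain ⟨a3, a4⟩ := abs_lt.1 h
  have a5 : |t| ≤ t ^ 2 := by
    rw [← sq_abs]
    nlinarith
  have a6 : (τ + (t' - t)) ^ 2 ≤ 4 := by nlinarith
  have a7 : (t - τ) ^ 2 ≤ 1 := by nlinarith
  nlinarith [sq_nonneg (t - 2 * (t - τ))]

theorem ex_min {E : ℝ → ℝ} (hE : Continuous E) :
    ∃ t' ∈ Set.Icc (0 : ℝ) 1, E t' ≤ ∫ t in Set.Icc (0 : ℝ) 1, E t := by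
  obtain ⟨t', h1, h2⟩ := isCompact_Icc.exists_isMinOn (Set.nonempty_Icc.2 zero_le_one)
    hE.continuousOn
  refine ⟨t', h1, le_trans (le_of_eq ?_) (setIntegral_mono_on
    (continuous_const (y := E t')).integrableOn_Icc hE.integrableOn_Icc measurableSet_Icc h2)⟩
  simp

theorem continuous_gw (c : ℝ) : Continuous (gw c) := by
  unfold gw
  fun_prop

theorem int_gw (U : Set ℝ) : ∫ t in U, gw (1 / 16) t ≤ 8 := by
  have hi : Integrable fun τ : ℝ => gw (1 / 16) τ := by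
    simpa [gw] using integrable_exp_neg_mul_sq (b := 1 / 16) (by norm_num)
  refine (setIntegral_le_integral hi (Eventually.of_forall fun t => (gw_pos _ _).le)).trans ?_
  have h := integral_gaussian (1 / 16)
  simp only [neg_mul] at h
  simp only [gw]
  rw [h, Real.sqrt_le_iff]
  exact ⟨by norm_num,
    by linarith [Real.pi_le_four, show Real.pi / (1 / 16) = 16 * Real.pi by ring]⟩

end UUU

open UUU in
theorem uuU (gm : H78M.GmStmt) (dec : H78M.DecStmt) (mer : H78M.MerStmt) (ga : H78M.GaStmt)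
    (bes : H78M.BesStmt) (hv : H78M.HvStmt) (spl : H78M.SplStmt) (den : H78M.DenStmt)
    (eul : H78M.EulStmt) : UuUStmt := by
  obtain ⟨Cg, hg0, hg⟩ := gm
  obtain ⟨Cd, hd0, hd⟩ := dec
  obtain ⟨Cm, hm0, hm1, -, hm3⟩ := mer
  obtain ⟨Ch, hh0, hh⟩ := hv
  obtain ⟨Cn, hn0, hn⟩ := den
  obtain ⟨Ce, he0, he⟩ := eul
  intro η hη
  obtain ⟨δ, hδ0, hδ1, hδ⟩ := UU.small (K := 24 * Cd) (by positivity)
    (show 0 < η / 4 by positivity)
  obtain ⟨lm, hlm⟩ : ∃ lm, lm = Real.exp (-((δ ^ 2)⁻¹ + 1)) / 100 := ⟨_, rfl⟩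
  have hl0 : 0 < lm := by rw [hlm]; positivity
  have hl1 : lm ≤ 1 / 100 := by
    rw [hlm]
    gcongr
    exact Real.exp_le_one_iff.2 (neg_nonpos.2 (by positivity))
  obtain ⟨ρ, hρ0, hρ1, hρ⟩ := UU.small (K := 6 * Cg * Cn + 648 * Cm * Ch * Ce ^ 2 / lm)
    (by positivity) (show 0 < η / 4 by positivity)
  obtain ⟨κ, hκ0, hκ1, hκ2⟩ : ∃ κ : ℝ, 0 < κ ∧ κ ≤ ρ / 400 ∧ κ ≤ lm / 2 :=
    ⟨min (ρ / 400) (lm / 2), by positivity, min_le_left _ _, min_le_right _ _⟩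
  have hx := Real.tendsto_log_atTop.comp (tendsto_natCast_atTop_atTop (R := ℝ))
  have hex : ∀ ε : ℝ, 0 < ε → ∀ᶠ x : ℝ in atTop, Real.exp (-x) ≤ ε := fun ε hε =>
    Real.tendsto_exp_neg_atTop_nhds_zero.eventually (ge_mem_nhds hε)
  refine ⟨-Real.log ρ, κ, 20 - 16 * Real.log ρ, hκ0, by linarith,
    by linarith [Real.log_nonpos hρ0.le hρ1], ?_⟩
  filter_upwards [eventually_ge_atTop 1,
    hx.eventually (eventually_ge_atTop 800), hx.eventually (eventually_ge_atTop (1 / κ)),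
    hx.eventually (eventually_ge_atTop ((1 + Cm) / lm)), hx.eventually (hex δ hδ0),
    hx.eventually (hex (η / 4 / 84) (by positivity))] with X hX1 x1 x2 x3 x4 x5
  intro f b hf hb hA U hUm hU hvol hT0
  simp only [Function.comp] at x1 x2 x3 x4 x5
  have hX0 : (0 : ℝ) < X := by exact_mod_cast hX1
  obtain ⟨x, hxd⟩ : ∃ x, x = Real.log X := ⟨_, rfl⟩
  rw [← hxd] at x1 x2 x3 x4 x5 ⊢
  have x0 : 0 < x := by linarith
  have hXx : (X : ℝ) = Real.exp x := by rw [hxd, Real.exp_log hX0]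
  have hpow : ∀ a : ℝ, (X : ℝ) ^ a = Real.exp (a * x) := fun a => by
    rw [Real.rpow_def_of_pos hX0, mul_comm, hxd]
  have hXe : (X : ℝ) * Real.exp (-x) = 1 := by rw [hXx, ← Real.exp_add]; simp
  have hZ : ((X ^ 2 : ℕ) : ℝ) = Real.exp x ^ 2 := by rw [← hXx, Nat.cast_pow]
  have hlZ : Real.log ((X ^ 2 : ℕ) : ℝ) = 2 * x := by
    rw [hZ, Real.log_pow, Real.log_exp, Nat.cast_ofNat]
  have k1 : 1 ≤ κ * x := by rwa [div_le_iff₀' hκ0] at x2
  have k2 : 1 + Cm ≤ lm * x := by rwa [div_le_iff₀' hl0] at x3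
  have k3 := mul_le_mul_of_nonneg_right hκ1 x0.le
  have k4 := mul_le_mul_of_nonneg_right hκ2 x0.le
  have k5 := mul_le_mul_of_nonneg_right hl1 x0.le
  have k6 := mul_le_mul_of_nonneg_right hρ1 x0.le
  have k7 : Cm / (lm * x) ≤ 1 := div_le_one_of_le₀ (by linarith) (by linarith)
  obtain ⟨Q, q1, q2⟩ : ∃ Q : ℕ, Real.exp (κ * x) ≤ Q ∧ (Q : ℝ) ≤ Real.exp (2 * (κ * x)) :=
    ⟨_, Nat.le_ceil _, ceil_le k1⟩
  obtain ⟨Y, y1, y2⟩ : ∃ Y : ℕ, (Y : ℝ) ≤ Real.exp (x / 100) ∧ Real.exp (x / 200) ≤ Y :=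
    ⟨_, Nat.floor_le (Real.exp_pos _).le, le_floor (by linarith)⟩
  have q3 : 2 ≤ Q := by exact_mod_cast (two_le k1).trans q1
  have q0 : (0 : ℝ) < Q := by positivity
  have q4 : Real.log Q ≤ 2 * (κ * x) := (Real.log_le_iff_le_exp q0).2 q2
  have q5 : 0 < Real.log Q := Real.log_pos (by exact_mod_cast q3)
  have y3 : 2 ≤ Y := by exact_mod_cast (two_le (y := x / 200) (by linarith)).trans y2
  have y4 : x / 200 ≤ Real.log Y := (Real.le_log_iff_exp_le (by positivity)).2 y2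
  have r1 : Real.log Q / Real.log Y ≤ ρ := by
    rw [div_le_iff₀ (by linarith)]
    linarith [mul_le_mul_of_nonneg_left y4 hρ0.le]
  obtain ⟨P, hP⟩ : ∃ P, P = pr (lm * x) (x / 100) := ⟨_, rfl⟩
  obtain ⟨S, hS⟩ : ∃ S, S = ∑ p ∈ P, (p : ℝ)⁻¹ := ⟨_, rfl⟩
  have s1 : (δ ^ 2)⁻¹ ≤ S := by
    have h1 := (abs_le.1 (hm1 (lm * x) (x / 100) (by linarith) (by linarith))).1
    have h2 : x / 100 / (lm * x) = Real.exp ((δ ^ 2)⁻¹ + 1) := by
      rw [hlm, Real.exp_neg]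
      field_simp
    rw [h2, Real.log_exp, ← hP, ← hS] at h1
    linarith
  have s2 : 1 ≤ S := le_trans (one_le_inv₀ (by positivity) |>.2 (pow_le_one₀ hδ0.le hδ1)) s1
  have s3 : S⁻¹ ≤ δ ^ 2 := inv_le_of_inv_le₀ (by positivity) s1
  have t0 := drop hn0 hg hρ0.le (Q := Q) (Y := Y)
    (fun N => (hn Q Y N q3 y3).trans (by gcongr)) hf.1 (X ^ 2) x hX0.le
  have t1 := hd (cut f Q Y) f (X ^ 2) P (fun p => {p}) (fun p => Real.log p) δ x X S
    (norm_cut hf.1 Q Y) hf.1 hδ0 hδ1 hX0.le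
    (fun v hv p hp => by
      obtain rfl := mem_singleton.1 hp
      obtain ⟨h1, h2, -⟩ := mem_pr.1 (hP ▸ hv)
      have h3 : Q < p := by
        have : Real.log Q < Real.log p := by linarith
        exact_mod_cast (Real.log_lt_log_iff q0 (by exact_mod_cast h1.pos)).1 this
      refine ⟨h1, le_rfl, by linarith, fun m hm => ?_⟩
      rw [cut, cut, spl.1 Q p m h1 h3 hm, hf.2.2]
      split_ifs <;> simp)
    (fun v _ w _ h => disjoint_singleton.2 h) (by simp only [sum_singleton, hS]) s2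
    (by rw [hlZ]; linarith)
    (by
      rw [hlZ, show 2 * x - x = x by ring]
      exact le_trans (Real.exp_le_exp.2 (by
        linarith [mul_le_mul_of_nonneg_right x1 x0.le, sq x])) x4)
  have t2' : ∀ U : Set ℝ, MeasurableSet U → U ⊆ Set.Icc (-(X : ℝ)) X →
      volume.real U ≤ (X : ℝ) ^ (1 / 4 : ℝ) →
      ∫ t in U, En (1 / 4) (fun n => f n / n) (S2 Q (Real.exp (9 / 10 * x)) (X ^ 2)) t ≤
        Ch * (1 + 2 * x) / Real.log Q ^ 2 := fun U hUm hU hvol => hlZ ▸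
    hh Q (X ^ 2) (Real.exp (9 / 10 * x)) X U (fun n => f n / n)
      (S2 Q (Real.exp (9 / 10 * x)) (X ^ 2)) q3 (by exact_mod_cast hX1)
      (Real.one_le_exp (by linarith)) hUm hU
      (by rw [hpow] at hvol ⊢; exact hyp_le x1 (by linarith) q0.le measureReal_nonneg q2 hvol)
      (fun n hn => by
        obtain ⟨h1, h2, h3⟩ := mem_filter.1 hn
        exact ⟨h2, h3, (mem_Icc.1 h1).2, norm_div_le hf.1 n⟩)
  have t2 := t2' U hUm hU hvol
  have hX1' : (1 : ℝ) ≤ X := by exact_mod_cast hX1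
  have hEc := (ga (1 / 4) (fun n => f n / n) (S2 Q (Real.exp (9 / 10 * x)) (X ^ 2))
    (by norm_num)).1
  obtain ⟨t', ht', t4⟩ := ex_min hEc
  replace t4 := t4.trans (t2' _ measurableSet_Icc (Set.Icc_subset_Icc (by linarith) hX1')
    (by simpa using Real.one_le_rpow hX1' (by norm_num)))
  have hM0 : ∀ s, ‖dv (fun n => f n / n) (S1 Q Y) s‖ ≤ Ce * Real.log Q * (2 * 1) := fun s => by
    have h2 : Real.exp (-Dq f Q s) ≤ 1 := Real.exp_le_one_iff.2 (neg_nonpos.2 (dq_nonneg hf Q s))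
    exact (he f hf Q Y s q3 y3).trans
      (mul_le_mul_of_nonneg_left (by linarith) (mul_nonneg he0 q5.le))
  have hM : ∀ s, b ≤ |s| → |s| ≤ 2 * (X : ℝ) →
      ‖dv (fun n => f n / n) (S1 Q Y) s‖ ≤ Ce * Real.log Q * (2 * ρ) := fun s hs0 hs => by
    have h1 := hA s hs0 hs Q (by rw [hpow]; exact q1) (by rw [hpow, mul_assoc]; exact q2)
    have h2 : Real.exp (-Dq f Q s) ≤ ρ :=
      (Real.exp_le_exp.2 (by linarith)).trans_eq (Real.exp_log hρ0)
    exact (he f hf Q Y s q3 y3).trans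
      (mul_le_mul_of_nonneg_left (by linarith) (mul_nonneg he0 q5.le))
  have t3 := combine (continuous_Phi f (X ^ 2) x) (continuous_Phi (cut f Q Y) (X ^ 2) x)
    (H := fun t => (S : ℂ)⁻¹ * ∑ p ∈ P, pp f {p} t * Phi (cut f Q Y) (X ^ 2) (x - Real.log p) t)
    (continuous_const.mul (continuous_finsetSum _ fun p _ =>
      (continuous_pp _ _).mul (continuous_Phi _ _ _)))
    (E := fun t => (Ce * Real.log Q * (2 * ρ)) ^ 2 *
      En (1 / 4) (fun n => f n / n) (S2 Q (Real.exp (9 / 10 * x)) (X ^ 2)) t +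
      ρ * (Ce * Real.log Q * (2 * 1)) ^ 2 * (Ch * (1 + 2 * x) / Real.log Q ^ 2) * gw (1 / 16) t)
    ((continuous_const.mul hEc).add (continuous_const.mul (continuous_gw _)))
    (a := 2 * (Cm / (lm * x)))
    (b := 14 * Real.exp (6 * x - x ^ 2 / 100)) hX0.le (by positivity) hUm hU fun t ht => by
      have g0 := gw_pos (1 / 16) t
      have h0 := en_le2 ga spl hf Q Y (X ^ 2) (R := Real.exp (9 / 10 * x)) (t' := t')
        (c := ρ * gw (1 / 16) t) hX0.le (abs_le.2 (hU ht)) (by positivity) hM hM0 fun τ hτ => by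
          rcases hb with rfl | rfl
          · exact absurd hτ (not_lt.2 (abs_nonneg _))
          · exact gw_shift hρ0 hρ1 (by simpa using hT0 t ht) ht' hτ
      have h00 := mul_le_mul_of_nonneg_left t4
        (show 0 ≤ ρ * gw (1 / 16) t * (Ce * Real.log Q * (2 * 1)) ^ 2 by positivity)
      have h1 := point2 bes spl hf Q Y (X ^ 2) P (u := x) (θ := Real.exp (-(x ^ 2 / 200)))
        (by omega) (by positivity) (h0.trans (add_le_add (add_le_add le_rfl h00) le_rfl))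
        hS s2 (fun v => hP ▸ hm3 (lm * x) (x / 100) v (by linarith)) fun p hp n hn1 hn2 => by
          have hn0 : (0 : ℝ) < n := by exact_mod_cast hn1
          refine gw_le x0.le (Real.log_natCast_nonneg p) (mem_pr.1 (hP ▸ hp)).2.2
            (hn2.imp (fun h => ?_) fun h => ?_)
          · rw [Real.log_le_iff_le_exp hn0, Real.exp_add]
            exact h.trans (mul_le_mul_of_nonneg_left y1 (Real.exp_pos _).le)
          · rw [← hlZ]
            exact Real.log_le_log (by positivity) (by exact_mod_cast h.le)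
      have h2 := junk_le x1 k7 (Nat.cast_nonneg Y) y1
      rw [← hXx] at h2
      rw [Nat.cast_pow] at h1
      linarith
  have u0 : Cg * (1 + X * Real.exp (-x)) * (Cn * ρ) = 2 * Cg * Cn * ρ := by rw [hXe]; ring
  have u1 : Cd * (1 + X * Real.exp (-x)) * (S⁻¹ + δ ^ 2) *
      (1 + (∑ v ∈ P, (({v} : Finset ℕ).card : ℝ)) * Real.exp (-x)) ≤ 8 * Cd * δ := by
    have h1 : (∑ v ∈ P, (({v} : Finset ℕ).card : ℝ)) ≤ X := by
      simp only [card_singleton, Nat.cast_one, sum_const, nsmul_eq_mul, mul_one]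
      rw [hP, hXx]
      exact (card_pr_le _ _).trans (Real.exp_le_exp.2 (by linarith))
    have h2 : δ ^ 2 ≤ δ := pow_le_of_le_one hδ0.le hδ1 two_ne_zero
    have h3 := s3.trans h2
    calc _ ≤ Cd * (1 + X * Real.exp (-x)) * (δ + δ) * (1 + X * Real.exp (-x)) :=
          mul_le_mul (mul_le_mul_of_nonneg_left (add_le_add h3 h2) (by positivity))
            (add_le_add le_rfl (mul_le_mul_of_nonneg_right h1 (Real.exp_pos _).le))
            (add_nonneg zero_le_one (mul_nonneg (sum_nonneg fun _ _ => Nat.cast_nonneg _)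
              (Real.exp_pos _).le)) (by positivity)
      _ = _ := by rw [hXe]; ring
  have u2 := main_le (Ce := Ce) (by linarith : 1 ≤ x) hl0 hm0 hh0 hρ0 hρ1 q5
  have u3 := junk2 x1
  have u4 := mul_le_mul_of_nonneg_left t2
    (show 0 ≤ 2 * (Cm / (lm * x)) * (Ce * Real.log Q * (2 * ρ)) ^ 2 by positivity)
  have u5 : (6 * Cg * Cn + 648 * Cm * Ch * Ce ^ 2 / lm) * ρ =
      3 * (2 * Cg * Cn * ρ) + 27 * (24 * Cm * Ch * Ce ^ 2 / lm * ρ) := by ring
  have u6 := mul_le_mul_of_nonneg_left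
    (main_le (Ce := Ce) (by linarith : 1 ≤ x) hl0 hm0 hh0 one_pos le_rfl q5) hρ0.le
  have u7 := mul_le_mul_of_nonneg_left (int_gw U) (show 0 ≤ 2 * (Cm / (lm * x)) *
    (ρ * (Ce * Real.log Q * (2 * 1)) ^ 2 * (Ch * (1 + 2 * x) / Real.log Q ^ 2)) by positivity)
  rw [integral_add ((hEc.integrableOn_Icc.mono_set hU).const_mul _)
    (((continuous_gw _).integrableOn_Icc.mono_set hU).const_mul _), integral_const_mul,
    integral_const_mul] at t3
  rw [← hXx] at u3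
  linarith

end Pool.Agent.MP_39eeea_nt.H96
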